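import Pool.Agent.L7h48.SM.MomA

set_option autoImplicit false

/-!
# The exceptional sets
-/

namespace Pool.Agent.L7h48.SM

open Real MeasureTheory Function Set Filter Topology
open Pool.Agent.TH705.SM Pool.Agent.Y332.SM
open scoped ENNReal

/-- a small product of two consecutive derivatives, at some time between `1` and `n` -/
def bdP (a B : ℝ) (n : ℕ) : Set T2 :=
  {p | ∃ k, 1 ≤ k ∧ k < n ∧ |Lc a (((S a)^[k] p).1)| * |Lc a (((S a)^[k - 1] p).1)| < B}

theorem S_snd (a : ℝ) (p : T2) : (S a p).2 = p.1 := rfl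

theorem iter_snd (a : ℝ) {k : ℕ} (hk : 1 ≤ k) (p : T2) :
    ((S a)^[k] p).2 = ((S a)^[k - 1] p).1 := by
  obtain ⟨k, rfl⟩ := Nat.exists_eq_add_of_le' hk
  rw [iterate_succ_apply', S_snd, Nat.add_sub_cancel]

theorem vol_bdP {a : ℝ} (ha : 4 ≤ |a|) {B : ℝ} (hB : 0 ≤ B) (n : ℕ) :
    volume (bdP a B n) ≤
      ENNReal.ofReal (n * ((8 + 2 * B / 9 * (1 + 3 * log |a|)) / a ^ 2)) := by
  have ha0 : 0 < |a| := by linarith
  have hla : 0 < log |a| := Real.log_pos (by linarith)
  set c : ℝ := (8 + 2 * B / 9 * (1 + 3 * log |a|)) / a ^ 2 with hc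
  have hc0 : 0 ≤ c := by positivity
  set E : Set T2 := {p : T2 | |Lc a p.1| * |Lc a p.2| < B} with hE
  have hEm : MeasurableSet E := by
    apply IsOpen.measurableSet
    exact isOpen_lt ((((Lc_cont a).comp continuous_fst).abs).mul
      ((Lc_cont a).comp continuous_snd).abs) continuous_const
  have h1 : bdP a B n ⊆ ⋃ k ∈ Finset.range n, (S a)^[k] ⁻¹' E := by
    rintro p ⟨k, hk1, hk2, hk⟩
    simp only [mem_iUnion]
    refine ⟨k, Finset.mem_range.2 hk2, ?_⟩
    rw [mem_preimage, hE, Set.mem_ofPred_eq, iter_snd a hk1]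
    exact hk
  refine (measure_mono h1).trans ((measure_biUnion_finset_le _ _).trans ?_)
  have h2 : ∀ k ∈ Finset.range n, volume ((S a)^[k] ⁻¹' E) ≤ ENNReal.ofReal c := by
    intro k _
    rw [(iter_mp a k).measure_preimage hEm.nullMeasurableSet]
    exact vol_prod ha hB
  refine (Finset.sum_le_sum h2).trans ?_
  rw [Finset.sum_const, Finset.card_range, nsmul_eq_mul, ← ENNReal.ofReal_natCast,
    ← ENNReal.ofReal_mul (by positivity)]

/-- the number of final steps -/
noncomputable def N0 (a : ℝ) : ℕ := ⌈2 * log |a| / log 2⌉₊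

theorem N0_pow {a : ℝ} (ha : 4 ≤ |a|) : |a| ^ 4 ≤ 4 ^ N0 a := by
  have ha0 : 0 < |a| := by linarith
  have hl2 : 0 < log 2 := Real.log_pos (by norm_num)
  have hN1 : 2 * log |a| / log 2 ≤ N0 a := Nat.le_ceil _
  rw [← Real.log_le_log_iff (by positivity) (by positivity), Real.log_pow, Real.log_pow]
  rw [div_le_iff₀ hl2] at hN1
  have e : log (4:ℝ) = 2 * log 2 := by
    have : (4:ℝ) = 2 ^ 2 := by norm_num
    rw [this, Real.log_pow]
    norm_num
  rw [e]
  push_cast
  linarith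

theorem N0_le {a : ℝ} (ha : 4 ≤ |a|) : (N0 a : ℝ) ≤ 1 + 3 * log |a| := by
  have hla : 0 < log |a| := Real.log_pos (by linarith)
  have hl2 : 0 < log 2 := Real.log_pos (by norm_num)
  have hl2' := Real.log_two_gt_d9
  have hN2 : (N0 a:ℝ) < 2 * log |a| / log 2 + 1 := Nat.ceil_lt_add_one (by positivity)
  have h1 : 2 * log |a| / log 2 ≤ 3 * log |a| := by
    rw [div_le_iff₀ hl2]
    nlinarith
  linarith

/-- a small derivative in one of the final steps before time `n` -/
def bdT (a : ℝ) (n : ℕ) : Set T2 :=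
  {p | ∃ k < n, n ≤ k + 1 + N0 a ∧
    |Lc a (((S a)^[k] p).1)| ≤ 16 + 18 * √|a| / 4 ^ (n - (k + 1))}

theorem vol_bdT {a : ℝ} (ha : 256 ≤ |a|) (n : ℕ) :
    volume (bdT a n) ≤ ENNReal.ofReal (15 / √|a|) := by
  have ha0 : 0 < |a| := by linarith
  have ha4 : 4 ≤ |a| := by linarith
  have hM16 : 16 ≤ √|a| := by
    apply Real.le_sqrt_of_sq_le
    norm_num
    exact ha
  have hM : √|a| ^ 2 = |a| := sq_sqrt ha0.le
  have hM0 : 0 < √|a| := Real.sqrt_pos.2 ha0
  have hcoef : ∀ c : ℝ, c * √|a| / (3 * |a|) = c / 3 / √|a| := by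
    intro c
    rw [div_div, div_eq_div_iff (by positivity) (by positivity)]
    have : c * √|a| * (3 * √|a|) = c * 3 * √|a| ^ 2 := by ring
    rw [this, hM]
    ring
  have hpi := pi_pos
  -- reindex by `i = n - (k + 1)`
  have h1 : bdT a n ⊆ ⋃ i ∈ Finset.range (N0 a + 1), ⋃ (_ : i + 1 ≤ n),
      {p : T2 | |Lc a (((S a)^[n - (i + 1)] p).1)| ≤ 16 + 18 * √|a| / 4 ^ i} := by
    rintro p ⟨k, hk1, hk2, hk⟩
    simp only [mem_iUnion]
    refine ⟨n - (k + 1), Finset.mem_range.2 (by omega), by omega, ?_⟩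
    have e : n - (n - (k + 1) + 1) = k := by omega
    rw [Set.mem_ofPred_eq, e]
    exact hk
  refine (measure_mono h1).trans ((measure_biUnion_finset_le _ _).trans ?_)
  have hm : ∀ c : ℝ, MeasurableSet {x : UnitAddCircle | |Lc a x| ≤ c} := Lc_meas_le a
  have h2 : ∀ i ∈ Finset.range (N0 a + 1), volume (⋃ (_ : i + 1 ≤ n),
      {p : T2 | |Lc a (((S a)^[n - (i + 1)] p).1)| ≤ 16 + 18 * √|a| / 4 ^ i}) ≤
      ENNReal.ofReal ((16 + 18 * √|a| / 4 ^ i) / (3 * |a|)) := by
    intro i _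
    refine (measure_mono (iUnion_subset fun _ => subset_rfl)).trans ?_
    have h7 : MeasurePreserving (Prod.fst : T2 → UnitAddCircle)
        ((volume : Measure UnitAddCircle).prod volume) volume := measurePreserving_fst
    have h8 : MeasurePreserving (fun p : T2 => ((S a)^[n - (i + 1)] p).1) volume volume :=
      h7.comp (iter_mp a _)
    have h9 := h8.measure_preimage (hm (16 + 18 * √|a| / 4 ^ i)).nullMeasurableSet
    have h10 : {p : T2 | |Lc a (((S a)^[n - (i + 1)] p).1)| ≤ 16 + 18 * √|a| / 4 ^ i} =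
      (fun p : T2 => ((S a)^[n - (i + 1)] p).1) ⁻¹'
        {x : UnitAddCircle | |Lc a x| ≤ 16 + 18 * √|a| / 4 ^ i} := rfl
    rw [h10, h9]
    exact vol_lin ha4 (by positivity)
  refine (Finset.sum_le_sum h2).trans ?_
  rw [← ENNReal.ofReal_sum_of_nonneg (fun i _ => by positivity)]
  apply ENNReal.ofReal_le_ofReal
  have h3 : ∀ i : ℕ, (16 + 18 * √|a| / 4 ^ i) / (3 * |a|) =
      16 / (3 * |a|) + 6 / √|a| * (1 / 4) ^ i := by
    intro i
    have e1 : (16 + 18 * √|a| / 4 ^ i) / (3 * |a|) =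
      16 / (3 * |a|) + (18 * √|a| / (3 * |a|)) * (1 / 4) ^ i := by
      rw [div_pow, one_pow]
      field_simp
    rw [e1, hcoef]
    norm_num
  simp_rw [h3]
  rw [Finset.sum_add_distrib, ← Finset.mul_sum, Finset.sum_const, Finset.card_range, nsmul_eq_mul]
  have h4 : ∑ i ∈ Finset.range (N0 a + 1), ((1:ℝ) / 4) ^ i ≤ 4 / 3 := by
    have h5 := (summable_geometric_of_lt_one (r := (1:ℝ) / 4) (by norm_num)
      (by norm_num)).sum_le_tsum (Finset.range (N0 a + 1)) (fun i _ => by positivity)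
    rw [tsum_geometric_of_lt_one (by norm_num) (by norm_num)] at h5
    refine h5.trans ?_
    norm_num
  have h5 : 6 / √|a| * ∑ i ∈ Finset.range (N0 a + 1), ((1:ℝ) / 4) ^ i ≤ 8 / √|a| := by
    calc _ ≤ 6 / √|a| * (4 / 3) := mul_le_mul_of_nonneg_left h4 (by positivity)
      _ = _ := by ring
  -- the logarithm against the square root
  have h6 : log |a| ≤ √|a| / 8 + 3.546 := by
    have e : log |a| = 2 * log √|a| := by
      conv_lhs => rw [← hM]
      rw [Real.log_pow]
      norm_num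
    have h7 : log √|a| = log (√|a| / 16) + log 16 := by
      rw [← Real.log_mul (by positivity) (by norm_num)]
      congr 1
      field_simp
    have h8 := Real.log_le_sub_one_of_pos (show 0 < √|a| / 16 by positivity)
    have h9 : log (16:ℝ) = 4 * log 2 := by
      have : (16:ℝ) = 2 ^ 4 := by norm_num
      rw [this, Real.log_pow]
      norm_num
    have h10 := Real.log_two_lt_d9
    rw [e, h7, h9]
    linarith
  have h7 := N0_le ha4
  have h8 : ((N0 a + 1 : ℕ) : ℝ) * (16 / (3 * |a|)) ≤ 7 / √|a| := by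
    push_cast
    have h9 : ((N0 a : ℝ) + 1) ≤ 1.17 * √|a| := by linarith
    calc ((N0 a : ℝ) + 1) * (16 / (3 * |a|)) ≤ 1.17 * √|a| * (16 / (3 * |a|)) :=
          mul_le_mul_of_nonneg_right h9 (by positivity)
      _ = 1.17 * 16 * √|a| / (3 * |a|) := by ring
      _ = 6.24 / √|a| := by
          rw [hcoef]
          norm_num
      _ ≤ 7 / √|a| := by
          apply div_le_div_of_nonneg_right (by norm_num) hM0.le
  have h9 : 15 / √|a| = 7 / √|a| + 8 / √|a| := by ring
  rw [h9]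
  linarith

/-- guaranteed expansion along the orbit of `(t, s)` -/
noncomputable def bsA (a s t : ℝ) (n k : ℕ) : ℝ :=
  if 1 ≤ k ∧ k ≤ n then |L a (X a s k t)| / 2 else 16

/-- the products of the derivatives, divided by four -/
noncomputable def W (a s t : ℝ) (n k : ℕ) : ℝ := ∏ j ∈ Finset.Ico k (n + 1), (|L a (X a s j t)| / 4)

theorem W_succ (a s t : ℝ) {n k : ℕ} (hk : k ≤ n) :
    W a s t n k = |L a (X a s k t)| / 4 * W a s t n (k + 1) := by
  unfold W
  rw [Finset.prod_eq_prod_Ico_succ_bot (by omega)]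

theorem W_last (a s t : ℝ) (n : ℕ) : W a s t n (n + 1) = 1 := by
  unfold W
  rw [Finset.Ico_self, Finset.prod_empty]

theorem rem_W {a s t : ℝ} {n : ℕ} (j : ℕ) : ∀ k, 1 ≤ k → k + j = n + 1 →
    rem (bsA a s t n) n k = (W a s t n k)⁻¹ := by
  induction j with
  | zero =>
    intro k hk1 hk
    rw [add_zero] at hk
    rw [hk, rem_last, W_last, inv_one]
  | succ j ih =>
    intro k hk1 hk
    rw [rem_succ _ (by omega), W_succ _ _ _ (by omega), ih (k + 1) (by omega) (by omega)]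
    have e : bsA a s t n k = |L a (X a s k t)| / 2 := by
      unfold bsA
      rw [if_pos ⟨hk1, by omega⟩]
    rw [e, mul_inv, inv_div]
    congr 1
    rw [div_div_eq_mul_div]
    norm_num

/-- the conditions on the derivatives along the orbit of `(t, s)` -/
structure Gd (a s t : ℝ) (n : ℕ) : Prop where
  pair : ∀ k, 1 ≤ k → k < n → 32 ≤ |L a (X a s k t)| * |L a (X a s (k + 1) t)|
  fin : ∀ k, 1 ≤ k → k ≤ n → n ≤ k + N0 a →
    16 + 18 * √|a| / 4 ^ (n - k) < |L a (X a s k t)|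

theorem L_le {a : ℝ} (ha : 4 ≤ |a|) (x : ℝ) : |L a x| ≤ 8 * |a| := by
  have := Lc_le ha (x : UnitAddCircle)
  rwa [Lc_coe] at this

theorem Gd.low {a s t : ℝ} {n : ℕ} (ha : 256 ≤ |a|) (h : Gd a s t n) {k : ℕ} (hk1 : 1 ≤ k)
    (hk : k ≤ n) : 4 / |a| ≤ |L a (X a s k t)| := by
  have ha0 : 0 < |a| := by linarith
  rcases hk.lt_or_eq with h1 | h1
  · have h2 := h.pair k hk1 h1
    have h3 := L_le (by linarith : 4 ≤ |a|) (X a s (k + 1) t)
    have h4 : |L a (X a s k t)| * |L a (X a s (k + 1) t)| ≤ |L a (X a s k t)| * (8 * |a|) :=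
      mul_le_mul_of_nonneg_left h3 (abs_nonneg _)
    rw [div_le_iff₀ ha0]
    linarith
  · have h2 := h.fin k hk1 hk (by omega)
    have h3 : 4 / |a| ≤ 16 := by
      rw [div_le_iff₀ ha0]
      linarith
    have h4 : 0 ≤ 18 * √|a| / 4 ^ (n - k) := by positivity
    linarith

theorem Gd.ne {a s t : ℝ} {n : ℕ} (ha : 256 ≤ |a|) (h : Gd a s t n) {k : ℕ} (hk1 : 1 ≤ k)
    (hk : k ≤ n) : 0 < |L a (X a s k t)| := by
  have ha0 : 0 < |a| := by linarith
  have := h.low ha hk1 hk
  have h2 : 0 < 4 / |a| := by positivity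
  linarith

/-- the final steps -/
theorem Gd.W_fin {a s t : ℝ} {n : ℕ} (h : Gd a s t n) (j : ℕ) : ∀ k, 1 ≤ k →
    k + j = n → j ≤ N0 a → 4.5 * √|a| * 4 ^ j ≤ W a s t n k := by
  induction j with
  | zero =>
    intro k hk1 hk _
    have hk' : k = n := by omega
    rw [hk'] at hk1 ⊢
    rw [W_succ _ _ _ le_rfl, W_last, mul_one, pow_zero, mul_one]
    have h1 := h.fin n hk1 le_rfl (by omega)
    rw [Nat.sub_self, pow_zero, div_one] at h1
    linarith
  | succ j ih =>
    intro k hk1 hk hj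
    have h1 := ih (k + 1) (by omega) (by omega) (by omega)
    have h2 := h.fin k hk1 (by omega) (by omega)
    have h3 : 0 ≤ 18 * √|a| / 4 ^ (n - k) := by positivity
    rw [W_succ _ _ _ (by omega), pow_succ]
    have h4 : 4 ≤ |L a (X a s k t)| / 4 := by linarith
    have h5 : 0 ≤ 4.5 * √|a| * 4 ^ j := by positivity
    have h6 : 4 * (4.5 * √|a| * 4 ^ j) ≤ |L a (X a s k t)| / 4 * W a s t n (k + 1) :=
      mul_le_mul h4 h1 h5 (by positivity)
    linarith

/-- the earlier steps -/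
theorem Gd.W_early {a s t : ℝ} {n : ℕ} (ha : 256 ≤ |a|) (h : Gd a s t n) (hn : N0 a < n) (i : ℕ) :
    ∀ k, 1 ≤ k → k + i = n - N0 a → 1 / |a| * (4.5 * √|a| * 4 ^ N0 a) ≤ W a s t n k := by
  have ha0 : 0 < |a| := by linarith
  have hC0 : 0 < 4.5 * √|a| * 4 ^ N0 a := by
    have : 0 < √|a| := Real.sqrt_pos.2 ha0
    positivity
  have hC1 : 1 / |a| * (4.5 * √|a| * 4 ^ N0 a) ≤ 4.5 * √|a| * 4 ^ N0 a := by
    apply mul_le_of_le_one_left hC0.le
    rw [div_le_one ha0]
    linarith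
  induction i using Nat.strong_induction_on with
  | _ i ih =>
    intro k hk1 hk
    match i with
    | 0 =>
      have h1 := h.W_fin (N0 a) k hk1 (by omega) le_rfl
      exact hC1.trans h1
    | 1 =>
      have h1 := h.W_fin (N0 a) (k + 1) (by omega) (by omega) le_rfl
      rw [W_succ _ _ _ (by omega)]
      have h2 := h.low ha hk1 (by omega)
      have h3 : 1 / |a| ≤ |L a (X a s k t)| / 4 := by
        have e : 4 / |a| = 4 * (1 / |a|) := by ring
        rw [e] at h2
        linarith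
      exact mul_le_mul h3 h1 hC0.le (by positivity)
    | i + 2 =>
      have h1 := ih i (by omega) (k + 2) (by omega) (by omega)
      rw [W_succ _ _ _ (show k ≤ n by omega), W_succ _ _ _ (show k + 1 ≤ n by omega)]
      have h2 := h.pair k hk1 (by omega)
      have h3 : 1 ≤ |L a (X a s k t)| / 4 * (|L a (X a s (k + 1) t)| / 4) := by
        have e : |L a (X a s k t)| / 4 * (|L a (X a s (k + 1) t)| / 4) =
          |L a (X a s k t)| * |L a (X a s (k + 1) t)| / 16 := by ring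
        rw [e]
        linarith
      have h4 : 0 ≤ 1 / |a| * (4.5 * √|a| * 4 ^ N0 a) := by positivity
      calc 1 / |a| * (4.5 * √|a| * 4 ^ N0 a) ≤
            |L a (X a s k t)| / 4 * (|L a (X a s (k + 1) t)| / 4) *
            (1 / |a| * (4.5 * √|a| * 4 ^ N0 a)) := le_mul_of_one_le_left h4 h3
        _ ≤ |L a (X a s k t)| / 4 * (|L a (X a s (k + 1) t)| / 4) * W a s t n (k + 2) :=
            mul_le_mul_of_nonneg_left h1 (by linarith)
        _ = _ := by ring

theorem Gd.main {a s t : ℝ} {n : ℕ} (ha : 256 ≤ |a|) (h : Gd a s t n) {k : ℕ} (hk1 : 1 ≤ k)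
    (hk : k ≤ n) : 316 * |a| < |L a (X a s k t)| ^ 2 * W a s t n (k + 1) := by
  have ha0 : 0 < |a| := by linarith
  have hM := sq_sqrt ha0.le
  have hM0 : 0 < √|a| := Real.sqrt_pos.2 ha0
  have hM16 : 16 ≤ √|a| := by
    apply Real.le_sqrt_of_sq_le
    norm_num
    exact ha
  rcases le_or_gt n (k + N0 a) with h1 | h1
  · have h2 := h.fin k hk1 hk h1
    rcases hk.lt_or_eq with h3 | h3
    · -- `k < n`
      obtain ⟨j, hj⟩ : ∃ j, n = k + 1 + j := ⟨n - (k + 1), by omega⟩
      have h4 := h.W_fin j (k + 1) (by omega) (by omega) (by omega)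
      have e : n - k = j + 1 := by omega
      rw [e] at h2
      set y : ℝ := √|a| / 4 ^ (j + 1) with hy
      have hy0 : 0 < y := by positivity
      have h5 : 16 + 18 * y < |L a (X a s k t)| := by
        have : 18 * y = 18 * √|a| / 4 ^ (j + 1) := by rw [hy]; ring
        rw [this]
        exact h2
      have h6 : 1152 * y ≤ |L a (X a s k t)| ^ 2 := by
        have h7 : (16 + 18 * y) ^ 2 ≤ |L a (X a s k t)| ^ 2 :=
          pow_le_pow_left₀ (by positivity) h5.le 2
        nlinarith [sq_nonneg (16 - 18 * y)]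
      have h7 : 1152 * y * (4.5 * √|a| * 4 ^ j) ≤
          |L a (X a s k t)| ^ 2 * W a s t n (k + 1) :=
        mul_le_mul h6 h4 (by positivity) (by positivity)
      have h8 : 1152 * y * (4.5 * √|a| * 4 ^ j) = 1296 * |a| := by
        rw [hy, pow_succ, ← hM]
        have h9 : √(√|a| ^ 2) = √|a| := by rw [hM]
        rw [h9]
        field_simp
        norm_num
      linarith
    · -- `k = n`
      rw [h3, W_last, mul_one]
      rw [h3, Nat.sub_self, pow_zero, div_one] at h2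
      have h7 : (16 + 18 * √|a|) ^ 2 ≤ |L a (X a s n t)| ^ 2 :=
        pow_le_pow_left₀ (by positivity) h2.le 2
      nlinarith
  · -- the early steps
    have h2 := h.W_early ha (by omega) (n - N0 a - (k + 1)) (k + 1) (by omega) (by omega)
    have h3 := h.low ha hk1 hk
    have h4 := N0_pow (by linarith : 4 ≤ |a|)
    have h5 : (4 / |a|) ^ 2 ≤ |L a (X a s k t)| ^ 2 := pow_le_pow_left₀ (by positivity) h3 2
    have h6 : (4 / |a|) ^ 2 * (1 / |a| * (4.5 * √|a| * |a| ^ 4)) ≤
        |L a (X a s k t)| ^ 2 * W a s t n (k + 1) := by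
      refine mul_le_mul h5 (le_trans ?_ h2) (by positivity) (by positivity)
      apply mul_le_mul_of_nonneg_left _ (by positivity)
      exact mul_le_mul_of_nonneg_left h4 (by positivity)
    have h7 : (4 / |a|) ^ 2 * (1 / |a| * (4.5 * √|a| * |a| ^ 4)) = 72 * √|a| * |a| := by
      field_simp
      norm_num
    rw [h7] at h6
    nlinarith

theorem Gd.adm {a s t : ℝ} {n : ℕ} (ha : 256 ≤ |a|) (h : Gd a s t n) : Adm (bsA a s t n) n := by
  constructor
  · intro k
    unfold bsA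
    split_ifs with h1
    · have := h.ne ha h1.1 h1.2
      positivity
    · norm_num
  · intro k hk1 hk
    have h2 := h.pair k hk1 hk
    unfold bsA
    rw [if_pos ⟨hk1, hk.le⟩, if_pos ⟨by omega, by omega⟩]
    have e : |L a (X a s k t)| / 2 * (|L a (X a s (k + 1) t)| / 2) =
      |L a (X a s k t)| * |L a (X a s (k + 1) t)| / 4 := by ring
    rw [e]
    linarith

theorem Gd.W_pos {a s t : ℝ} {n : ℕ} (ha : 256 ≤ |a|) (h : Gd a s t n) {k : ℕ} (hk1 : 1 ≤ k) :
    0 < W a s t n k := by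
  unfold W
  refine Finset.prod_pos fun j hj => ?_
  rw [Finset.mem_Ico] at hj
  have := h.ne ha (show 1 ≤ j by omega) (by omega)
  positivity

theorem Gd.strong {a s t : ℝ} {n : ℕ} (ha : 256 ≤ |a|) (h : Gd a s t n) :
    Strong a (bsA a s t n) s n t := by
  intro k hk1 hk
  have ha0 : 0 < |a| := by linarith
  have h1 := h.main ha hk1 hk
  have h2 := h.ne ha hk1 hk
  have h3 := h.W_pos ha (show 1 ≤ k + 1 by omega)
  have hpi4 := pi_lt_d4
  have hpi := pi_pos
  rw [rem_W (n + 1 - k) k hk1 (by omega), W_succ _ _ _ hk]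
  have e : bsA a s t n k = |L a (X a s k t)| / 2 := by
    unfold bsA
    rw [if_pos ⟨hk1, hk⟩]
  rw [e]
  set l : ℝ := |L a (X a s k t)| with hl
  set w : ℝ := W a s t n (k + 1) with hw
  have h4 : 4 * π ^ 2 * |a| * (l / 4 * w)⁻¹ < l / 2 := by
    rw [← div_eq_mul_inv, div_lt_iff₀ (by positivity)]
    have h5 : π ^ 2 < 9.8698 := by nlinarith
    have e2 : l / 2 * (l / 4 * w) = l ^ 2 * w / 8 := by ring
    rw [e2]
    nlinarith
  linarith

theorem Gd.curve {a s t : ℝ} {n : ℕ} (ha : 256 ≤ |a|) (hn : 1 ≤ n) (h : Gd a s t n) :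
    HasCurve ((S a)^[n] '' seg ((W a s t n 1)⁻¹) t s) := by
  have h1 := (h.adm ha).curve ?_ (h.strong ha)
  · rwa [rem_W n 1 le_rfl (by omega)] at h1
  · unfold bsA
    rw [if_pos ⟨hn, le_rfl⟩]
    have h2 := h.fin n hn le_rfl (by omega)
    rw [Nat.sub_self, pow_zero, div_one] at h2
    have ha0 : 0 < |a| := by linarith
    have hM16 : 16 ≤ √|a| := by
      apply Real.le_sqrt_of_sq_le
      norm_num
      exact ha
    linarith

theorem seg_mono {r r' t s : ℝ} (h : r ≤ r') : seg r t s ⊆ seg r' t s := by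
  rintro p ⟨u, hu, rfl⟩
  exact ⟨u, hu.trans h, rfl⟩

/-- the exceptional sets -/
def bdA (a : ℝ) (n : ℕ) : Set T2 :=
  bdP a 32 n ∪ bdT a n ∪ bdQ a (3 / 4) (4 * |a| ^ ((1:ℝ) / 3)) n

/-- the scales -/
noncomputable def rdA (a : ℝ) (n : ℕ) : ℝ := |a| ^ (-(n:ℝ) / 3)

theorem gd_of {a s t : ℝ} {n : ℕ}
    (h1 : ((t : UnitAddCircle), (s : UnitAddCircle)) ∉ bdP a 32 n)
    (h2 : ((t : UnitAddCircle), (s : UnitAddCircle)) ∉ bdT a n) : Gd a s t n := by
  constructor
  · intro k hk1 hk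
    by_contra hcon
    rw [not_le] at hcon
    apply h1
    refine ⟨k, hk1, hk, ?_⟩
    rw [X_of_iter hk1, Lc_coe]
    have h3 := X_of_iter (a := a) (t := t) (s := s) (show 1 ≤ k + 1 by omega)
    rw [Nat.add_sub_cancel] at h3
    rw [h3, Lc_coe, mul_comm]
    exact hcon
  · intro k hk1 hk hkN
    by_contra hcon
    rw [not_lt] at hcon
    apply h2
    refine ⟨k - 1, by omega, by omega, ?_⟩
    rw [X_of_iter hk1, Lc_coe]
    have e : k - 1 + 1 = k := by omega
    rw [e]
    exact hcon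

theorem covA {a : ℝ} (ha : 256 ≤ |a|) : Cov a (bdA a) (rdA a) := by
  have ha0 : 0 < |a| := by linarith
  refine ⟨fun n => by unfold rdA; positivity, ?_⟩
  intro n hn t s hp
  unfold bdA at hp
  rw [mem_union, mem_union, not_or, not_or] at hp
  obtain ⟨⟨hp1, hp2⟩, hp3⟩ := hp
  have hG := gd_of hp1 hp2
  refine (hG.curve ha hn).mono (image_mono (seg_mono ?_))
  have hcoe : ∀ k, ((S a)^[k] ((t : UnitAddCircle), (s : UnitAddCircle))).1 =
      (X a s (k + 1) t : UnitAddCircle) := fun k => by rw [iter_coe]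
  have h1 := prod_ge (by linarith : 4 ≤ |a|) (by norm_num : (0:ℝ) < 3 / 4)
    (by positivity : 0 < 4 * |a| ^ ((1:ℝ) / 3)) hn (fun k hk => by
      rw [hcoe, Lc_coe]
      exact abs_pos.1 (hG.ne ha (by omega) (by omega))) hp3
  have h2 : ∏ k ∈ Finset.range n, |Lc a (((S a)^[k] ((t : UnitAddCircle), (s : UnitAddCircle))).1)|
      = 4 ^ n * W a s t n 1 := by
    unfold W
    rw [Finset.prod_Ico_eq_prod_range, Nat.add_sub_cancel, Finset.prod_div_distrib,
      Finset.prod_const, Finset.card_range, mul_div_cancel₀ _ (by positivity)]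
    refine Finset.prod_congr rfl fun k _ => ?_
    rw [hcoe, Lc_coe, add_comm]
  rw [h2, mul_pow] at h1
  have h3 : (|a| ^ ((1:ℝ) / 3)) ^ n ≤ W a s t n 1 := le_of_mul_le_mul_left h1 (by positivity)
  have h4 : rdA a n = ((|a| ^ ((1:ℝ) / 3)) ^ n)⁻¹ := by
    unfold rdA
    rw [← Real.rpow_natCast, ← Real.rpow_mul ha0.le, ← Real.rpow_neg ha0.le]
    congr 1
    ring
  rw [h4]
  exact inv_anti₀ (by positivity) h3

theorem vol_bdA {a : ℝ} (ha : 256 ≤ |a|) {n : ℕ} (hn : 1 ≤ n) :
    volume (bdA a n) ≤ ENNReal.ofReal (25 * n * log |a| / a ^ 2 + 37 / √|a|) := by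
  have ha0 : 0 < |a| := by linarith
  have hla : 0 < log |a| := Real.log_pos (by linarith)
  have hM := sq_sqrt ha0.le
  have hM0 : 0 < √|a| := Real.sqrt_pos.2 ha0
  unfold bdA
  refine (measure_union_le _ _).trans ((add_le_add ((measure_union_le _ _).trans (add_le_add
    (vol_bdP (by linarith) (by norm_num) n) (vol_bdT ha n)))
    (vol_bdQ (by linarith) (by norm_num) (by norm_num) (by positivity) hn)).trans ?_)
  rw [← ENNReal.ofReal_add (by positivity) (by positivity), ← ENNReal.ofReal_add (by positivity)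
    (by positivity)]
  apply ENNReal.ofReal_le_ofReal
  have h1 : (n:ℝ) * ((8 + 2 * 32 / 9 * (1 + 3 * log |a|)) / a ^ 2) ≤
      25 * n * log |a| / a ^ 2 := by
    have h2 : 8 + 2 * 32 / 9 * (1 + 3 * log |a|) ≤ 25 * log |a| := by
      have h3 : 5.5 ≤ log |a| := by
        have h4 : log 256 ≤ log |a| := Real.log_le_log (by norm_num) ha
        have h5 : log (256:ℝ) = 8 * log 2 := by
          have : (256:ℝ) = 2 ^ 8 := by norm_num
          rw [this, Real.log_pow]
          norm_num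
        have h6 := Real.log_two_gt_d9
        linarith
      linarith
    have hapos : 0 < a ^ 2 := by rw [← sq_abs]; positivity
    rw [mul_div_assoc, ← mul_div_assoc, ← mul_div_assoc]
    apply div_le_div_of_nonneg_right _ hapos.le
    have h4 : (0:ℝ) ≤ n := by positivity
    nlinarith
  have h2 : 16 / 3 / (1 - 3 / 4) * (4 * |a| ^ ((1:ℝ) / 3) / (4 * |a|)) ^ ((3:ℝ) / 4) ≤
      (64 / 3) / √|a| := by
    have e1 : 4 * |a| ^ ((1:ℝ) / 3) / (4 * |a|) = |a| ^ (-(2:ℝ) / 3) := by
      rw [mul_div_mul_left _ _ (by norm_num : (4:ℝ) ≠ 0)]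
      nth_rewrite 2 [← Real.rpow_one |a|]
      rw [← Real.rpow_sub ha0]
      norm_num
    have e2 : (|a| ^ (-(2:ℝ) / 3)) ^ ((3:ℝ) / 4) = 1 / √|a| := by
      rw [← Real.rpow_mul ha0.le, Real.sqrt_eq_rpow, one_div, ← Real.rpow_neg ha0.le]
      norm_num
    rw [e1, e2]
    apply le_of_eq
    norm_num
    ring
  have h3 : 37 / √|a| = 15 / √|a| + 64 / 3 / √|a| + (2 / 3) / √|a| := by ring
  have h4 : 0 < (2 / 3) / √|a| := by positivity
  linarith

end Pool.Agent.L7h48.SM
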