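import Pool.Agent.L7h48.SM.MeasA

set_option autoImplicit false

/-!
# Full crossing curves for the standard map, when only products of two consecutive derivatives are
bounded below
-/

namespace Pool.Agent.L7h48.SM

open Real MeasureTheory Function Set Filter Topology
open Pool.Agent.TH705.SM Pool.Agent.Y332.SM
open scoped ENNReal

/-- admissible lower bounds for the derivatives -/
structure Adm (b : ℕ → ℝ) (n : ℕ) : Prop where
  pos : ∀ k, 0 < b k
  pair : ∀ k, 1 ≤ k → k < n → 4 ≤ b k * b (k + 1)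

theorem Adm.growth {a : ℝ} {b : ℕ → ℝ} {s t : ℝ} {n : ℕ} (hb : Adm b n)
    (hg : GoodB a b s n t) : ∀ k, 1 ≤ k → k ≤ n →
    b k / 2 * |D a s k t| ≤ |D a s (k + 1) t| ∧ 0 < |D a s (k + 1) t| := by
  intro k
  induction k with
  | zero => intro h; omega
  | succ k ih =>
    intro _ hk
    have h2 := hg (k + 1) (by omega) hk
    have hbk := hb.pos (k + 1)
    have e : D a s (k + 1 + 1) t = L a (X a s (k + 1) t) * D a s (k + 1) t - D a s k t := rfl
    have h3 : |L a (X a s (k + 1) t)| * |D a s (k + 1) t| - |D a s k t| ≤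
        |D a s (k + 1 + 1) t| := by
      rw [e, ← abs_mul]
      exact abs_sub_abs_le_abs_sub _ _
    rcases Nat.eq_zero_or_pos k with h0 | h0
    · rw [h0] at h2 h3 hbk ⊢
      have e0 : D a s 0 t = 0 := rfl
      have e1 : D a s (0 + 1) t = 1 := rfl
      rw [e0, e1, abs_zero, abs_one] at h3
      rw [e1, abs_one]
      constructor <;> linarith
    · obtain ⟨h4, h5⟩ := ih h0 (by omega)
      have hbk0 := hb.pos k
      have hp := hb.pair k h0 (by omega)
      have h6 : |D a s k t| ≤ b (k + 1) / 2 * |D a s (k + 1) t| := by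
        have h7 : b k * (b (k + 1) / 2) / 2 * |D a s k t| ≤ b (k + 1) / 2 * |D a s (k + 1) t| := by
          have := mul_le_mul_of_nonneg_left h4 (by positivity : 0 ≤ b (k + 1) / 2)
          linarith
        have h8 : 1 * |D a s k t| ≤ b k * (b (k + 1) / 2) / 2 * |D a s k t| :=
          mul_le_mul_of_nonneg_right (by linarith) (abs_nonneg _)
        linarith
      have h9 : b (k + 1) * |D a s (k + 1) t| ≤ |L a (X a s (k + 1) t)| * |D a s (k + 1) t| :=
        mul_le_mul_of_nonneg_right h2 (abs_nonneg _)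
      have h10 : 0 < b (k + 1) / 2 * |D a s (k + 1) t| := by positivity
      constructor <;> linarith

theorem Adm.rem_pos {b : ℕ → ℝ} {n : ℕ} (hb : Adm b n) (m k : ℕ) : 0 < rem b m k := by
  unfold rem
  refine Finset.prod_pos fun j _ => ?_
  have := hb.pos j
  positivity

theorem Adm.step {a : ℝ} {b : ℕ → ℝ} {s t : ℝ} {n : ℕ} (hb : Adm b n)
    (hg : GoodB a b s n t) {k : ℕ} (hk : k ≤ n) :
    |D a s k t| ≤ 2 / b k * |D a s (k + 1) t| := by
  have hbk := hb.pos k
  rcases Nat.eq_zero_or_pos k with h0 | h0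
  · rw [h0]
    show |(0:ℝ)| ≤ _
    rw [abs_zero]
    have := hb.pos 0
    positivity
  · have h1 := (hb.growth hg k h0 hk).1
    rw [div_mul_eq_mul_div, le_div_iff₀ hbk]
    linarith

theorem Adm.growth_rem {a : ℝ} {b : ℕ → ℝ} {s t : ℝ} {n : ℕ} (hb : Adm b n)
    (hg : GoodB a b s n t) (j : ℕ) : ∀ k, k + j = n + 1 →
    |D a s k t| ≤ rem b n k * |D a s (n + 1) t| := by
  induction j with
  | zero =>
    intro k hk
    rw [add_zero] at hk
    rw [hk, rem_last, one_mul]
  | succ j ih =>
    intro k hk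
    have hbk := hb.pos k
    have h1 := ih (k + 1) (by omega)
    have h2 := hb.step hg (show k ≤ n by omega)
    rw [rem_succ b (show k ≤ n by omega)]
    calc |D a s k t| ≤ 2 / b k * |D a s (k + 1) t| := h2
      _ ≤ 2 / b k * (rem b n (k + 1) * |D a s (n + 1) t|) :=
        mul_le_mul_of_nonneg_left h1 (by positivity)
      _ = _ := by ring

theorem Adm.D_ne_zero {a : ℝ} {b : ℕ → ℝ} {s t : ℝ} {n : ℕ} (hb : Adm b n)
    (hg : GoodB a b s n t) : D a s (n + 1) t ≠ 0 := by
  rcases Nat.eq_zero_or_pos n with h0 | h0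
  · rw [h0]
    show (1:ℝ) ≠ 0
    norm_num
  · exact abs_pos.1 (hb.growth hg n h0 le_rfl).2

theorem Adm.X_incr {a : ℝ} {b : ℕ → ℝ} {s : ℝ} {n : ℕ} {c d : ℝ} (hb : Adm b n) (hcd : c ≤ d)
    (hg : ∀ v ∈ Icc c d, GoodB a b s n v) {k : ℕ} (hk : k ≤ n + 1) :
    |X a s k d - X a s k c| ≤ rem b n k * |X a s (n + 1) d - X a s (n + 1) c| := by
  refine incr hcd (fun x => X_hasDeriv a s (n + 1) x) (fun x => X_hasDeriv a s k x)
    (D_cont a s (n + 1)) (fun x hx => hb.D_ne_zero (hg x hx)) fun x hx => ?_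
  exact hb.growth_rem (hg x hx) (n + 1 - k) k (by omega)

theorem Adm.time_incr {a : ℝ} {b : ℕ → ℝ} {s : ℝ} {n : ℕ} {c d : ℝ} (hb : Adm b n)
    (hcd : c ≤ d) (hg : ∀ v ∈ Icc c d, GoodB a b s n v) :
    |d - c| ≤ rem b n 1 * |X a s (n + 1) d - X a s (n + 1) c| :=
  hb.X_incr hcd hg (k := 1) (by omega)

theorem Adm.good {a : ℝ} {b : ℕ → ℝ} {s t : ℝ} {n : ℕ} (hb : Adm b n)
    (h : Strong a b s n t) : GoodB a b s n t := by
  intro k h1 h2
  have h3 := h k h1 h2
  have h4 := hb.rem_pos n k
  have : 0 ≤ 4 * π ^ 2 * |a| * rem b n k := by positivity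
  linarith

/-- as long as the last coordinate moves by at most one, the orbit stays good -/
theorem Adm.stay {a : ℝ} {b : ℕ → ℝ} {s t u : ℝ} {n : ℕ} (hb : Adm b n)
    (hs : Strong a b s n t) (htu : t ≤ u)
    (h1 : ∀ v ∈ Icc t u, |X a s (n + 1) v - X a s (n + 1) t| ≤ 1) :
    ∀ v ∈ Icc t u, GoodB a b s n v := by
  set Q : Set ℝ := {v | ∀ w ∈ Icc t v, GoodB a b s n w} with hQ
  have hmain : Icc t u ⊆ Q := by
    apply IsClosed.Icc_subset_of_forall_mem_nhdsWithin
    · -- closedness
      rw [← isSeqClosed_iff_isClosed]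
      intro v x hv hx
      have hxI : x ∈ Icc t u := isClosed_Icc.mem_of_tendsto hx
        (Eventually.of_forall fun n => (hv n).2)
      refine ⟨?_, hxI⟩
      intro w hw
      rcases hw.2.lt_or_eq with h | h
      · obtain ⟨m, hm⟩ := (hx.eventually (lt_mem_nhds h)).exists
        exact (hv m).1 w ⟨hw.1, hm.le⟩
      · rw [h]
        apply (good_closed a b s n).mem_of_tendsto hx
        exact Eventually.of_forall fun m => (hv m).1 (v m) (right_mem_Icc.2 (hv m).2.1)
    · intro w hw
      rw [Icc_self, mem_singleton_iff] at hw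
      rw [hw]
      exact hb.good hs
    · intro x hx
      obtain ⟨hxQ, hxI⟩ := hx
      have hxI' : x ∈ Icc t u := ⟨hxI.1, hxI.2.le⟩
      -- strict inequalities at `x`
      have hstrict : ∀ k, 1 ≤ k → k ≤ n → b k < |L a (X a s k x)| := by
        intro k hk1 hk2
        have h2 := hb.X_incr hxI.1 hxQ (k := k) (by omega)
        have h3 := h1 x hxI'
        have h4 := L_lip a (X a s k x) (X a s k t)
        have h5 := hs k hk1 hk2
        have h6 : |X a s k x - X a s k t| ≤ rem b n k := by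
          refine h2.trans ?_
          have := hb.rem_pos n k
          nlinarith
        have h7 : 4 * π ^ 2 * |a| * |X a s k x - X a s k t| ≤
            4 * π ^ 2 * |a| * rem b n k :=
          mul_le_mul_of_nonneg_left h6 (by positivity)
        have h8 := abs_sub_abs_le_abs_sub (L a (X a s k t)) (L a (X a s k x))
        rw [abs_sub_comm] at h8
        linarith
      have hev : ∀ᶠ v in 𝓝 x, GoodB a b s n v := by
        have : ∀ k ∈ Finset.Icc 1 n, ∀ᶠ v in 𝓝 x, b k ≤ |L a (X a s k v)| := by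
          intro k hk
          rw [Finset.mem_Icc] at hk
          have hc : ContinuousAt (fun v => |L a (X a s k v)|) x :=
            (((L_cont a).comp (Xt_cont a s k)).abs).continuousAt
          exact (hc.eventually (lt_mem_nhds (hstrict k hk.1 hk.2))).mono fun v hv => hv.le
        have h2 := (Filter.eventually_all_finset (Finset.Icc 1 n)).2 this
        exact h2.mono fun v hv k hk1 hk2 => hv k (Finset.mem_Icc.2 ⟨hk1, hk2⟩)
      obtain ⟨δ, hδ, hball⟩ := Metric.eventually_nhds_iff.1 hev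
      have : Ioo x (x + δ) ∈ 𝓝[>] x := Ioo_mem_nhdsGT (by linarith)
      refine Filter.mem_of_superset this fun v hv w hw => ?_
      rcases le_or_gt w x with h | h
      · exact hxQ w ⟨hw.1, h⟩
      · apply hball
        rw [Real.dist_eq, abs_lt]
        constructor <;> linarith [hw.2, hv.2]
  intro v hv
  exact hmain (right_mem_Icc.2 htu) v hv

/-- the crossing to the right -/
theorem Adm.right {a : ℝ} {b : ℕ → ℝ} {s t : ℝ} {n : ℕ} (hb : Adm b n)
    (hs : Strong a b s n t) :
    ∃ u, t ≤ u ∧ u ≤ t + rem b n 1 ∧ (∀ v ∈ Icc t u, GoodB a b s n v) ∧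
      |X a s (n + 1) u - X a s (n + 1) t| = 1 := by
  set r : ℝ := rem b n 1 with hr
  have hr0 : 0 < r := hb.rem_pos n 1
  set h : ℝ → ℝ := fun v => |X a s (n + 1) v - X a s (n + 1) t| with hh
  have hc : Continuous h := ((Xt_cont a s (n + 1)).sub continuous_const).abs
  have h0 : h t = 0 := by simp [hh]
  by_cases hcase : ∃ v ∈ Icc t (t + r), 1 ≤ h v
  · obtain ⟨v, hv, hv1⟩ := hcase
    have hK : IsCompact (Icc t (t + r) ∩ h ⁻¹' (Ici 1)) :=
      isCompact_Icc.inter_right (isClosed_Ici.preimage hc)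
    obtain ⟨u, ⟨huI, hu1⟩, hmin⟩ := hK.exists_isLeast ⟨v, hv, hv1⟩
    have hlt : ∀ w ∈ Icc t u, w ≠ u → h w < 1 := by
      intro w hw hne
      by_contra hcon
      rw [not_lt] at hcon
      have := hmin ⟨⟨hw.1, hw.2.trans huI.2⟩, hcon⟩
      exact hne (le_antisymm hw.2 this)
    have htu : t < u := by
      rcases huI.1.lt_or_eq with h2 | h2
      · exact h2
      · rw [← h2] at hu1
        have : (1:ℝ) ≤ h t := hu1
        rw [h0] at this
        linarith
    have hu2 : h u ≤ 1 := by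
      apply le_of_tendsto (f := h) (x := 𝓝[<] u) (hc.continuousAt.tendsto.mono_left
        nhdsWithin_le_nhds)
      have : Ioo t u ∈ 𝓝[<] u := Ioo_mem_nhdsLT htu
      exact Filter.mem_of_superset this fun w hw => (hlt w ⟨hw.1.le, hw.2.le⟩ hw.2.ne).le
    have hle : ∀ w ∈ Icc t u, |X a s (n + 1) w - X a s (n + 1) t| ≤ 1 := by
      intro w hw
      by_cases hwu : w = u
      · rw [hwu]; exact hu2
      · exact (hlt w hw hwu).le
    exact ⟨u, huI.1, huI.2, hb.stay hs huI.1 hle, le_antisymm hu2 hu1⟩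
  · push Not at hcase
    exfalso
    have hgood := hb.stay hs (by linarith : t ≤ t + r) fun v hv => (hcase v hv).le
    have h1 := hb.time_incr (by linarith : t ≤ t + r) hgood
    have h2 := hcase (t + r) (right_mem_Icc.2 (by linarith))
    have e : |t + r - t| = r := by rw [add_sub_cancel_left, abs_of_pos hr0]
    rw [e, ← hr] at h1
    have h3 : r * h (t + r) < r * 1 := mul_lt_mul_of_pos_left h2 hr0
    have h4 : h (t + r) = |X a s (n + 1) (t + r) - X a s (n + 1) t| := rfl
    rw [← h4] at h1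
    linarith

/-- the crossing to the left -/
theorem Adm.left {a : ℝ} {b : ℕ → ℝ} {s t : ℝ} {n : ℕ} (hb : Adm b n)
    (hs : Strong a b s n t) :
    ∃ u, t - rem b n 1 ≤ u ∧ u ≤ t ∧ (∀ v ∈ Icc u t, GoodB a b s n v) ∧
      |X a s (n + 1) u - X a s (n + 1) t| = 1 := by
  obtain ⟨u, h1, h2, h3, h4⟩ := hb.right (strong_neg.2 hs)
  refine ⟨-u, by linarith, by linarith, ?_, ?_⟩
  · intro v hv
    have := h3 (-v) ⟨by linarith [hv.2], by linarith [hv.1]⟩
    exact good_neg.1 this
  · have e : X a (-s) (n + 1) u = -X a s (n + 1) (-u) := by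
      rw [← X_neg, neg_neg]
    rw [e, X_neg] at h4
    rw [← h4, ← abs_neg]
    congr 1
    ring

/-- the image of a short segment contains a full crossing -/
theorem Adm.curve {a : ℝ} {b : ℕ → ℝ} {s t : ℝ} {n : ℕ} (hb : Adm b n) (hbn : 16 ≤ b n)
    (hs : Strong a b s n t) : HasCurve ((S a)^[n] '' seg (rem b n 1) t s) := by
  obtain ⟨c, hc1, hc2, hc3, hc4⟩ := hb.left hs
  obtain ⟨d, hd1, hd2, hd3, hd4⟩ := hb.right hs
  have hcd : c ≤ d := hc2.trans hd1
  have hgood : ∀ v ∈ Icc c d, GoodB a b s n v := by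
    intro v hv
    rcases le_total v t with h | h
    · exact hc3 v ⟨hv.1, h⟩
    · exact hd3 v ⟨h, hv.2⟩
  set Y : ℝ → ℝ := X a s (n + 1) with hY
  have hne : Y c ≠ Y d := by
    intro he
    have h1 := hb.time_incr hcd hgood
    rw [← hY, he, sub_self, abs_zero, mul_zero] at h1
    have h2 : d = c := by
      have := abs_nonneg (d - c)
      have h3 : |d - c| = 0 := le_antisymm h1 this
      rw [abs_eq_zero] at h3
      linarith
    have h3 : t = c := by linarith
    rw [h3, sub_self, abs_zero] at hc4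
    norm_num at hc4
  have hsub : Icc (Y t - 1) (Y t + 1) ⊆ Y '' Icc c d := by
    have h1 := intermediate_value_uIcc (a := c) (b := d) (f := Y)
      (Xt_cont a s (n + 1)).continuousOn
    rw [uIcc_of_le hcd] at h1
    refine subset_trans ?_ h1
    have hc5 : Y c - Y t = 1 ∨ Y c - Y t = -1 := (abs_eq zero_le_one).1 hc4
    have hd5 : Y d - Y t = 1 ∨ Y d - Y t = -1 := (abs_eq zero_le_one).1 hd4
    rcases hc5 with h5 | h5 <;> rcases hd5 with h6 | h6
    · exact absurd (by linarith) hne
    · have e1 : Y c = Y t + 1 := by linarith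
      have e2 : Y d = Y t - 1 := by linarith
      rw [e1, e2, uIcc_of_ge (by linarith)]
    · have e1 : Y c = Y t - 1 := by linarith
      have e2 : Y d = Y t + 1 := by linarith
      rw [e1, e2, uIcc_of_le (by linarith)]
    · exact absurd (by linarith) hne
  have hsub' : ∀ x ∈ Icc (Y t - 1) (Y t + 1), ∃ u, u ∈ Icc c d ∧ Y u = x :=
    fun x hx => hsub hx
  choose! τ hτ using hsub'
  refine ⟨Y t, fun x => X a s n (τ x), ?_, ?_⟩
  · intro x hx
    have h1 := (hτ x hx).1
    have h2 : ((τ x : UnitAddCircle), (s : UnitAddCircle)) ∈ seg (rem b n 1) t s := by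
      refine ⟨τ x, ?_, rfl⟩
      rw [abs_le]
      constructor <;> linarith [h1.1, h1.2]
    refine ⟨_, h2, ?_⟩
    rw [iter_coe]
    have h4 : X a s (n + 1) (τ x) = x := (hτ x hx).2
    rw [h4]
  · have key : ∀ x ∈ Icc (Y t - 1) (Y t + 1), ∀ y ∈ Icc (Y t - 1) (Y t + 1), τ x ≤ τ y →
        |X a s n (τ y) - X a s n (τ x)| ≤ 1 / 8 * |y - x| := by
      intro x hx y hy hxy
      have h1 := hb.X_incr hxy (fun v hv => hgood v ⟨(hτ x hx).1.1.trans hv.1,
        hv.2.trans (hτ y hy).1.2⟩) (k := n) (by omega)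
      have h4 : X a s (n + 1) (τ x) = x := (hτ x hx).2
      have h5 : X a s (n + 1) (τ y) = y := (hτ y hy).2
      rw [h4, h5, rem_succ b le_rfl, rem_last, mul_one] at h1
      refine h1.trans (mul_le_mul_of_nonneg_right ?_ (abs_nonneg _))
      rw [div_le_div_iff₀ (by linarith) (by norm_num)]
      linarith
    intro x hx y hy
    rcases le_total (τ x) (τ y) with h | h
    · rw [abs_sub_comm, abs_sub_comm x y]
      exact key x hx y hy h
    · exact key y hy x hx h

/-! ### consequences of the existence of crossings, for any exceptional sets -/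

/-- for `p` outside `bd n`, the image by `S^n` of the horizontal segment of half-length `rd n`
around `p` contains a full crossing -/
structure Cov (a : ℝ) (bd : ℕ → Set T2) (rd : ℕ → ℝ) : Prop where
  nonneg : ∀ n, 0 ≤ rd n
  cross : ∀ n, 1 ≤ n → ∀ t s : ℝ, ((t : UnitAddCircle), (s : UnitAddCircle)) ∉ bd n →
    HasCurve ((S a)^[n] '' seg (rd n) t s)

theorem Cov.vol_le {a : ℝ} {bd : ℕ → Set T2} {rd : ℕ → ℝ} (h : Cov a bd rd) {n : ℕ} (hn : 1 ≤ n)
    {B : Set T2} (hB : S a ⁻¹' B = B) (hno : ¬ HasCurve B) : volume B ≤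
    volume (bd n) + volume (hnbd (rd n) (frontier B)) := by
  have h1 : B ⊆ bd n ∪ hnbd (rd n) (frontier B) := by
    intro p hp
    by_contra hcon
    rw [mem_union, not_or] at hcon
    obtain ⟨hcon1, hcon2⟩ := hcon
    obtain ⟨p1, p2⟩ := p
    induction p1 using QuotientAddGroup.induction_on with
    | H t =>
      induction p2 using QuotientAddGroup.induction_on with
      | H s =>
        have h3 := h.cross n hn t s hcon1
        have h5 := seg_sub (h.nonneg n) hp hcon2
        refine hno (h3.mono ?_)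
        rintro _ ⟨p, hp, rfl⟩
        exact iter_mem hB (h5 hp) n
  exact (measure_mono h1).trans (measure_union_le _ _)

theorem Cov.alt {a : ℝ} {bd : ℕ → Set T2} {rd : ℕ → ℝ} (h : Cov a bd rd) {n : ℕ} (hn : 1 ≤ n)
    {A : Set T2} (hA : S a ⁻¹' A = A) :
    volume A ≤ volume (bd n) + volume (hnbd (rd n) (frontier A)) ∨
    volume Aᶜ ≤ volume (bd n) + volume (hnbd (rd n) (Prod.swap ⁻¹' frontier A)) := by
  by_cases h1 : HasCurve A
  · right
    have h2 : ¬ HasCurve (Prod.swap ⁻¹' Aᶜ) := by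
      intro h2
      obtain ⟨p, hp1, hp2⟩ := meet h1 h2
      exact hp2 hp1
    have h3 := h.vol_le hn (swap_inv hA) h2
    rw [vol_swap, front_swap] at h3
    exact h3
  · left
    exact h.vol_le hn hA h1

theorem Cov.alt_len {a : ℝ} {bd : ℕ → Set T2} {rd : ℕ → ℝ} (h : Cov a bd rd) {n : ℕ} (hn : 1 ≤ n)
    (hr : 0 < rd n) {A : Set T2} (hA : S a ⁻¹' A = A) {η : ℝ≥0∞} (h1 : η ≤ volume A)
    (h2 : η ≤ volume Aᶜ) :
    η ≤ volume (bd n) + ENNReal.ofReal (4 * rd n) * Measure.hausdorffMeasure 1 (frontier A) := by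
  rcases h.alt hn hA with h3 | h3
  · refine h1.trans (h3.trans (add_le_add_right (vol_hnbd hr _) _))
  · refine h2.trans (h3.trans (add_le_add_right ((vol_hnbd hr _).trans ?_) _))
    exact mul_le_mul_right (haus_swap _) _

theorem Cov.alt_thick {a : ℝ} {bd : ℕ → Set T2} {rd : ℕ → ℝ} (h : Cov a bd rd) {n : ℕ}
    (hn : 1 ≤ n) {A : Set T2} (hA : S a ⁻¹' A = A) {η : ℝ≥0∞} (h1 : η ≤ volume A)
    (h2 : η ≤ volume Aᶜ) :
    η ≤ volume (bd n) + volume (Metric.cthickening (rd n) (frontier A)) := by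
  rcases h.alt hn hA with h3 | h3
  · exact h1.trans (h3.trans (add_le_add_right (vol_hnbd_thick _ _).1 _))
  · exact h2.trans (h3.trans (add_le_add_right (vol_hnbd_thick _ _).2 _))

/-- finite-scale mixing -/
theorem Cov.mixing {a : ℝ} {bd : ℕ → Set T2} {rd : ℕ → ℝ} (h : Cov a bd rd) {n m : ℕ}
    (hn : 1 ≤ n) (hm : 1 ≤ m) {p q : T2} (hp : p ∉ bd n) (hq : Prod.swap q ∉ bd m) :
    ∃ p' q' : T2, dist p p' ≤ rd n ∧ dist q q' ≤ rd m ∧ (S a)^[n + m] p' = q' := by
  have hseg : ∀ {r t s : ℝ} {x : T2}, x ∈ seg r t s →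
      dist ((t : UnitAddCircle), (s : UnitAddCircle)) x ≤ r := by
    rintro r t s x ⟨u, hu, rfl⟩
    rw [Prod.dist_eq]
    simp only [dist_self]
    have h1 : dist (t : UnitAddCircle) (u : UnitAddCircle) ≤ r := by
      rw [dist_eq_norm, ← AddCircle.coe_sub]
      refine (norm_coe_le _).trans ?_
      rw [abs_sub_comm]
      exact hu
    exact max_le h1 (dist_nonneg.trans h1)
  obtain ⟨p1, p2⟩ := p
  obtain ⟨q1, q2⟩ := q
  induction p1 using QuotientAddGroup.induction_on with
  | H t =>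
    induction p2 using QuotientAddGroup.induction_on with
    | H s =>
      induction q1 using QuotientAddGroup.induction_on with
      | H s' =>
        induction q2 using QuotientAddGroup.induction_on with
        | H t' =>
          have c1 := h.cross n hn t s hp
          have c2 := h.cross m hm t' s' hq
          have c3 : HasCurve (Prod.swap ⁻¹' ((Si a)^[m] '' (Prod.swap ''
              seg (rd m) t' s'))) := by
            refine c2.mono ?_
            rintro _ ⟨x, hx, rfl⟩
            refine ⟨Prod.swap x, ⟨x, hx, rfl⟩, ?_⟩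
            rw [swap_S_iter]
          obtain ⟨z, ⟨x, hx, hxz⟩, ⟨_, ⟨y, hy, rfl⟩, hyz⟩⟩ := meet c1 c3
          refine ⟨x, Prod.swap y, hseg hx, ?_, ?_⟩
          · have h5 := hseg hy
            rw [Prod.dist_eq] at h5 ⊢
            rw [max_comm]
            exact h5
          · rw [add_comm, iterate_add_apply, hxz, ← hyz, S_iter_Si]

end Pool.Agent.L7h48.SM
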