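import Pool.Agent.L7h48.SM.BadA
import Pool.Agent.N317.SM.Struct

set_option autoImplicit false

/-!
# Invariant sets and islands, from the new exceptional sets
-/

namespace Pool.Agent.L7h48.SM

open Real MeasureTheory Function Set Filter Topology
open Pool.Agent.TH705.SM Pool.Agent.Y332.SM Pool.Agent.N317.SM
open scoped ENNReal

/-- the error of time `n` -/
noncomputable def erA (a : ℝ) (n : ℕ) : ℝ := 25 * n * log |a| / a ^ 2 + 37 / √|a|

theorem log_sqrt_bound {a : ℝ} (ha : 256 ≤ |a|) : log |a| ≤ 0.35 * √|a| := by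
  have ha0 : 0 < |a| := by linarith
  have hM16 : 16 ≤ √|a| := by
    apply Real.le_sqrt_of_sq_le
    norm_num
    exact ha
  have hM : √|a| ^ 2 = |a| := sq_sqrt ha0.le
  have e : log |a| = 2 * log √|a| := by
    conv_lhs => rw [← hM]
    rw [Real.log_pow]
    norm_num
  have h7 : log √|a| = log (√|a| / 16) + log 16 := by
    rw [← Real.log_mul (by positivity) (by norm_num)]
    congr 1
    field_simp
  have h8 := Real.log_le_sub_one_of_pos (show 0 < √|a| / 16 by positivity)
  have h9 : log (16:ℝ) = 4 * log 2 := by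
    have : (16:ℝ) = 2 ^ 4 := by norm_num
    rw [this, Real.log_pow]
    norm_num
  have h10 := Real.log_two_lt_d9
  rw [e, h7, h9]
  linarith

/-- the exponential lower bound, from the inequality at all scales -/
theorem len_of {a : ℝ} (ha : 256 ≤ |a|) {F : Set T2} {η : ℝ}
    (h : ∀ n : ℕ, 1 ≤ n → ENNReal.ofReal η ≤ ENNReal.ofReal (erA a n) +
      ENNReal.ofReal (4 * rdA a n) * Measure.hausdorffMeasure 1 F) :
    ENNReal.ofReal (exp ((η - 42 / √|a|) * a ^ 2 / 75)) ≤
      1 + Measure.hausdorffMeasure 1 F := by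
  have ha0 : 0 < |a| := by linarith
  have hla : 0 < log |a| := Real.log_pos (by linarith)
  have hM16 : 16 ≤ √|a| := by
    apply Real.le_sqrt_of_sq_le
    norm_num
    exact ha
  have hM0 : 0 < √|a| := by linarith
  have hM : √|a| ^ 2 = |a| := sq_sqrt ha0.le
  have hlM : log |a| = 2 * log √|a| := by
    conv_lhs => rw [← hM]
    rw [Real.log_pow]
    norm_num
  have hapos : 0 < a ^ 2 := by rw [← sq_abs]; positivity
  by_cases htop : Measure.hausdorffMeasure 1 F = (⊤ : ℝ≥0∞)
  · rw [htop]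
    have : (1:ℝ≥0∞) + ⊤ = ⊤ := by simp
    rw [this]
    exact le_top
  · set ℓ : ℝ := (Measure.hausdorffMeasure 1 F).toReal with hℓ
    have hℓ0 : 0 ≤ ℓ := ENNReal.toReal_nonneg
    have hℓe : Measure.hausdorffMeasure 1 F = ENNReal.ofReal ℓ :=
      (ENNReal.ofReal_toReal htop).symm
    set g : ℝ := log (1 + ℓ) with hg
    have hg0 : 0 ≤ g := Real.log_nonneg (by linarith)
    have hlm0 : 0 < log √|a| := Real.log_pos (by linarith)
    set n : ℕ := ⌈3 * (g + log √|a|) / log |a|⌉₊ with hn
    have hn1 : 3 * (g + log √|a|) / log |a| ≤ n := Nat.le_ceil _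
    have hn2 : (n:ℝ) < 3 * (g + log √|a|) / log |a| + 1 := Nat.ceil_lt_add_one (by positivity)
    have hn0 : 1 ≤ n := Nat.one_le_ceil_iff.2 (by positivity)
    have h3 := h n hn0
    have her0 : 0 ≤ erA a n := by unfold erA; positivity
    have hrd0 : 0 < rdA a n := by unfold rdA; positivity
    rw [hℓe, ← ENNReal.ofReal_mul (by positivity), ← ENNReal.ofReal_add her0 (by positivity),
      ENNReal.ofReal_le_ofReal_iff (by positivity)] at h3
    -- the last term
    have h4 : rdA a n ≤ ((1 + ℓ) * √|a|)⁻¹ := by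
      unfold rdA
      rw [← Real.exp_log (show 0 < ((1 + ℓ) * √|a|)⁻¹ by positivity), Real.rpow_def_of_pos ha0]
      apply Real.exp_le_exp.2
      rw [Real.log_inv, Real.log_mul (by positivity) (by positivity), ← hg]
      rw [div_le_iff₀ hla] at hn1
      linarith
    have h5 : 4 * rdA a n * ℓ ≤ 4 / √|a| := by
      have h6 : rdA a n * ℓ ≤ ((1 + ℓ) * √|a|)⁻¹ * ℓ := mul_le_mul_of_nonneg_right h4 hℓ0
      have h7 : ((1 + ℓ) * √|a|)⁻¹ * ℓ ≤ 1 / √|a| := by
        rw [mul_inv, one_div, mul_comm, ← mul_assoc]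
        apply mul_le_of_le_one_left (by positivity)
        rw [← div_eq_mul_inv, div_le_one (by positivity)]
        linarith
      have e : 4 * rdA a n * ℓ = 4 * (rdA a n * ℓ) := by ring
      have e2 : 4 / √|a| = 4 * (1 / √|a|) := by ring
      rw [e, e2]
      linarith
    have h6 : 25 * n * log |a| ≤ 75 * g + 62.5 * log |a| := by
      have h7 : (n:ℝ) * log |a| ≤ 3 * (g + log √|a|) + log |a| := by
        have h8 := mul_le_mul_of_nonneg_right hn2.le hla.le
        rw [add_mul, div_mul_cancel₀ _ hla.ne', one_mul] at h8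
        exact h8
      linarith
    have h7 : 62.5 * log |a| / a ^ 2 ≤ 0.1 / √|a| := by
      rw [div_le_div_iff₀ hapos hM0]
      have h8 := log_sqrt_bound ha
      have e : a ^ 2 = √|a| ^ 2 * √|a| ^ 2 := by rw [hM, ← sq, sq_abs]
      rw [e]
      have h9 : 62.5 * log |a| * √|a| ≤ 62.5 * (0.35 * √|a|) * √|a| := by
        apply mul_le_mul_of_nonneg_right _ hM0.le
        linarith
      have h10 : 256 ≤ √|a| ^ 2 := by nlinarith
      have h11 : 256 * √|a| ^ 2 ≤ √|a| ^ 2 * √|a| ^ 2 :=
        mul_le_mul_of_nonneg_right h10 (by positivity)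
      nlinarith
    have h8 : 25 * n * log |a| / a ^ 2 ≤ 75 * g / a ^ 2 + 0.1 / √|a| := by
      have h9 := div_le_div_of_nonneg_right h6 hapos.le
      rw [add_div] at h9
      linarith
    unfold erA at h3
    have h9 : η - 42 / √|a| ≤ 75 * g / a ^ 2 := by
      have e : 42 / √|a| = 37 / √|a| + 4 / √|a| + 0.1 / √|a| + 0.9 / √|a| := by ring
      have h10 : 0 < 0.9 / √|a| := by positivity
      linarith
    have h10 : (η - 42 / √|a|) * a ^ 2 / 75 ≤ g := by
      rw [le_div_iff₀ hapos] at h9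
      linarith
    have h11 : exp ((η - 42 / √|a|) * a ^ 2 / 75) ≤ 1 + ℓ := by
      rw [← Real.exp_log (show (0:ℝ) < 1 + ℓ by positivity)]
      exact Real.exp_le_exp.2 h10
    rw [hℓe]
    have e1 : (1:ℝ≥0∞) = ENNReal.ofReal 1 := by norm_num
    rw [e1, ← ENNReal.ofReal_add (by norm_num) (by positivity)]
    exact ENNReal.ofReal_le_ofReal h11

/-- the length of the boundary of an invariant set -/
theorem lengthA {a : ℝ} (ha : 256 ≤ |a|) {A : Set T2} (hA : S a ⁻¹' A = A) {η : ℝ}
    (h1 : ENNReal.ofReal η ≤ volume A) (h2 : ENNReal.ofReal η ≤ volume Aᶜ) :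
    ENNReal.ofReal (exp ((η - 42 / √|a|) * a ^ 2 / 75)) ≤
      1 + Measure.hausdorffMeasure 1 (frontier A) := by
  have ha0 : 0 < |a| := by linarith
  apply len_of ha
  intro n hn
  refine ((covA ha).alt_len hn (by unfold rdA; positivity) hA h1 h2).trans ?_
  exact add_le_add_left (vol_bdA ha hn) _

/-! ### islands -/

/-- around a good point of a set the image of the set contains a crossing curve -/
theorem Cov.good_curve {a : ℝ} {bd : ℕ → Set T2} {rd : ℕ → ℝ} (h : Cov a bd rd) {n : ℕ}
    (hn : 1 ≤ n) {B : Set T2} {p : T2} (hb : p ∉ bd n) (hp : p ∈ B)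
    (hf : p ∉ hnbd (rd n) (frontier B)) :
    HasCurve ((S a)^[n] '' connectedComponentIn B p) := by
  obtain ⟨p1, p2⟩ := p
  induction p1 using QuotientAddGroup.induction_on with
  | H t =>
    induction p2 using QuotientAddGroup.induction_on with
    | H s =>
      have h3 := h.cross n hn t s hb
      have h5 := seg_sub (h.nonneg n) hp hf
      have h7 : seg (rd n) t s ⊆
          connectedComponentIn B ((t : UnitAddCircle), (s : UnitAddCircle)) :=
        (seg_preconn _ _ _).subset_connectedComponentIn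
          ⟨t, by simpa using h.nonneg n, rfl⟩ h5
      exact h3.mono (image_mono h7)

theorem Cov.good_curve_comp {a : ℝ} {bd : ℕ → Set T2} {rd : ℕ → ℝ} (h : Cov a bd rd) {n : ℕ}
    (hn : 1 ≤ n) {W : Set T2} (hW : S a ⁻¹' W = W) {p : T2} (hb : p ∉ bd n) (hp : p ∈ W)
    (hf : p ∉ hnbd (rd n) (frontier W)) :
    HasCurve (connectedComponentIn W ((S a)^[n] p)) := by
  rw [← comp_iter hW hp]
  exact h.good_curve hn hb hp hf

theorem Cov.good_curve_comp_v {a : ℝ} {bd : ℕ → Set T2} {rd : ℕ → ℝ} (h : Cov a bd rd) {n : ℕ}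
    (hn : 1 ≤ n) {W : Set T2} (hW : S a ⁻¹' W = W)
    {p : T2} (hb : Prod.swap p ∉ bd n) (hp : p ∈ W)
    (hf : Prod.swap p ∉ hnbd (rd n) (Prod.swap ⁻¹' frontier W)) :
    HasCurve (Prod.swap ⁻¹' connectedComponentIn W ((Si a)^[n] p)) := by
  rw [← front_swap'] at hf
  have h := h.good_curve_comp hn (swap_inv' hW) hb
    (by rwa [mem_preimage, Prod.swap_swap]) hf
  rw [S_swap_iter, comp_swap (mem_Si_iter hW hp n)] at h
  exact h

/-- the structure of an invariant open set -/
theorem Cov.structure_open {a : ℝ} {bd : ℕ → Set T2} {rd : ℕ → ℝ} (h : Cov a bd rd)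
    (ha : 256 ≤ |a|) {W : Set T2} (hWo : IsOpen W) (hW : S a ⁻¹' W = W) :
    ∃ W₀ : Set T2, W₀ ⊆ W ∧
      (W₀ = ∅ ∨ (S a ⁻¹' W₀ = W₀ ∧ (∃ p ∈ W, W₀ = connectedComponentIn W p) ∧
        HasCurve W₀ ∧ HasCurve (Prod.swap ⁻¹' W₀) ∧ IsConnected (pr ⁻¹' W₀))) ∧
      ((∀ n, 1 ≤ n → W \ W₀ ⊆ bd n ∪ hnbd (rd n) (frontier W)) ∨
        (∀ n, 1 ≤ n → W \ W₀ ⊆ Prod.swap ⁻¹'
          (bd n ∪ hnbd (rd n) (Prod.swap ⁻¹' frontier W)))) := by
  by_cases hH : ∃ p ∈ W, HasCurve (connectedComponentIn W p)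
  · by_cases hV : ∃ q ∈ W, HasCurve (Prod.swap ⁻¹' connectedComponentIn W q)
    · obtain ⟨p, hp, hpc⟩ := hH
      obtain ⟨q, hq, hqc⟩ := hV
      set W₀ := connectedComponentIn W p with hW₀
      -- all components with a horizontal curve are equal to `W₀`
      have e1 : connectedComponentIn W q = W₀ := by
        obtain ⟨z, hz1, hz2⟩ := meet hpc hqc
        exact comp_eq hz2 hz1
      rw [e1] at hqc
      have hall : ∀ x ∈ W, HasCurve (connectedComponentIn W x) → x ∈ W₀ := by
        intro x hx hxc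
        obtain ⟨z, hz1, hz2⟩ := meet hxc hqc
        have e2 : connectedComponentIn W x = W₀ := comp_eq hz1 hz2
        rw [← e2]
        exact mem_connectedComponentIn hx
      have hinv' : S a '' W₀ = W₀ := by
        have h1 : HasCurve (S a '' W₀) := (long_S ha hpc).hasCurve
        rw [hW₀, comp_S hW hp] at h1
        have h2 := hall _ (mem_S hW hp) h1
        rw [hW₀, comp_S hW hp]
        rw [hW₀] at h2
        exact (connectedComponentIn_eq h2).symm
      have hinv : S a ⁻¹' W₀ = W₀ := pre_S hinv'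
      have hSi : Si a '' W₀ = W₀ := by
        conv_lhs => rw [← hinv', ← image_comp]
        have : Si a ∘ S a = id := funext (Si_S a)
        rw [this, image_id]
      have hL1 : Long W₀ := by
        have := long_S ha hpc
        rwa [hinv'] at this
      have hL2 : Long (Prod.swap ⁻¹' W₀) := by
        have := long_Si ha hqc
        rwa [hSi] at this
      refine ⟨W₀, connectedComponentIn_subset _ _, Or.inr ⟨hinv, ⟨p, hp, rfl⟩, hpc, hqc,
        conn_of_long hWo.connectedComponentIn isPreconnected_connectedComponentIn hL1 hL2⟩,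
        Or.inl ?_⟩
      intro n hn x hx
      by_contra hcon
      rw [mem_union, not_or] at hcon
      have h1 := h.good_curve_comp hn hW hcon.1 hx.1 hcon.2
      exact hx.2 (of_iter_mem hinv n (hall _ (iter_mem hW hx.1 n) h1))
    · refine ⟨∅, empty_subset _, Or.inl rfl, Or.inr ?_⟩
      intro n hn x hx
      by_contra hcon
      rw [mem_preimage, mem_union, not_or] at hcon
      exact hV ⟨_, mem_Si_iter hW hx.1 n, h.good_curve_comp_v hn hW hcon.1 hx.1 hcon.2⟩
  · refine ⟨∅, empty_subset _, Or.inl rfl, Or.inl ?_⟩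
    intro n hn x hx
    by_contra hcon
    rw [mem_union, not_or] at hcon
    exact hH ⟨_, iter_mem hW hx.1 n, h.good_curve_comp hn hW hcon.1 hx.1 hcon.2⟩

/-- a set with a vertical crossing curve comes close to every good point -/
theorem Cov.near {a : ℝ} {bd : ℕ → Set T2} {rd : ℕ → ℝ} (h : Cov a bd rd) {n : ℕ} (hn : 1 ≤ n)
    {B : Set T2} (hB : S a ⁻¹' B = B) (hv : HasCurve (Prod.swap ⁻¹' B)) {p : T2}
    (hb : p ∉ bd n) : ∃ q ∈ B, dist q p ≤ rd n := by
  obtain ⟨p1, p2⟩ := p
  induction p1 using QuotientAddGroup.induction_on with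
  | H t =>
    induction p2 using QuotientAddGroup.induction_on with
    | H s =>
      have h3 := h.cross n hn t s hb
      obtain ⟨z, ⟨x, ⟨u, hu, rfl⟩, hxz⟩, hz⟩ := meet h3 hv
      refine ⟨((u : UnitAddCircle), (s : UnitAddCircle)), of_iter_mem hB n (by rwa [hxz]), ?_⟩
      rw [Prod.dist_eq]
      simp only [dist_self]
      have h1 : dist (u : UnitAddCircle) (t : UnitAddCircle) ≤ rd n := by
        rw [dist_eq_norm, ← AddCircle.coe_sub]
        exact (norm_coe_le _).trans hu
      exact max_le h1 (h.nonneg n)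

/-- a domain which returns to itself or avoids itself, and is not thin -/
theorem Cov.returning {a : ℝ} {bd : ℕ → Set T2} {rd : ℕ → ℝ} (h : Cov a bd rd)
    (ha : 256 ≤ |a|) {D : Set T2} (hDo : IsOpen D)
    (hDc : IsPreconnected D) (hD : ∀ k, (S a)^[k] '' D = D ∨ Disjoint ((S a)^[k] '' D) D)
    {n : ℕ} (hn : 1 ≤ n) {p : T2} (hp : Metric.closedBall p (rd n) ⊆ D)
    (hb : p ∉ bd n) (hb' : Prod.swap p ∉ bd n) :
    S a ⁻¹' D = D ∧ HasCurve D ∧ HasCurve (Prod.swap ⁻¹' D) ∧ IsConnected (pr ⁻¹' D) := by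
  obtain ⟨hf, hf'⟩ := deep hDo hp
  have hpD : p ∈ D := hp (Metric.mem_closedBall_self (h.nonneg n))
  have h1 : HasCurve ((S a)^[n] '' D) :=
    (h.good_curve hn hb hpD hf).mono (image_mono (connectedComponentIn_subset _ _))
  have h2 : HasCurve (Prod.swap ⁻¹' ((Si a)^[n] '' D)) := by
    rw [← front_swap'] at hf'
    have h3 := (h.good_curve hn hb' (B := Prod.swap ⁻¹' D)
      (by rwa [mem_preimage, Prod.swap_swap]) hf').mono
      (image_mono (connectedComponentIn_subset _ _))
    refine h3.mono ?_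
    rintro _ ⟨q, hq, rfl⟩
    refine ⟨Prod.swap q, hq, ?_⟩
    rw [← swap_S_iter]
  -- the two images are equal
  have h3 : (S a)^[n + n] '' D = D := by
    rcases hD (n + n) with h | h
    · exact h
    · exfalso
      obtain ⟨z, ⟨x, hx, hxz⟩, ⟨y, hy, hyz⟩⟩ := meet h1 h2
      refine Set.disjoint_left.1 h ⟨x, hx, ?_⟩ hy
      rw [iterate_add_apply, hxz, ← hyz, S_iter_Si]
  have hcomp : (Si a)^[n] ∘ (S a)^[n + n] = (S a)^[n] := by
    funext x
    rw [comp_apply, iterate_add_apply, S_iter_Si']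
  have h4 : (Si a)^[n] '' D = (S a)^[n] '' D := by
    conv_lhs => rw [← h3, ← image_comp, hcomp]
  rw [h4] at h2
  -- invariance
  have h5 : S a '' D = D := by
    rcases hD 1 with h | h
    · exact h
    · exfalso
      have h6 := (long_S ha h1).hasCurve
      obtain ⟨z, ⟨x, ⟨x', hx', hxx⟩, hxz⟩, ⟨y, hy, hyz⟩⟩ := meet h6 h2
      refine Set.disjoint_left.1 h ⟨x', hx', ?_⟩ hy
      rw [iterate_one]
      have h7 : (S a)^[n] (S a x') = (S a)^[n] y := by
        rw [← iterate_succ_apply, iterate_succ_apply', hxx, hxz, hyz]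
      have h8 := congrArg ((Si a)^[n]) h7
      rwa [S_iter_Si', S_iter_Si'] at h8
  have h6 : ∀ k, (S a)^[k] '' D = D := by
    intro k
    induction k with
    | zero => simp
    | succ k ih => rw [iterate_succ', image_comp, ih, h5]
  rw [h6 n] at h1 h2
  have h7 : Si a '' D = D := by
    conv_lhs => rw [← h5, ← image_comp]
    have : Si a ∘ S a = id := funext (Si_S a)
    rw [this, image_id]
  have hL1 : Long D := by
    have := long_S ha h1
    rwa [h5] at this
  have hL2 : Long (Prod.swap ⁻¹' D) := by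
    have := long_Si ha h2
    rwa [h7] at this
  exact ⟨pre_S h5, h1, h2, conn_of_long hDo hDc hL1 hL2⟩

/-- the area of the small components against the length of the boundary -/
theorem vol_partA {a : ℝ} (ha : 256 ≤ |a|) {n : ℕ} (hn : 1 ≤ n) {W R : Set T2}
    (h : (R ⊆ bdA a n ∪ hnbd (rdA a n) (frontier W)) ∨
        (R ⊆ Prod.swap ⁻¹' (bdA a n ∪ hnbd (rdA a n) (Prod.swap ⁻¹' frontier W)))) :
    volume R ≤ ENNReal.ofReal (erA a n) +
      ENNReal.ofReal (4 * rdA a n) * Measure.hausdorffMeasure 1 (frontier W) := by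
  have ha0 : 0 < |a| := by linarith
  have hr : 0 < rdA a n := by unfold rdA; positivity
  rcases h with h | h
  · refine (measure_mono h).trans ((measure_union_le _ _).trans (add_le_add
      (vol_bdA ha hn) ?_))
    exact vol_hnbd hr _
  · refine (measure_mono h).trans ?_
    rw [vol_swap]
    refine (measure_union_le _ _).trans (add_le_add (vol_bdA ha hn) ?_)
    refine (vol_hnbd hr _).trans ?_
    exact mul_le_mul_right (haus_swap _) _

end Pool.Agent.L7h48.SM
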