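import Pool.Agent.L7h48.SM.BadA
import Pool.Agent.R243.Erg.Max

set_option autoImplicit false

/-!
# Hyperbolicity of the standard map for times up to `|a| ^ 2 / log |a|`
-/

namespace Pool.Agent.L7h48.SM

open Real MeasureTheory Function Set Filter Topology
open Pool.Agent.TH705.SM Pool.Agent.Y332.SM
open scoped ENNReal

/-- the function `(4 |a| / |L|) ^ s` -/
noncomputable def hf (a s : ℝ) (x : UnitAddCircle) : ℝ := (4 * |a| / |Lc a x|) ^ s

theorem hf_nonneg (a s : ℝ) (x : UnitAddCircle) : 0 ≤ hf a s x := by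
  unfold hf
  positivity

theorem hf_meas (a s : ℝ) : Measurable (hf a s) := by
  unfold hf
  have h1 : Measurable (fun x => |Lc a x|) := (Lc_cont a).abs.measurable
  exact (measurable_const.div h1).pow_const s

theorem hf_le {a s : ℝ} (ha : 4 ≤ |a|) (hs : 0 < s) (x : UnitAddCircle) :
    ENNReal.ofReal (hf a s x) ≤ Zf a s x := by
  by_cases hx : Lc a x = 0
  · unfold hf
    rw [hx, abs_zero, div_zero, Real.zero_rpow hs.ne', ENNReal.ofReal_zero]
    exact zero_le
  · exact Zf_ge ha hs.le hx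

theorem hf_int {a s : ℝ} (ha : 4 ≤ |a|) (hs : 0 < s) (hs1 : s < 1) :
    Integrable (hf a s) ∧ ∫ x, hf a s x ≤ 16 / 3 / (1 - s) := by
  have hs2 : 0 < 1 - s := by linarith
  have h1 : ∫⁻ x, ENNReal.ofReal (hf a s x) ≤ ENNReal.ofReal (16 / 3 / (1 - s)) :=
    (lintegral_mono (hf_le ha hs)).trans (Zf_int ha hs.le hs1)
  constructor
  · refine ⟨(hf_meas a s).aestronglyMeasurable, ?_⟩
    rw [hasFiniteIntegral_iff_ofReal (Eventually.of_forall (hf_nonneg a s))]
    exact h1.trans_lt ENNReal.ofReal_lt_top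
  · rw [integral_eq_lintegral_of_nonneg_ae (Eventually.of_forall (hf_nonneg a s))
      (hf_meas a s).aestronglyMeasurable]
    exact ENNReal.toReal_le_of_le_ofReal (by positivity) h1

/-- some Birkhoff average of `hf` is large -/
def bdM (a s Q : ℝ) : Set T2 :=
  {p | ∃ k : ℕ, (4 * |a| / Q) ^ s * k < ∑ i ∈ Finset.range k, hf a s (((S a)^[i] p).1)}

theorem vol_bdM {a s Q : ℝ} (ha : 4 ≤ |a|) (hs : 0 < s) (hs1 : s < 1) (hQ : 0 < Q) :
    volume (bdM a s Q) ≤ ENNReal.ofReal (16 / 3 / (1 - s) * (Q / (4 * |a|)) ^ s) := by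
  have ha0 : 0 < |a| := by linarith
  obtain ⟨h1, h2⟩ := hf_int ha hs hs1
  have h7 : MeasurePreserving (Prod.fst : T2 → UnitAddCircle)
      ((volume : Measure UnitAddCircle).prod volume) volume := measurePreserving_fst
  have h3 := Pool.Agent.R243.Erg.max_ineq (S_mp a) (h := fun p : T2 => hf a s p.1)
    ((hf_meas a s).comp measurable_fst) (h7.integrable_comp_of_integrable h1)
    (fun p => hf_nonneg a s p.1) (show 0 < (4 * |a| / Q) ^ s by positivity)
  refine h3.trans (ENNReal.ofReal_le_ofReal ?_)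
  have h4 : ∫ p : T2, hf a s p.1 = ∫ x, hf a s x := by
    have h5 := integral_map (μ := (volume : Measure T2)) (φ := Prod.fst) (f := hf a s)
      measurable_fst.aemeasurable (hf_meas a s).aestronglyMeasurable
    rw [show Measure.map Prod.fst (volume : Measure T2) = volume from h7.map_eq] at h5
    exact h5.symm
  rw [h4, div_eq_mul_inv, ← Real.inv_rpow (by positivity), inv_div]
  exact mul_le_mul_of_nonneg_right h2 (by positivity)

theorem prod_ge' {a s Q : ℝ} (ha : 4 ≤ |a|) (hs : 0 < s) (hQ : 0 < Q) {n : ℕ} (hn : 1 ≤ n)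
    {p : T2} (hne : ∀ k < n, Lc a (((S a)^[k] p).1) ≠ 0) (hp : p ∉ bdM a s Q) :
    Q ^ n ≤ ∏ k ∈ Finset.range n, |Lc a (((S a)^[k] p).1)| := by
  have ha0 : 0 < |a| := by linarith
  have hn0 : (0:ℝ) < n := by exact_mod_cast hn
  set w : ℕ → ℝ := fun k => |Lc a (((S a)^[k] p).1)| with hw
  have hw0 : ∀ k < n, 0 < w k := fun k hk => abs_pos.2 (hne k hk)
  unfold bdM at hp
  rw [Set.mem_ofPred_eq, not_exists] at hp
  have hp := hp n
  rw [not_lt] at hp
  set c : ℝ := (4 * |a| / Q) ^ s with hc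
  have hc0 : 0 < c := by positivity
  have h1 : ∑ k ∈ Finset.range n, (4 * |a| / w k) ^ s ≤ c * n := hp
  have h2 := Real.geom_mean_le_arith_mean_weighted (Finset.range n) (fun _ => 1 / (n:ℝ))
    (fun k => (4 * |a| / w k) ^ s) (fun k _ => by positivity)
    (by rw [Finset.sum_const, Finset.card_range, nsmul_eq_mul]; field_simp)
    (fun k hk => by
      have := hw0 k (Finset.mem_range.1 hk)
      positivity)
  rw [← Finset.mul_sum] at h2
  have h3 : 1 / (n:ℝ) * ∑ k ∈ Finset.range n, (4 * |a| / w k) ^ s ≤ c := by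
    rw [div_mul_eq_mul_div, one_mul, div_le_iff₀ hn0]
    exact h1
  have h4 : ∏ k ∈ Finset.range n, ((4 * |a| / w k) ^ s) ^ (1 / (n:ℝ)) =
      (∏ k ∈ Finset.range n, (4 * |a| / w k)) ^ (s / n) := by
    rw [← Real.finsetProd_rpow]
    · refine Finset.prod_congr rfl fun k hk => ?_
      have := hw0 k (Finset.mem_range.1 hk)
      rw [← Real.rpow_mul (by positivity)]
      congr 1
      ring
    · intro k hk
      have := hw0 k (Finset.mem_range.1 hk)
      positivity
  rw [h4] at h2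
  have h5 := h2.trans h3
  have hprod0 : 0 < ∏ k ∈ Finset.range n, (4 * |a| / w k) := by
    refine Finset.prod_pos fun k hk => ?_
    have := hw0 k (Finset.mem_range.1 hk)
    positivity
  have h6 : c = ((4 * |a| / Q) ^ n) ^ (s / n) := by
    rw [hc, ← Real.rpow_natCast, ← Real.rpow_mul (by positivity)]
    congr 1
    field_simp
  rw [h6] at h5
  have h7 : ∏ k ∈ Finset.range n, (4 * |a| / w k) ≤ (4 * |a| / Q) ^ n :=
    (Real.rpow_le_rpow_iff hprod0.le (by positivity) (by positivity)).1 h5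
  have h8 : ∏ k ∈ Finset.range n, (4 * |a| / w k) = (4 * |a|) ^ n / ∏ k ∈ Finset.range n, w k := by
    rw [Finset.prod_div_distrib, Finset.prod_const, Finset.card_range]
  have hW0 : 0 < ∏ k ∈ Finset.range n, w k := Finset.prod_pos fun k hk =>
    hw0 k (Finset.mem_range.1 hk)
  rw [h8, div_pow, div_le_div_iff₀ hW0 (by positivity)] at h7
  exact le_of_mul_le_mul_left h7 (by positivity)

/-- the growth of the derivative when all products of two consecutive derivatives are at least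
four -/
theorem D_prod {a s t : ℝ} {N : ℕ}
    (h : ∀ k, 1 ≤ k → k < N → 4 ≤ |L a (X a s k t)| * |L a (X a s (k + 1) t)|) :
    ∀ n, 1 ≤ n → n ≤ N → |D a s n t| * (|L a (X a s n t)| / 2) ≤ |D a s (n + 1) t| ∧
      ∏ k ∈ Finset.range n, (|L a (X a s (k + 1) t)| / 2) ≤ |D a s (n + 1) t| := by
  intro n
  induction n with
  | zero => intro h; omega
  | succ n ih =>
    intro _ hn
    have e : D a s (n + 1 + 1) t = L a (X a s (n + 1) t) * D a s (n + 1) t - D a s n t := rfl
    have h3 : |L a (X a s (n + 1) t)| * |D a s (n + 1) t| - |D a s n t| ≤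
        |D a s (n + 1 + 1) t| := by
      rw [e, ← abs_mul]
      exact abs_sub_abs_le_abs_sub _ _
    rcases Nat.eq_zero_or_pos n with h0 | h0
    · rw [h0] at h3 ⊢
      have e0 : D a s 0 t = 0 := rfl
      have e1 : D a s (0 + 1) t = 1 := rfl
      rw [e0, e1, abs_zero, abs_one] at h3
      rw [e1, abs_one, Finset.prod_range_one]
      have h4 := abs_nonneg (L a (X a s (0 + 1) t))
      constructor <;> linarith
    · obtain ⟨h4, h5⟩ := ih h0 (by omega)
      have hp := h n h0 (by omega)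
      set l : ℝ := |L a (X a s n t)| with hl
      set l' : ℝ := |L a (X a s (n + 1) t)| with hl'
      have hl0 : 0 ≤ l := abs_nonneg _
      have hl0' : 0 ≤ l' := abs_nonneg _
      have hD0 := abs_nonneg (D a s n t)
      have h6 : |D a s n t| ≤ l' / 2 * |D a s (n + 1) t| := by
        have h7 := mul_le_mul_of_nonneg_left h4 (by positivity : 0 ≤ l' / 2)
        have h8 : 1 * |D a s n t| ≤ l * l' / 4 * |D a s n t| :=
          mul_le_mul_of_nonneg_right (by linarith) hD0
        calc |D a s n t| ≤ l * l' / 4 * |D a s n t| := by linarith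
          _ = l' / 2 * (|D a s n t| * (l / 2)) := by ring
          _ ≤ _ := h7
      have h9 : |D a s (n + 1) t| * (l' / 2) ≤ |D a s (n + 1 + 1) t| := by linarith
      refine ⟨h9, ?_⟩
      rw [Finset.prod_range_succ]
      refine le_trans ?_ h9
      exact mul_le_mul_of_nonneg_right h5 (by positivity)

/-- the points of the torus where the derivative grows slowly at some time up to `N` -/
theorem growth_torus {a δ : ℝ} (ha : 4 ≤ |a|) {N : ℕ} {s t σ : ℝ} (hσ : 0 < σ)
    (h1 : ((t : UnitAddCircle), (s : UnitAddCircle)) ∉ bdP a 4 (N + 1))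
    (h2 : ((t : UnitAddCircle), (s : UnitAddCircle)) ∉ bdM a σ (2 * |a| ^ (1 - δ)))
    {n : ℕ} (hn : 1 ≤ n) (hnN : n ≤ N) : |a| ^ ((1 - δ) * n) ≤ |D a s (n + 1) t| := by
  have ha0 : 0 < |a| := by linarith
  have hpair : ∀ k, 1 ≤ k → k < N + 1 → 4 ≤ |L a (X a s k t)| * |L a (X a s (k + 1) t)| := by
    intro k hk1 hk
    by_contra hcon
    rw [not_le] at hcon
    apply h1
    refine ⟨k, hk1, hk, ?_⟩
    rw [X_of_iter hk1, Lc_coe]
    have h3 := X_of_iter (a := a) (t := t) (s := s) (show 1 ≤ k + 1 by omega)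
    rw [Nat.add_sub_cancel] at h3
    rw [h3, Lc_coe, mul_comm]
    exact hcon
  have hcoe : ∀ k, ((S a)^[k] ((t : UnitAddCircle), (s : UnitAddCircle))).1 =
      (X a s (k + 1) t : UnitAddCircle) := fun k => by rw [iter_coe]
  have h3 := (D_prod hpair n hn (by omega)).2
  have h4 := prod_ge' ha hσ (by positivity : 0 < 2 * |a| ^ (1 - δ)) hn (fun k hk => by
      rw [hcoe, Lc_coe]
      intro h0
      have h5 := hpair (k + 1) (by omega) (by omega)
      rw [h0, abs_zero, zero_mul] at h5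
      linarith) h2
  have h5 : ∏ k ∈ Finset.range n, |Lc a (((S a)^[k] ((t : UnitAddCircle), (s : UnitAddCircle))).1)|
      = 2 ^ n * ∏ k ∈ Finset.range n, (|L a (X a s (k + 1) t)| / 2) := by
    rw [Finset.prod_div_distrib, Finset.prod_const, Finset.card_range,
      mul_div_cancel₀ _ (by positivity)]
    refine Finset.prod_congr rfl fun k _ => ?_
    rw [hcoe, Lc_coe]
  rw [h5, mul_pow] at h4
  have h6 := le_of_mul_le_mul_left h4 (by positivity)
  refine le_trans ?_ h3
  refine le_trans (le_of_eq ?_) h6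
  rw [← Real.rpow_natCast, ← Real.rpow_mul ha0.le]

theorem vol_all {a δ : ℝ} (ha : 4 ≤ |a|) (hδ1 : δ ≤ 1) {N : ℕ} (hN : 1 ≤ N) :
    volume (bdP a 4 (N + 1) ∪ bdM a (1 - 1 / (2 * log |a|)) (2 * |a| ^ (1 - δ))) ≤
      ENNReal.ofReal (19 * log |a| * (|a| ^ (-δ) + N / a ^ 2)) := by
  have ha0 : 0 < |a| := by linarith
  have hl2 := Real.log_two_gt_d9
  have hla : 1.386 ≤ log |a| := by
    have h4 : log 4 ≤ log |a| := Real.log_le_log (by norm_num) ha
    have h5 : log (4:ℝ) = 2 * log 2 := by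
      have : (4:ℝ) = 2 ^ 2 := by norm_num
      rw [this, Real.log_pow]
      norm_num
    linarith
  have hla0 : 0 < log |a| := by linarith
  have hapos : 0 < a ^ 2 := by rw [← sq_abs]; positivity
  set u : ℝ := 1 / (2 * log |a|) with hu
  have hu0 : 0 < u := by positivity
  have hu1 : u ≤ 0.361 := by
    rw [hu, div_le_iff₀ (by positivity)]
    linarith
  have hs0 : 0 < 1 - u := by linarith
  have hs1 : 1 - u < 1 := by linarith
  refine (measure_union_le _ _).trans ((add_le_add (vol_bdP ha (by norm_num) (N + 1))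
    (vol_bdM ha hs0 hs1 (by positivity))).trans ?_)
  rw [← ENNReal.ofReal_add (by positivity) (by rw [sub_sub_cancel]; positivity)]
  apply ENNReal.ofReal_le_ofReal
  have h1 : ((N + 1 : ℕ) : ℝ) * ((8 + 2 * 4 / 9 * (1 + 3 * log |a|)) / a ^ 2) ≤
      19 * log |a| * (N / a ^ 2) := by
    have h2 : 8 + 2 * 4 / 9 * (1 + 3 * log |a|) ≤ 9.1 * log |a| := by linarith
    have h3 : ((N + 1 : ℕ) : ℝ) ≤ 2 * N := by
      have : (1:ℝ) ≤ N := by exact_mod_cast hN
      push_cast
      linarith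
    have h4 : (8 + 2 * 4 / 9 * (1 + 3 * log |a|)) / a ^ 2 ≤ 9.1 * log |a| / a ^ 2 :=
      div_le_div_of_nonneg_right h2 hapos.le
    calc ((N + 1 : ℕ) : ℝ) * ((8 + 2 * 4 / 9 * (1 + 3 * log |a|)) / a ^ 2) ≤
          2 * N * (9.1 * log |a| / a ^ 2) := mul_le_mul h3 h4 (by positivity) (by positivity)
      _ = 18.2 * log |a| * (N / a ^ 2) := by ring
      _ ≤ 19 * log |a| * (N / a ^ 2) := by
          apply mul_le_mul_of_nonneg_right _ (by positivity)
          linarith
  have h2 : 16 / 3 / (1 - (1 - u)) * (2 * |a| ^ (1 - δ) / (4 * |a|)) ^ (1 - u) ≤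
      19 * log |a| * |a| ^ (-δ) := by
    rw [sub_sub_cancel]
    have e1 : 2 * |a| ^ (1 - δ) / (4 * |a|) = |a| ^ (-δ) * (1 / 2) := by
      rw [Real.rpow_sub ha0, Real.rpow_one, Real.rpow_neg ha0.le]
      field_simp
      norm_num
    have e2 : (|a| ^ (-δ)) ^ (1 - u) = |a| ^ (-δ) * exp (δ / 2) := by
      rw [← Real.rpow_mul ha0.le, Real.rpow_def_of_pos ha0, Real.rpow_def_of_pos ha0,
        ← Real.exp_add]
      congr 1
      rw [hu]
      field_simp
      ring
    have e3 : ((1:ℝ) / 2) ^ (1 - u) ≤ 1 := Real.rpow_le_one (by norm_num) (by norm_num) hs0.le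
    have e4 : exp (δ / 2) ≤ 1.7 := by
      have h3 : exp (δ / 2) ≤ exp (1 / 2) := Real.exp_le_exp.2 (by linarith)
      have h4 : exp (1 / 2 : ℝ) ^ 2 < 1.7 ^ 2 := by
        rw [← Real.exp_nat_mul]
        have h5 := Real.exp_one_lt_d9
        norm_num
        linarith
      have h5 : exp (1 / 2 : ℝ) < 1.7 := lt_of_pow_lt_pow_left₀ 2 (by norm_num) h4
      linarith
    rw [e1, Real.mul_rpow (by positivity) (by norm_num), e2]
    have h3 : 16 / 3 / u = 32 / 3 * log |a| := by
      rw [hu]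
      field_simp
      norm_num
    rw [h3]
    have h4 : |a| ^ (-δ) * exp (δ / 2) * (1 / 2) ^ (1 - u) ≤ |a| ^ (-δ) * 1.7 * 1 := by
      apply mul_le_mul _ e3 (by positivity) (by positivity)
      exact mul_le_mul_of_nonneg_left e4 (by positivity)
    calc 32 / 3 * log |a| * (|a| ^ (-δ) * exp (δ / 2) * (1 / 2) ^ (1 - u)) ≤
          32 / 3 * log |a| * (|a| ^ (-δ) * 1.7 * 1) := mul_le_mul_of_nonneg_left h4 (by positivity)
      _ = (32 / 3 * 1.7) * (log |a| * |a| ^ (-δ)) := by ring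
      _ ≤ 19 * (log |a| * |a| ^ (-δ)) := by
          apply mul_le_mul_of_nonneg_right _ (by positivity)
          norm_num
      _ = _ := by ring
  have e : 19 * log |a| * (|a| ^ (-δ) + N / a ^ 2) =
    19 * log |a| * |a| ^ (-δ) + 19 * log |a| * (N / a ^ 2) := by ring
  rw [e]
  linarith

/-- the lift of the map to the plane -/
noncomputable def PM (a : ℝ) (q : ℝ × ℝ) : ℝ × ℝ := (2 * q.1 - q.2 + a * sin (2 * π * q.1), q.1)

theorem PM_iter (a t s : ℝ) (k : ℕ) : (PM a)^[k] (t, s) = (X a s (k + 1) t, X a s k t) := by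
  induction k with
  | zero => rfl
  | succ k ih =>
    rw [iterate_succ_apply', ih]
    rfl

theorem PM_diff (a : ℝ) (k : ℕ) : Differentiable ℝ ((PM a)^[k]) := by
  apply Differentiable.iterate
  unfold PM
  fun_prop

theorem norm_ge (a t s : ℝ) (k : ℕ) : |D a s (k + 1) t| ≤ ‖fderiv ℝ ((PM a)^[k]) (t, s)‖ := by
  have h1 : HasDerivAt (fun u : ℝ => (u, s)) ((1:ℝ), (0:ℝ)) t :=
    (hasDerivAt_id t).prodMk (hasDerivAt_const t s)
  have h2 := ((PM_diff a k) (t, s)).hasFDerivAt.comp_hasDerivAt t h1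
  have h3 : HasDerivAt (fun u : ℝ => ((PM a)^[k] (u, s)).1)
      (fderiv ℝ ((PM a)^[k]) (t, s) (1, 0)).1 t := by
    have h4 := (ContinuousLinearMap.fst ℝ ℝ ℝ).hasFDerivAt.comp_hasDerivAt t h2
    exact h4
  have h5 : (fun u : ℝ => ((PM a)^[k] (u, s)).1) = X a s (k + 1) := by
    funext u
    rw [PM_iter]
  rw [h5] at h3
  have h6 := h3.unique (X_hasDeriv a s (k + 1) t)
  rw [← h6]
  have h7 := (fderiv ℝ ((PM a)^[k]) (t, s)).le_opNorm ((1:ℝ), (0:ℝ))
  have h8 : ‖((1:ℝ), (0:ℝ))‖ = 1 := by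
    rw [Prod.norm_def]
    simp
  rw [h8, mul_one] at h7
  refine le_trans ?_ h7
  rw [← Real.norm_eq_abs]
  exact norm_fst_le _

/-- the covering map restricted to a fundamental square preserves the measure -/
theorem cover_mp : MeasurePreserving
    (fun p : ℝ × ℝ => ((p.1 : UnitAddCircle), (p.2 : UnitAddCircle)))
    ((volume : Measure (ℝ × ℝ)).restrict (Ioc 0 1 ×ˢ Ioc 0 1)) (volume : Measure T2) := by
  have hmp := UnitAddCircle.measurePreserving_mk 0
  rw [zero_add] at hmp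
  have h1 := hmp.prod hmp
  rw [Measure.prod_restrict] at h1
  exact h1

theorem square_le (B : Set T2) :
    volume {p : ℝ × ℝ | p ∈ Ioc (0:ℝ) 1 ×ˢ Ioc (0:ℝ) 1 ∧
      ((p.1 : UnitAddCircle), (p.2 : UnitAddCircle)) ∈ B} ≤ volume B := by
  have h1 : volume {p : ℝ × ℝ | p ∈ Ioc (0:ℝ) 1 ×ˢ Ioc (0:ℝ) 1 ∧
      ((p.1 : UnitAddCircle), (p.2 : UnitAddCircle)) ∈ B} ≤
      volume.restrict (Ioc (0:ℝ) 1 ×ˢ Ioc (0:ℝ) 1)
        ((fun p : ℝ × ℝ => ((p.1 : UnitAddCircle), (p.2 : UnitAddCircle))) ⁻¹' B) := by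
    rw [Measure.restrict_apply' (measurableSet_Ioc.prod measurableSet_Ioc)]
    apply measure_mono
    rintro p ⟨h1, h2⟩
    exact ⟨h2, h1⟩
  refine h1.trans ?_
  calc _ ≤ volume.restrict (Ioc (0:ℝ) 1 ×ˢ Ioc (0:ℝ) 1)
        ((fun p : ℝ × ℝ => ((p.1 : UnitAddCircle), (p.2 : UnitAddCircle))) ⁻¹'
          (toMeasurable volume B)) := measure_mono (preimage_mono (subset_toMeasurable _ _))
    _ = volume (toMeasurable volume B) :=
        cover_mp.measure_preimage (measurableSet_toMeasurable _ _).nullMeasurableSet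
    _ = volume B := measure_toMeasurable _

end Pool.Agent.L7h48.SM
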