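import Pool.Agent.Y332.SM.Fin

set_option autoImplicit false

/-!
# The standard map: measure of the places where two consecutive derivatives have a small product
-/

namespace Pool.Agent.L7h48.SM

open Real MeasureTheory Function Set Filter Topology
open Pool.Agent.TH705.SM Pool.Agent.Y332.SM
open scoped ENNReal

/-- on a piece where `|sin 2πy - u| ≤ η` with `u` small, the diameter is at most `0.87 η` -/
theorem piece_diam {u η : ℝ} (hu : |u| ≤ 0.08) (hη0 : 0 ≤ η) (hη : η ≤ 1 / 2) {y z : ℝ}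
    (hy : |y| ≤ 1 / 4) (hz : |z| ≤ 1 / 4) (hy1 : |sin (2 * π * y) - u| ≤ η)
    (hz1 : |sin (2 * π * z) - u| ≤ η) : |y - z| ≤ 0.87 * η := by
  have hpi := pi_pos
  have hpi4 := pi_lt_d2
  have key : ∀ w : ℝ, |w| ≤ 1 / 4 → |sin (2 * π * w) - u| ≤ η → |w| ≤ 0.145 := by
    intro w hw hw1
    have h4 : |2 * π * w| ≤ π / 2 := by
      rw [abs_mul, abs_of_pos (by positivity : 0 < 2 * π)]
      nlinarith
    have h5 := mul_abs_le_abs_sin h4
    rw [abs_mul, abs_of_pos (by positivity : 0 < 2 * π)] at h5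
    have h7 : 4 * |w| ≤ |sin (2 * π * w)| := by
      have e : 2 / π * (2 * π * |w|) = 4 * |w| := by
        field_simp
        ring
      rw [← e]
      exact h5
    have h8 := abs_sub_abs_le_abs_sub (sin (2 * π * w)) u
    linarith
  have hy2 := key y hy hy1
  have hz2 := key z hz hz1
  have h1 : sin (2 * π * y) - sin (2 * π * z) =
      2 * sin (π * (y - z)) * cos (π * (y + z)) := by
    rw [sin_sub_sin]
    congr 2 <;> ring_nf
  have h2 : |sin (2 * π * y) - sin (2 * π * z)| ≤ 2 * η := by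
    have e : sin (2 * π * y) - sin (2 * π * z) =
      (sin (2 * π * y) - u) - (sin (2 * π * z) - u) := by ring
    rw [e]
    have := abs_sub (sin (2 * π * y) - u) (sin (2 * π * z) - u)
    linarith
  have h3 : 0.58 ≤ cos (π * (y + z)) := by
    have h4 := one_sub_sq_div_two_le_cos (x := π * (y + z))
    have h5 : |π * (y + z)| ≤ 0.9135 := by
      rw [abs_mul, abs_of_pos hpi]
      have h6 := abs_add_le y z
      have h7 : |y + z| ≤ 0.29 := by linarith
      nlinarith [abs_nonneg (y + z)]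
    have h6 : (π * (y + z)) ^ 2 ≤ 0.9135 ^ 2 := by
      rw [← sq_abs]
      exact pow_le_pow_left₀ (abs_nonneg _) h5 2
    norm_num at h6
    linarith
  have h4 : 2 * |y - z| ≤ |sin (π * (y - z))| := by
    have h5 : |π * (y - z)| ≤ π / 2 := by
      rw [abs_mul, abs_of_pos hpi]
      have h6 := abs_sub y z
      have h7 : |y - z| ≤ 1 / 2 := by linarith
      nlinarith
    have h6 := mul_abs_le_abs_sin h5
    rw [abs_mul, abs_of_pos hpi] at h6
    have e : 2 / π * (π * |y - z|) = 2 * |y - z| := by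
      field_simp
    rw [← e]
    exact h6
  rw [h1, abs_mul, abs_mul, abs_of_pos (by norm_num : (0:ℝ) < 2),
    abs_of_pos (by linarith : 0 < cos (π * (y + z)))] at h2
  have h5 : 0 ≤ |y - z| := abs_nonneg _
  have h6 : 2 * (2 * |y - z|) * 0.58 ≤ 2 * |sin (π * (y - z))| * cos (π * (y + z)) := by
    apply mul_le_mul _ h3 (by norm_num) (by positivity)
    linarith
  nlinarith

theorem piece_vol {u η : ℝ} (hu : |u| ≤ 0.08) (hη0 : 0 ≤ η) (hη : η ≤ 1 / 2) (c : ℝ) :
    volume {x : ℝ | |x - c| ≤ 1 / 4 ∧ |sin (2 * π * (x - c)) - u| ≤ η} ≤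
      ENNReal.ofReal (0.87 * η) := by
  refine (Real.volume_le_diam _).trans ?_
  apply Metric.ediam_le
  rintro x ⟨hx1, hx2⟩ y ⟨hy1, hy2⟩
  rw [edist_dist, Real.dist_eq]
  apply ENNReal.ofReal_le_ofReal
  have := piece_diam hu hη0 hη hx1 hy1 hx2 hy2
  have e : x - c - (y - c) = x - y := by ring
  rwa [e] at this

/-- the measure of the set of small values of the derivative, linear down to zero -/
theorem vol_lin {a : ℝ} (ha : 4 ≤ |a|) {k : ℝ} (hk : 0 ≤ k) :
    volume {x : UnitAddCircle | |Lc a x| ≤ k} ≤ ENNReal.ofReal (k / (3 * |a|)) := by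
  have hpi := pi_pos
  have hpi3 := pi_gt_d2
  have hpi4 := pi_lt_d2
  have ha0 : 0 < |a| := by linarith
  have ha1 : a ≠ 0 := abs_pos.1 ha0
  set η : ℝ := k / (2 * π * |a|) with hη
  have hη0 : 0 ≤ η := by positivity
  have hk2 : k = 2 * π * |a| * η := by
    rw [hη]
    field_simp
  rcases le_or_gt η (1 / 2) with hη1 | hη1
  · set u : ℝ := 1 / (π * a) with hu
    have hu1 : |u| ≤ 0.08 := by
      rw [hu, abs_div, abs_one, abs_mul, abs_of_pos hpi, div_le_iff₀ (by positivity)]
      nlinarith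
    set A : Set ℝ := {x : ℝ | |x - 1 / 4| ≤ 1 / 4 ∧ |sin (2 * π * (x - 1 / 4)) - u| ≤ η} with hA
    set B : Set ℝ := {x : ℝ | |x - 3 / 4| ≤ 1 / 4 ∧ |sin (2 * π * (x - 3 / 4)) - (-u)| ≤ η} with hB
    have hvol : volume (A ∪ B) ≤ ENNReal.ofReal (1.74 * η) := by
      refine (measure_union_le _ _).trans ?_
      have h1 := piece_vol hu1 hη0 hη1 (1 / 4)
      have h2 := piece_vol (u := -u) (by rwa [abs_neg]) hη0 hη1 (3 / 4)
      refine (add_le_add h1 h2).trans ?_
      rw [← ENNReal.ofReal_add (by positivity) (by positivity)]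
      apply ENNReal.ofReal_le_ofReal
      linarith
    have hmeas : MeasurableSet {x : UnitAddCircle | |Lc a x| ≤ k} :=
      (isClosed_le (Lc_cont a).abs continuous_const).measurableSet
    have hmp := UnitAddCircle.measurePreserving_mk 0
    rw [← hmp.measure_preimage hmeas.nullMeasurableSet, Measure.restrict_apply
      (hmp.measurable hmeas)]
    refine (measure_mono ?_).trans (hvol.trans (ENNReal.ofReal_le_ofReal ?_))
    · rintro x ⟨hx, hx1, hx2⟩
      rw [zero_add] at hx2
      have hx' : |Lc a (x : UnitAddCircle)| ≤ k := hx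
      rw [Lc_coe] at hx'
      have h3 : |cos (2 * π * x) + u| ≤ η := by
        rw [hη, le_div_iff₀ (by positivity)]
        have h3 : |cos (2 * π * x) + u| * (2 * π * |a|) = |L a x| := by
          have e : L a x = (cos (2 * π * x) + u) * (2 * π * a) := by
            unfold L
            rw [hu]
            field_simp
            ring
          rw [e, abs_mul, abs_mul, abs_of_pos (by positivity : 0 < 2 * π)]
        rw [h3]
        exact hx'
      rcases le_total x (1 / 2) with hx2' | hx2'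
      · left
        refine ⟨by rw [abs_le]; constructor <;> linarith, ?_⟩
        have h6 : sin (2 * π * (x - 1 / 4)) = -cos (2 * π * x) := by
          have : 2 * π * (x - 1 / 4) = 2 * π * x - π / 2 := by ring
          rw [this, sin_sub_pi_div_two]
        rw [h6, ← abs_neg]
        have : -(-cos (2 * π * x) - u) = cos (2 * π * x) + u := by ring
        rw [this]
        exact h3
      · right
        refine ⟨by rw [abs_le]; constructor <;> linarith, ?_⟩
        have h6 : sin (2 * π * (x - 3 / 4)) = cos (2 * π * x) := by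
          have : 2 * π * (x - 3 / 4) = 2 * π * x + π / 2 - 2 * π := by ring
          rw [this, sin_sub_two_pi, sin_add_pi_div_two]
        rw [h6]
        have : cos (2 * π * x) - -u = cos (2 * π * x) + u := by ring
        rw [this]
        exact h3
    · rw [hη, le_div_iff₀ (by positivity)]
      have e : 1.74 * (k / (2 * π * |a|)) * (3 * |a|) = k * (2.61 / π) := by
        field_simp
        ring
      rw [e]
      have : 2.61 / π ≤ 1 := by
        rw [div_le_one hpi]
        linarith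
      nlinarith
  · refine prob_le_one.trans ?_
    rw [← ENNReal.ofReal_one]
    apply ENNReal.ofReal_le_ofReal
    rw [le_div_iff₀ (by positivity)]
    rw [hk2]
    have h1 : 2 * π * |a| * (1 / 2) ≤ 2 * π * |a| * η :=
      mul_le_mul_of_nonneg_left hη1.le (by positivity)
    nlinarith

theorem Lc_meas_le (a k : ℝ) : MeasurableSet {x : UnitAddCircle | |Lc a x| ≤ k} :=
  (isClosed_le (Lc_cont a).abs continuous_const).measurableSet

/-- two consecutive derivatives are independent -/
theorem vol_pair {a : ℝ} (ha : 4 ≤ |a|) {α β : ℝ} (hα : 0 ≤ α) (hβ : 0 ≤ β) :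
    volume {p : T2 | |Lc a p.1| ≤ α ∧ |Lc a p.2| ≤ β} ≤ ENNReal.ofReal (α * β / (9 * a ^ 2)) := by
  have ha0 : 0 < |a| := by linarith
  have h1 : {p : T2 | |Lc a p.1| ≤ α ∧ |Lc a p.2| ≤ β} =
      {x : UnitAddCircle | |Lc a x| ≤ α} ×ˢ {x : UnitAddCircle | |Lc a x| ≤ β} := rfl
  rw [h1, vol_T2, Measure.prod_prod]
  refine (mul_le_mul' (vol_lin ha hα) (vol_lin ha hβ)).trans ?_
  rw [← ENNReal.ofReal_mul (by positivity)]
  apply ENNReal.ofReal_le_ofReal
  rw [← sq_abs a]
  apply le_of_eq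
  field_simp
  ring

theorem Lc_le {a : ℝ} (ha : 4 ≤ |a|) (x : UnitAddCircle) : |Lc a x| ≤ 8 * |a| := by
  induction x using QuotientAddGroup.induction_on with
  | H x =>
    have h1 := Lc_coe a x
    have h2 : Lc a ((x : ℝ) : UnitAddCircle) = L a x := h1
    have hpi4 := pi_lt_d2
    have hpi := pi_pos
    have h3 : |L a x| ≤ 8 * |a| := by
      unfold L
      refine (abs_add_le _ _).trans ?_
      rw [abs_mul, abs_mul, abs_of_pos (by positivity : 0 < 2 * π),
        abs_of_pos (by norm_num : (0:ℝ) < 2)]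
      have h4 := abs_cos_le_one (2 * π * x)
      have h5 : 2 * π * |a| * |cos (2 * π * x)| ≤ 2 * π * |a| :=
        mul_le_of_le_one_right (by positivity) h4
      nlinarith
    rw [← h2] at h3
    exact h3

/-- dyadic levels -/
theorem dyadic {Λ w : ℝ} (hw : w ≤ Λ) {N : ℕ} (hN : Λ / 2 ^ N < w) :
    ∃ i < N, Λ / 2 ^ (i + 1) < w ∧ w ≤ Λ / 2 ^ i := by
  induction N with
  | zero =>
    rw [pow_zero, div_one] at hN
    exact absurd hN (not_lt.2 hw)
  | succ N ih =>
    rcases lt_or_ge (Λ / 2 ^ N) w with h | h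
    · obtain ⟨i, hi, h1, h2⟩ := ih h
      exact ⟨i, hi.trans (Nat.lt_succ_self N), h1, h2⟩
    · exact ⟨N, Nat.lt_succ_self N, hN, h⟩

/-- the measure of the set where the product of two consecutive derivatives is small -/
theorem vol_prod {a : ℝ} (ha : 4 ≤ |a|) {B : ℝ} (hB : 0 ≤ B) :
    volume {p : T2 | |Lc a p.1| * |Lc a p.2| < B} ≤
      ENNReal.ofReal ((8 + 2 * B / 9 * (1 + 3 * log |a|)) / a ^ 2) := by
  have ha0 : 0 < |a| := by linarith
  have hla : 0 < log |a| := Real.log_pos (by linarith)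
  have hl2 : 0 < log 2 := Real.log_pos (by norm_num)
  have hl2' := Real.log_two_gt_d9
  set N : ℕ := ⌈2 * log |a| / log 2⌉₊ with hN
  have hN1 : 2 * log |a| / log 2 ≤ N := Nat.le_ceil _
  have hN2 : (N:ℝ) < 2 * log |a| / log 2 + 1 := Nat.ceil_lt_add_one (by positivity)
  have hN3 : a ^ 2 ≤ 2 ^ N := by
    rw [← sq_abs, ← Real.log_le_log_iff (by positivity) (by positivity), Real.log_pow,
      Real.log_pow]
    rw [div_le_iff₀ hl2] at hN1
    push_cast
    exact hN1
  have hN4 : (N:ℝ) ≤ 1 + 3 * log |a| := by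
    have h1 : 2 * log |a| / log 2 ≤ 3 * log |a| := by
      rw [div_le_iff₀ hl2]
      nlinarith
    linarith
  set Λ : ℝ := 8 * |a| with hΛ
  have hΛ0 : 0 < Λ := by positivity
  have hsub : {p : T2 | |Lc a p.1| * |Lc a p.2| < B} ⊆
      {p : T2 | |Lc a p.1| ≤ Λ / 2 ^ N ∧ |Lc a p.2| ≤ Λ} ∪
      ⋃ i ∈ Finset.range N, {p : T2 | |Lc a p.1| ≤ Λ / 2 ^ i ∧
        |Lc a p.2| ≤ B * 2 ^ (i + 1) / Λ} := by
    intro p hp
    rw [Set.mem_ofPred_eq] at hp
    rcases le_or_gt (|Lc a p.1|) (Λ / 2 ^ N) with h | h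
    · exact Or.inl ⟨h, Lc_le ha _⟩
    · right
      obtain ⟨i, hi, h1, h2⟩ := dyadic (Lc_le ha p.1) h
      simp only [mem_iUnion]
      refine ⟨i, Finset.mem_range.2 hi, h2, ?_⟩
      have h3 : 0 < Λ / 2 ^ (i + 1) := by positivity
      have h4 : Λ / 2 ^ (i + 1) * |Lc a p.2| ≤ B :=
        (mul_le_mul_of_nonneg_right h1.le (abs_nonneg _)).trans hp.le
      rw [le_div_iff₀ hΛ0]
      rw [div_mul_eq_mul_div, div_le_iff₀ (by positivity)] at h4
      linarith
  refine (measure_mono hsub).trans ((measure_union_le _ _).trans ?_)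
  refine (add_le_add (vol_pair ha (by positivity) hΛ0.le)
    (measure_biUnion_finset_le _ _)).trans ?_
  have h5 : ∀ i ∈ Finset.range N, volume {p : T2 | |Lc a p.1| ≤ Λ / 2 ^ i ∧
        |Lc a p.2| ≤ B * 2 ^ (i + 1) / Λ} ≤ ENNReal.ofReal (2 * B / (9 * a ^ 2)) := by
    intro i _
    refine (vol_pair ha (by positivity) (by positivity)).trans (ENNReal.ofReal_le_ofReal ?_)
    apply div_le_div_of_nonneg_right _ (by positivity)
    apply le_of_eq
    rw [pow_succ]
    field_simp
  refine (add_le_add le_rfl (Finset.sum_le_sum h5)).trans ?_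
  rw [Finset.sum_const, Finset.card_range, nsmul_eq_mul, ← ENNReal.ofReal_natCast,
    ← ENNReal.ofReal_mul (by positivity), ← ENNReal.ofReal_add (by positivity) (by positivity)]
  apply ENNReal.ofReal_le_ofReal
  have hapos : 0 < a ^ 2 := by rw [← sq_abs]; positivity
  have h6 : Λ / 2 ^ N * Λ / (9 * a ^ 2) ≤ 8 / a ^ 2 := by
    have e : Λ / 2 ^ N * Λ / (9 * a ^ 2) = 64 / 9 * (|a| ^ 2 / a ^ 2) / 2 ^ N := by
      rw [hΛ]
      ring
    rw [e, sq_abs, div_self hapos.ne', mul_one]
    apply div_le_div₀ (by norm_num) (by norm_num) hapos hN3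
  have h7 : (N:ℝ) * (2 * B / (9 * a ^ 2)) ≤ (1 + 3 * log |a|) * (2 * B / (9 * a ^ 2)) :=
    mul_le_mul_of_nonneg_right hN4 (by positivity)
  have h8 : (8 + 2 * B / 9 * (1 + 3 * log |a|)) / a ^ 2 =
      8 / a ^ 2 + (1 + 3 * log |a|) * (2 * B / (9 * a ^ 2)) := by
    field_simp
  rw [h8]
  linarith

end Pool.Agent.L7h48.SM
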