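import Pool.Agent.L7h48.SM.CrossA

set_option autoImplicit false

/-!
# The product of the derivatives along an orbit is rarely small
-/

namespace Pool.Agent.L7h48.SM

open Real MeasureTheory Function Set Filter Topology
open Pool.Agent.TH705.SM Pool.Agent.Y332.SM
open scoped ENNReal

/-- the level sets of the derivative, on the circle -/
def lev (a : ℝ) (i : ℕ) : Set UnitAddCircle := {x | |Lc a x| ≤ 8 * |a| / 2 ^ i}

/-- a majorant of `(4 |a| / |L|) ^ s` -/
noncomputable def Zf (a s : ℝ) (x : UnitAddCircle) : ℝ≥0∞ :=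
  ∑' i : ℕ, ENNReal.ofReal (((2:ℝ) ^ s) ^ i) * (lev a i).indicator (1 : UnitAddCircle → ℝ≥0∞) x

theorem lev_meas (a : ℝ) (i : ℕ) : MeasurableSet (lev a i) := Lc_meas_le a _

theorem Zf_meas (a s : ℝ) : Measurable (Zf a s) := by
  unfold Zf
  apply Measurable.tsum
  intro i
  exact (measurable_one.indicator (lev_meas a i)).const_mul _

theorem Zf_ge {a s : ℝ} (ha : 4 ≤ |a|) (hs : 0 ≤ s) {x : UnitAddCircle} (hx : Lc a x ≠ 0) :
    ENNReal.ofReal ((4 * |a| / |Lc a x|) ^ s) ≤ Zf a s x := by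
  have ha0 : 0 < |a| := by linarith
  have hw : 0 < |Lc a x| := abs_pos.2 hx
  have hΛ : 0 < 8 * |a| := by positivity
  obtain ⟨N, hN⟩ : ∃ N : ℕ, 8 * |a| / 2 ^ N < |Lc a x| := by
    obtain ⟨N, hN⟩ := pow_unbounded_of_one_lt (8 * |a| / |Lc a x|) (by norm_num : (1:ℝ) < 2)
    refine ⟨N, ?_⟩
    rw [div_lt_iff₀ hw] at hN
    rw [div_lt_iff₀ (by positivity)]
    linarith
  obtain ⟨i, _, h1, h2⟩ := dyadic (Lc_le ha x) hN
  refine le_trans ?_ (ENNReal.le_tsum i)
  have h3 : x ∈ lev a i := h2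
  rw [Set.indicator_of_mem h3, Pi.one_apply, mul_one]
  apply ENNReal.ofReal_le_ofReal
  have h4 : 4 * |a| / |Lc a x| ≤ 2 ^ i := by
    rw [div_le_iff₀ hw]
    rw [div_lt_iff₀ (by positivity), pow_succ] at h1
    nlinarith
  calc (4 * |a| / |Lc a x|) ^ s ≤ ((2:ℝ) ^ i) ^ s :=
        Real.rpow_le_rpow (by positivity) h4 hs
    _ = ((2:ℝ) ^ s) ^ i := by
        rw [← Real.rpow_natCast, ← Real.rpow_natCast, ← Real.rpow_mul (by norm_num),
          ← Real.rpow_mul (by norm_num), mul_comm]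

theorem two_rpow_le {t : ℝ} (h0 : 0 ≤ t) (h1 : t ≤ 1) : (2:ℝ) ^ (-t) ≤ 1 - t / 2 := by
  have h := rpow_one_add_le_one_add_mul_self (s := -(1/2)) (by norm_num) h0 h1
  have e : (2:ℝ) ^ (-t) = (1 + -(1/2)) ^ t := by
    rw [Real.rpow_neg (by norm_num), ← Real.inv_rpow (by norm_num)]
    norm_num
  rw [e]
  linarith

theorem Zf_int {a s : ℝ} (ha : 4 ≤ |a|) (hs : 0 ≤ s) (hs1 : s < 1) :
    ∫⁻ x, Zf a s x ≤ ENNReal.ofReal (16 / 3 / (1 - s)) := by
  have ha0 : 0 < |a| := by linarith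
  unfold Zf
  rw [lintegral_tsum (fun i => ((measurable_one.indicator (lev_meas a i)).const_mul _).aemeasurable)]
  set q : ℝ := (2:ℝ) ^ s / 2 with hq
  have hq0 : 0 < q := by positivity
  have hqe : q = (2:ℝ) ^ (-(1 - s)) := by
    rw [hq, neg_sub, Real.rpow_sub (by norm_num), Real.rpow_one]
  have hq1 : q ≤ 1 - (1 - s) / 2 := by
    rw [hqe]
    exact two_rpow_le (by linarith) (by linarith)
  have hq2 : q < 1 := by linarith
  have h1 : ∀ i : ℕ, ∫⁻ x, ENNReal.ofReal (((2:ℝ) ^ s) ^ i) *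
      (lev a i).indicator (1 : UnitAddCircle → ℝ≥0∞) x ≤ ENNReal.ofReal (8 / 3 * q ^ i) := by
    intro i
    rw [lintegral_const_mul _ (measurable_one.indicator (lev_meas a i)),
      lintegral_indicator_one (lev_meas a i)]
    refine (mul_le_mul' le_rfl (vol_lin ha (by positivity : (0:ℝ) ≤ 8 * |a| / 2 ^ i))).trans ?_
    rw [← ENNReal.ofReal_mul (by positivity)]
    apply ENNReal.ofReal_le_ofReal
    apply le_of_eq
    rw [hq, div_pow]
    field_simp
  refine (ENNReal.tsum_le_tsum h1).trans ?_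
  have h2 : Summable (fun i : ℕ => 8 / 3 * q ^ i) :=
    (summable_geometric_of_lt_one hq0.le hq2).mul_left _
  rw [← ENNReal.ofReal_tsum_of_nonneg (fun i => by positivity) h2, tsum_mul_left,
    tsum_geometric_of_lt_one hq0.le hq2]
  apply ENNReal.ofReal_le_ofReal
  have h3 : 0 < 1 - s := by linarith
  have h4 : (1 - q)⁻¹ ≤ ((1 - s) / 2)⁻¹ := inv_anti₀ (by linarith) (by linarith)
  calc 8 / 3 * (1 - q)⁻¹ ≤ 8 / 3 * ((1 - s) / 2)⁻¹ := by
        apply mul_le_mul_of_nonneg_left h4 (by norm_num)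
    _ = 16 / 3 / (1 - s) := by
        rw [inv_div]
        ring

/-- the points where the product of the first `n` derivatives is small -/
def bdQ (a s Q : ℝ) (n : ℕ) : Set T2 :=
  {p | (n : ℝ≥0∞) * ENNReal.ofReal ((4 * |a| / Q) ^ s) ≤
    ∑ k ∈ Finset.range n, Zf a s (((S a)^[k] p).1)}

theorem vol_bdQ {a s Q : ℝ} (ha : 4 ≤ |a|) (hs : 0 ≤ s) (hs1 : s < 1) (hQ : 0 < Q) {n : ℕ}
    (hn : 1 ≤ n) :
    volume (bdQ a s Q n) ≤ ENNReal.ofReal (16 / 3 / (1 - s) * (Q / (4 * |a|)) ^ s) := by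
  have ha0 : 0 < |a| := by linarith
  have hs2 : 0 < 1 - s := by linarith
  set c : ℝ := (4 * |a| / Q) ^ s with hc
  have hc0 : 0 < c := by positivity
  have hmeas : ∀ k, Measurable (fun p : T2 => Zf a s (((S a)^[k] p).1)) := fun k =>
    (Zf_meas a s).comp (measurable_fst.comp ((S_cont a).iterate k).measurable)
  have h1 : ((n : ℝ≥0∞) * ENNReal.ofReal c) * volume (bdQ a s Q n) ≤
      ∫⁻ p : T2, ∑ k ∈ Finset.range n, Zf a s (((S a)^[k] p).1) := by
    apply mul_meas_ge_le_lintegral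
    exact Finset.measurable_sum _ fun k _ => hmeas k
  rw [lintegral_finsetSum _ fun k _ => hmeas k] at h1
  have h2 : ∀ k, ∫⁻ p : T2, Zf a s (((S a)^[k] p).1) = ∫⁻ x, Zf a s x := by
    intro k
    have h7 : MeasurePreserving (Prod.fst : T2 → UnitAddCircle)
        ((volume : Measure UnitAddCircle).prod volume) volume := measurePreserving_fst
    have h8 : MeasurePreserving (fun p : T2 => ((S a)^[k] p).1) volume volume :=
      h7.comp (iter_mp a k)
    exact h8.lintegral_comp (Zf_meas a s)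
  simp only [h2, Finset.sum_const, Finset.card_range, nsmul_eq_mul] at h1
  have h3 := h1.trans (mul_le_mul' le_rfl (Zf_int ha hs hs1))
  rw [mul_assoc] at h3
  have hn0 : (n:ℝ≥0∞) ≠ 0 := by
    simp only [ne_eq, Nat.cast_eq_zero]
    omega
  rw [ENNReal.mul_le_mul_iff_right hn0 (ENNReal.natCast_ne_top n)] at h3
  have hce : ENNReal.ofReal c ≠ 0 := (ENNReal.ofReal_pos.2 hc0).ne'
  have h4 : volume (bdQ a s Q n) ≤ ENNReal.ofReal (16 / 3 / (1 - s)) / ENNReal.ofReal c := by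
    rw [ENNReal.le_div_iff_mul_le (Or.inl hce) (Or.inl ENNReal.ofReal_ne_top), mul_comm]
    exact h3
  refine h4.trans ?_
  rw [← ENNReal.ofReal_div_of_pos hc0]
  apply ENNReal.ofReal_le_ofReal
  apply le_of_eq
  rw [div_eq_mul_inv _ c, hc, ← Real.inv_rpow (by positivity), inv_div]

theorem prod_ge {a s Q : ℝ} (ha : 4 ≤ |a|) (hs : 0 < s) (hQ : 0 < Q) {n : ℕ} (hn : 1 ≤ n)
    {p : T2} (hne : ∀ k < n, Lc a (((S a)^[k] p).1) ≠ 0) (hp : p ∉ bdQ a s Q n) :
    Q ^ n ≤ ∏ k ∈ Finset.range n, |Lc a (((S a)^[k] p).1)| := by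
  have ha0 : 0 < |a| := by linarith
  have hn0 : (0:ℝ) < n := by exact_mod_cast hn
  set w : ℕ → ℝ := fun k => |Lc a (((S a)^[k] p).1)| with hw
  have hw0 : ∀ k < n, 0 < w k := fun k hk => abs_pos.2 (hne k hk)
  unfold bdQ at hp
  rw [Set.mem_ofPred_eq, not_le] at hp
  set c : ℝ := (4 * |a| / Q) ^ s with hc
  have hc0 : 0 < c := by positivity
  have h1 : ∑ k ∈ Finset.range n, (4 * |a| / w k) ^ s < n * c := by
    have h2 : ENNReal.ofReal (∑ k ∈ Finset.range n, (4 * |a| / w k) ^ s) <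
        ENNReal.ofReal (n * c) := by
      rw [ENNReal.ofReal_sum_of_nonneg, ENNReal.ofReal_mul hn0.le, ENNReal.ofReal_natCast]
      · refine lt_of_le_of_lt (Finset.sum_le_sum fun k hk => ?_) hp
        exact Zf_ge ha hs.le (hne k (Finset.mem_range.1 hk))
      · intro k hk
        have := hw0 k (Finset.mem_range.1 hk)
        positivity
    exact (ENNReal.ofReal_lt_ofReal_iff (by positivity)).1 h2
  have h2 := Real.geom_mean_le_arith_mean_weighted (Finset.range n) (fun _ => 1 / (n:ℝ))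
    (fun k => (4 * |a| / w k) ^ s) (fun k _ => by positivity)
    (by rw [Finset.sum_const, Finset.card_range, nsmul_eq_mul]; field_simp)
    (fun k hk => by
      have := hw0 k (Finset.mem_range.1 hk)
      positivity)
  rw [← Finset.mul_sum] at h2
  have h3 : 1 / (n:ℝ) * ∑ k ∈ Finset.range n, (4 * |a| / w k) ^ s < c := by
    rw [div_mul_eq_mul_div, one_mul, div_lt_iff₀ hn0]
    linarith
  have h4 : ∏ k ∈ Finset.range n, ((4 * |a| / w k) ^ s) ^ (1 / (n:ℝ)) =
      (∏ k ∈ Finset.range n, (4 * |a| / w k)) ^ (s / n) := by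
    rw [← Real.finsetProd_rpow]
    · refine Finset.prod_congr rfl fun k hk => ?_
      have := hw0 k (Finset.mem_range.1 hk)
      rw [← Real.rpow_mul (by positivity)]
      congr 1
      ring
    · intro k hk
      have := hw0 k (Finset.mem_range.1 hk)
      positivity
  rw [h4] at h2
  have h5 := h2.trans_lt h3
  have hprod0 : 0 < ∏ k ∈ Finset.range n, (4 * |a| / w k) := by
    refine Finset.prod_pos fun k hk => ?_
    have := hw0 k (Finset.mem_range.1 hk)
    positivity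
  have h6 : c = ((4 * |a| / Q) ^ n) ^ (s / n) := by
    rw [hc, ← Real.rpow_natCast, ← Real.rpow_mul (by positivity)]
    congr 1
    field_simp
  rw [h6] at h5
  have h7 : ∏ k ∈ Finset.range n, (4 * |a| / w k) < (4 * |a| / Q) ^ n :=
    (Real.rpow_lt_rpow_iff hprod0.le (by positivity) (by positivity)).1 h5
  have h8 : ∏ k ∈ Finset.range n, (4 * |a| / w k) = (4 * |a|) ^ n / ∏ k ∈ Finset.range n, w k := by
    rw [Finset.prod_div_distrib, Finset.prod_const, Finset.card_range]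
  have hW0 : 0 < ∏ k ∈ Finset.range n, w k := Finset.prod_pos fun k hk =>
    hw0 k (Finset.mem_range.1 hk)
  rw [h8, div_pow, div_lt_div_iff₀ hW0 (by positivity)] at h7
  exact (lt_of_mul_lt_mul_left h7 (by positivity)).le

end Pool.Agent.L7h48.SM
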