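import Mathlib
import Pool.Agent.TH705.SM.Chain

set_option autoImplicit false

/-!
# Shadowing for the standard map when the linearised equation is diagonally dominant for some weights
-/

namespace Pool.Agent.L7h48.SM

open Real Function Set Filter Topology
open Pool.Agent.TH705.SM

/-- the nonlinear part of `a sin 2πx` at `u` -/
noncomputable def Qn (a u ξ : ℝ) : ℝ :=
  a * sin (2 * π * (u + ξ)) - a * sin (2 * π * u) - 2 * π * a * cos (2 * π * u) * ξ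

theorem Qn_zero (a u : ℝ) : Qn a u 0 = 0 := by
  unfold Qn
  simp

theorem Qn_deriv (a u x : ℝ) :
    HasDerivAt (Qn a u) (2 * π * a * (cos (2 * π * (u + x)) - cos (2 * π * u))) x := by
  have h1 : HasDerivAt (fun ξ : ℝ => 2 * π * (u + ξ)) (2 * π) x := by
    have h := ((hasDerivAt_id x).const_add u).const_mul (2 * π)
    simpa using h
  have h2 := (h1.sin.const_mul a).sub_const (a * sin (2 * π * u))
  have h3 : HasDerivAt (fun ξ : ℝ => 2 * π * a * cos (2 * π * u) * ξ)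
      (2 * π * a * cos (2 * π * u)) x := by
    have h := (hasDerivAt_id x).const_mul (2 * π * a * cos (2 * π * u))
    simpa using h
  have h4 := h2.sub h3
  refine h4.congr_deriv ?_
  ring

theorem Qn_cont (a u : ℝ) : Continuous (Qn a u) := by
  unfold Qn
  fun_prop

theorem Qn_lip {a u ρ ξ ξ' : ℝ} (h : |ξ| ≤ ρ) (h' : |ξ'| ≤ ρ) :
    |Qn a u ξ - Qn a u ξ'| ≤ 4 * π ^ 2 * |a| * ρ * |ξ - ξ'| := by
  have hpi := pi_pos
  have hb : ∀ x ∈ Icc (-ρ) ρ,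
      ‖2 * π * a * (cos (2 * π * (u + x)) - cos (2 * π * u))‖ ≤ 4 * π ^ 2 * |a| * ρ := by
    intro x hx
    have hx' : |x| ≤ ρ := abs_le.2 hx
    rw [norm_eq_abs, abs_mul, abs_mul, abs_of_pos (by positivity : 0 < 2 * π)]
    have h1 := abs_cos_sub_cos_le (2 * π * (u + x)) (2 * π * u)
    have e : 2 * π * (u + x) - 2 * π * u = 2 * π * x := by ring
    rw [e, abs_mul, abs_of_pos (by positivity : 0 < 2 * π)] at h1
    calc 2 * π * |a| * |cos (2 * π * (u + x)) - cos (2 * π * u)| ≤ 2 * π * |a| * (2 * π * |x|) :=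
          mul_le_mul_of_nonneg_left h1 (by positivity)
      _ = 4 * π ^ 2 * |a| * |x| := by ring
      _ ≤ _ := mul_le_mul_of_nonneg_left hx' (by positivity)
  have := (convex_Icc (-ρ) ρ).norm_image_sub_le_of_norm_hasDerivWithin_le (f := Qn a u)
    (f' := fun x => 2 * π * a * (cos (2 * π * (u + x)) - cos (2 * π * u)))
    (fun x _ => (Qn_deriv a u x).hasDerivWithinAt) hb (abs_le.1 h') (abs_le.1 h)
  simpa [norm_eq_abs] using this

/-- the iteration -/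
noncomputable def Zi (a : ℝ) (u r : ℤ → ℝ) : ℕ → ℤ → ℝ
  | 0 => fun _ => 0
  | m + 1 => fun k => (r k + Zi a u r m (k + 1) + Zi a u r m (k - 1) - Qn a (u k) (Zi a u r m k)) /
      L a (u k)

theorem Zi_succ (a : ℝ) (u r : ℤ → ℝ) (m : ℕ) (k : ℤ) : Zi a u r (m + 1) k =
    (r k + Zi a u r m (k + 1) + Zi a u r m (k - 1) - Qn a (u k) (Zi a u r m k)) / L a (u k) := rfl

section

variable {a : ℝ} {u r ρ : ℤ → ℝ}

theorem L_pos_of (hρ : ∀ k, 0 < ρ k)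
    (h1 : ∀ k, 4 * (ρ (k + 1) + ρ (k - 1) + |r k|) ≤ |L a (u k)| * ρ k) (k : ℤ) :
    0 < |L a (u k)| := by
  have h := h1 k
  have h2 := hρ k
  have h3 := hρ (k + 1)
  have h4 := hρ (k - 1)
  have h5 := abs_nonneg (r k)
  by_contra hcon
  have h6 : |L a (u k)| = 0 := le_antisymm (not_lt.1 hcon) (abs_nonneg _)
  rw [h6, zero_mul] at h
  linarith

/-- contraction in the weighted norm -/
theorem contr (hρ : ∀ k, 0 < ρ k)
    (h1 : ∀ k, 4 * (ρ (k + 1) + ρ (k - 1) + |r k|) ≤ |L a (u k)| * ρ k)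
    (h2 : ∀ k, 16 * π ^ 2 * |a| * ρ k ≤ |L a (u k)|) {ξ ξ' : ℤ → ℝ} {θ : ℝ} (hθ : 0 ≤ θ)
    (hξ : ∀ k, |ξ k| ≤ ρ k) (hξ' : ∀ k, |ξ' k| ≤ ρ k) (hd : ∀ k, |ξ k - ξ' k| ≤ θ * ρ k) (k : ℤ) :
    |(r k + ξ (k + 1) + ξ (k - 1) - Qn a (u k) (ξ k)) / L a (u k) -
      (r k + ξ' (k + 1) + ξ' (k - 1) - Qn a (u k) (ξ' k)) / L a (u k)| ≤ θ / 2 * ρ k := by
  have hL := L_pos_of hρ h1 k
  rw [← sub_div, abs_div, div_le_iff₀ hL]
  have e : r k + ξ (k + 1) + ξ (k - 1) - Qn a (u k) (ξ k) -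
      (r k + ξ' (k + 1) + ξ' (k - 1) - Qn a (u k) (ξ' k)) =
      (ξ (k + 1) - ξ' (k + 1)) + (ξ (k - 1) - ξ' (k - 1)) -
        (Qn a (u k) (ξ k) - Qn a (u k) (ξ' k)) := by ring
  rw [e]
  have t1 := abs_sub ((ξ (k + 1) - ξ' (k + 1)) + (ξ (k - 1) - ξ' (k - 1)))
    (Qn a (u k) (ξ k) - Qn a (u k) (ξ' k))
  have t2 := abs_add_le (ξ (k + 1) - ξ' (k + 1)) (ξ (k - 1) - ξ' (k - 1))
  have t3 := Qn_lip (a := a) (u := u k) (hξ k) (hξ' k)
  have t4 := hd (k + 1)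
  have t5 := hd (k - 1)
  have t6 := hd k
  have t7 := h1 k
  have t8 := h2 k
  have hρk := hρ k
  have t9 := abs_nonneg (r k)
  have t10 : 4 * π ^ 2 * |a| * ρ k * |ξ k - ξ' k| ≤ |L a (u k)| / 4 * (θ * ρ k) :=
    mul_le_mul (by linarith) t6 (abs_nonneg _) (by positivity)
  have t11 : θ * (ρ (k + 1) + ρ (k - 1)) ≤ θ * (|L a (u k)| * ρ k / 4) :=
    mul_le_mul_of_nonneg_left (by linarith) hθ
  linarith

theorem map_le (hρ : ∀ k, 0 < ρ k)
    (h1 : ∀ k, 4 * (ρ (k + 1) + ρ (k - 1) + |r k|) ≤ |L a (u k)| * ρ k)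
    (h2 : ∀ k, 16 * π ^ 2 * |a| * ρ k ≤ |L a (u k)|) {ξ : ℤ → ℝ}
    (hξ : ∀ k, |ξ k| ≤ ρ k) (k : ℤ) :
    |(r k + ξ (k + 1) + ξ (k - 1) - Qn a (u k) (ξ k)) / L a (u k)| ≤ ρ k := by
  have hL := L_pos_of hρ h1 k
  rw [abs_div, div_le_iff₀ hL]
  have t1 := abs_sub (r k + ξ (k + 1) + ξ (k - 1)) (Qn a (u k) (ξ k))
  have t2 := abs_add_three (r k) (ξ (k + 1)) (ξ (k - 1))
  have hρk := hρ k
  have t3 := Qn_lip (a := a) (u := u k) (hξ k) (show |(0:ℝ)| ≤ ρ k by rw [abs_zero]; exact hρk.le)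
  rw [Qn_zero, sub_zero, sub_zero] at t3
  have t4 := hξ (k + 1)
  have t5 := hξ (k - 1)
  have t6 := hξ k
  have t7 := h1 k
  have t8 := h2 k
  have t10 : 4 * π ^ 2 * |a| * ρ k * |ξ k| ≤ |L a (u k)| / 4 * ρ k :=
    mul_le_mul (by linarith) t6 (abs_nonneg _) (by positivity)
  have t11 : 0 < |L a (u k)| * ρ k := by positivity
  linarith

theorem Zi_le (hρ : ∀ k, 0 < ρ k)
    (h1 : ∀ k, 4 * (ρ (k + 1) + ρ (k - 1) + |r k|) ≤ |L a (u k)| * ρ k)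
    (h2 : ∀ k, 16 * π ^ 2 * |a| * ρ k ≤ |L a (u k)|) (m : ℕ) : ∀ k, |Zi a u r m k| ≤ ρ k := by
  induction m with
  | zero =>
    intro k
    show |(0:ℝ)| ≤ ρ k
    rw [abs_zero]
    exact (hρ k).le
  | succ m ih => exact fun k => map_le hρ h1 h2 ih k

theorem Zi_diff (hρ : ∀ k, 0 < ρ k)
    (h1 : ∀ k, 4 * (ρ (k + 1) + ρ (k - 1) + |r k|) ≤ |L a (u k)| * ρ k)
    (h2 : ∀ k, 16 * π ^ 2 * |a| * ρ k ≤ |L a (u k)|) (m : ℕ) :
    ∀ k, |Zi a u r (m + 1) k - Zi a u r m k| ≤ (1 / 2) ^ m * ρ k := by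
  induction m with
  | zero =>
    intro k
    have := Zi_le hρ h1 h2 1 k
    show |Zi a u r 1 k - 0| ≤ _
    rw [sub_zero, pow_zero, one_mul]
    exact this
  | succ m ih =>
    intro k
    have := contr hρ h1 h2 (by positivity : (0:ℝ) ≤ (1 / 2) ^ m) (Zi_le hρ h1 h2 (m + 1))
      (Zi_le hρ h1 h2 m) ih k
    rw [pow_succ, ← div_eq_mul_one_div]
    exact this

theorem Zi_tendsto (hρ : ∀ k, 0 < ρ k)
    (h1 : ∀ k, 4 * (ρ (k + 1) + ρ (k - 1) + |r k|) ≤ |L a (u k)| * ρ k)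
    (h2 : ∀ k, 16 * π ^ 2 * |a| * ρ k ≤ |L a (u k)|) (k : ℤ) :
    ∃ l, Tendsto (fun m => Zi a u r m k) atTop (𝓝 l) := by
  apply cauchySeq_tendsto_of_complete
  refine cauchySeq_of_le_geometric (1 / 2) (ρ k) (by norm_num) fun m => ?_
  rw [dist_comm, Real.dist_eq, mul_comm]
  exact Zi_diff hρ h1 h2 m k

theorem Zi_periodic {q : ℤ} (hu : ∀ k, u (k + q) = u k) (hr : ∀ k, r (k + q) = r k) (m : ℕ) :
    ∀ k, Zi a u r m (k + q) = Zi a u r m k := by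
  induction m with
  | zero => exact fun k => rfl
  | succ m ih =>
    intro k
    rw [Zi_succ, Zi_succ, hu, hr, ih k]
    have e1 : k + q + 1 = k + 1 + q := by ring
    have e2 : k + q - 1 = k - 1 + q := by ring
    rw [e1, e2, ih, ih]

/-- **Shadowing.** -/
theorem shadow (hρ : ∀ k, 0 < ρ k)
    (h1 : ∀ k, 4 * (ρ (k + 1) + ρ (k - 1) + |r k|) ≤ |L a (u k)| * ρ k)
    (h2 : ∀ k, 16 * π ^ 2 * |a| * ρ k ≤ |L a (u k)|) :
    ∃ ξ : ℤ → ℝ, (∀ k, |ξ k| ≤ ρ k) ∧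
      (∀ k, L a (u k) * ξ k + Qn a (u k) (ξ k) = r k + ξ (k + 1) + ξ (k - 1)) ∧
      ∀ q : ℤ, (∀ k, u (k + q) = u k) → (∀ k, r (k + q) = r k) → ∀ k, ξ (k + q) = ξ k := by
  choose ξ hξ using Zi_tendsto hρ h1 h2
  refine ⟨ξ, ?_, ?_, ?_⟩
  · intro k
    exact le_of_tendsto (hξ k).abs (Eventually.of_forall fun m => Zi_le hρ h1 h2 m k)
  · intro k
    have hL := L_pos_of hρ h1 k
    have hL0 : L a (u k) ≠ 0 := abs_pos.1 hL
    have t1 : Tendsto (fun m => Zi a u r (m + 1) k) atTop (𝓝 (ξ k)) :=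
      (hξ k).comp (tendsto_add_atTop_nat 1)
    have t2 : Tendsto (fun m => Zi a u r (m + 1) k) atTop
        (𝓝 ((r k + ξ (k + 1) + ξ (k - 1) - Qn a (u k) (ξ k)) / L a (u k))) := by
      have h3 : Tendsto (fun m => Qn a (u k) (Zi a u r m k)) atTop (𝓝 (Qn a (u k) (ξ k))) :=
        ((Qn_cont a (u k)).tendsto _).comp (hξ k)
      exact ((((tendsto_const_nhds.add (hξ (k + 1))).add (hξ (k - 1))).sub h3).div_const _)
    have h3 := tendsto_nhds_unique t1 t2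
    rw [eq_div_iff hL0] at h3
    linarith
  · intro q hu hr k
    have t1 : Tendsto (fun m => Zi a u r m k) atTop (𝓝 (ξ (k + q))) := by
      refine (hξ (k + q)).congr fun m => ?_
      exact Zi_periodic hu hr m k
    exact tendsto_nhds_unique t1 (hξ k)

end

/-- the derivative at a shadowing point -/
theorem L_near {a x ξ ρ : ℝ} (h : |ξ| ≤ ρ) (h2 : 16 * π ^ 2 * |a| * ρ ≤ |L a x|) :
    3 / 4 * |L a x| ≤ |L a (x + ξ)| := by
  have hpi := pi_pos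
  have h1 : |L a (x + ξ) - L a x| ≤ 4 * π ^ 2 * |a| * ρ := by
    have e : L a (x + ξ) - L a x = 2 * π * a * (cos (2 * π * (x + ξ)) - cos (2 * π * x)) := by
      unfold L
      ring
    rw [e, abs_mul, abs_mul, abs_of_pos (by positivity : 0 < 2 * π)]
    have h1 := abs_cos_sub_cos_le (2 * π * (x + ξ)) (2 * π * x)
    have e : 2 * π * (x + ξ) - 2 * π * x = 2 * π * ξ := by ring
    rw [e, abs_mul, abs_of_pos (by positivity : 0 < 2 * π)] at h1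
    calc 2 * π * |a| * |cos (2 * π * (x + ξ)) - cos (2 * π * x)| ≤ 2 * π * |a| * (2 * π * |ξ|) :=
          mul_le_mul_of_nonneg_left h1 (by positivity)
      _ = 4 * π ^ 2 * |a| * |ξ| := by ring
      _ ≤ _ := mul_le_mul_of_nonneg_left h (by positivity)
  have h3 := abs_sub_abs_le_abs_sub (L a x) (L a (x + ξ))
  rw [abs_sub_comm] at h3
  linarith

end Pool.Agent.L7h48.SM
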