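import Pool.Agent.L7h48.SM.SpecA

set_option autoImplicit false

/-!
# The weights in one block
-/

namespace Pool.Agent.L7h48.SM

open Real Function Set Filter Topology
open Pool.Agent.TH705.SM

/-- the weight at distance `m` from the end of a block -/
noncomputable def Pw (v : ℕ → ℝ) (m : ℕ) : ℝ := 3 / 8 * ∏ l ∈ Finset.range m, (8 / v l)

/-- the conditions for a block of length `N`, seen from one of its ends -/
structure Bl (a δ : ℝ) (v : ℕ → ℝ) (N : ℕ) : Prop where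
  up : ∀ l < N, v l ≤ 8 * |a|
  pos : ∀ l < N, 0 < v l
  pair : ∀ l, l + 1 < N → 64 ≤ v l * v (l + 1)
  prod : ∀ m, 1 ≤ m → m ≤ N → (8 * |a| ^ (1 - δ)) ^ m ≤ ∏ l ∈ Finset.range m, v l
  e0 : 31 * √|a| ≤ v 0
  e1 : ∀ l, 1 ≤ l → l ≤ 3 → l < N → 16 * √(√|a|) ≤ v l

section

variable {a δ : ℝ} {v : ℕ → ℝ} {N : ℕ}

theorem Bl.Pw_pos (h : Bl a δ v N) {m : ℕ} (hm : m ≤ N) : 0 < Pw v m := by
  unfold Pw
  have : 0 < ∏ l ∈ Finset.range m, (8 / v l) := Finset.prod_pos fun l hl => by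
    have := h.pos l ((Finset.mem_range.1 hl).trans_le hm)
    positivity
  positivity

theorem Pw_succ (v : ℕ → ℝ) (m : ℕ) : Pw v (m + 1) = Pw v m * (8 / v m) := by
  unfold Pw
  rw [Finset.prod_range_succ, mul_assoc]

theorem Bl.rel (h : Bl a δ v N) {m : ℕ} (hm : m < N) : v m * Pw v (m + 1) = 8 * Pw v m := by
  have := h.pos m hm
  rw [Pw_succ]
  field_simp

theorem Bl.two (h : Bl a δ v N) {m : ℕ} (hm : m + 1 < N) : Pw v (m + 2) ≤ Pw v m := by
  have h1 := h.pos m (by omega)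
  have h2 := h.pos (m + 1) hm
  have h3 := h.pair m hm
  have h4 := h.Pw_pos (show m ≤ N by omega)
  rw [show m + 2 = m + 1 + 1 from rfl, Pw_succ, Pw_succ, mul_assoc]
  refine mul_le_of_le_one_right h4.le ?_
  rw [div_mul_div_comm, div_le_one (by positivity)]
  linarith

/-- the fourth root -/
theorem root4 (ha : 256 ≤ |a|) : ∃ b : ℝ, 4 ≤ b ∧ |a| = b ^ 4 ∧ √|a| = b ^ 2 ∧ √(√|a|) = b := by
  refine ⟨√(√|a|), ?_, ?_, ?_, rfl⟩
  · have h1 : (16:ℝ) ≤ √|a| := by
      apply Real.le_sqrt_of_sq_le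
      linarith
    apply Real.le_sqrt_of_sq_le
    linarith
  · have e : √(√|a|) ^ 4 = (√(√|a|) ^ 2) ^ 2 := by ring
    rw [e, Real.sq_sqrt (by positivity), Real.sq_sqrt (by positivity)]
  · rw [Real.sq_sqrt (by positivity)]

theorem rate_ge (ha : 256 ≤ |a|) (hδ : δ ≤ 1 / 2) : √|a| ≤ |a| ^ (1 - δ) := by
  rw [Real.sqrt_eq_rpow]
  exact Real.rpow_le_rpow_of_exponent_le (by linarith) (by linarith)

theorem Bl.Pw_le (ha : 256 ≤ |a|) (h : Bl a δ v N) {m : ℕ} (h1 : 1 ≤ m) (hm : m ≤ N) :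
    Pw v m ≤ 3 / 8 * ((|a| ^ (1 - δ))⁻¹) ^ m := by
  have ha0 : 0 < |a| := by linarith
  unfold Pw
  apply mul_le_mul_of_nonneg_left _ (by norm_num)
  have h2 := h.prod m h1 hm
  have h3 : 0 < ∏ l ∈ Finset.range m, v l := Finset.prod_pos fun l hl =>
    h.pos l ((Finset.mem_range.1 hl).trans_le hm)
  rw [Finset.prod_div_distrib, Finset.prod_const, Finset.card_range, inv_pow,
    div_le_iff₀ h3, inv_mul_eq_div, le_div_iff₀ (by positivity), ← mul_pow]
  exact h2

theorem Bl.Pw_small (ha : 256 ≤ |a|) (hδ : δ ≤ 1 / 2) (h : Bl a δ v N) {m : ℕ} (h1 : 1 ≤ m)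
    (hm : m ≤ N) : Pw v m ≤ 1 / 40 := by
  refine (h.Pw_le ha h1 hm).trans ?_
  have h2 : (16:ℝ) ≤ √|a| := by
    apply Real.le_sqrt_of_sq_le
    linarith
  have h3 := h2.trans (rate_ge ha hδ)
  have h4 : (|a| ^ (1 - δ))⁻¹ ≤ 1 / 16 := by
    rw [inv_eq_one_div]
    exact one_div_le_one_div_of_le (by norm_num) h3
  have h5 : ((|a| ^ (1 - δ))⁻¹) ^ m ≤ (1 / 16) ^ m := pow_le_pow_left₀ (by positivity) h4 m
  have h6 : ((1:ℝ) / 16) ^ m ≤ (1 / 16) ^ 1 := pow_le_pow_of_le_one (by norm_num) (by norm_num) h1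
  rw [pow_one] at h6
  linarith

theorem Bl.w2 (ha : 256 ≤ |a|) (hδ : δ ≤ 1 / 2) (h : Bl a δ v N) {m : ℕ} (hm : m < N) :
    32 * π ^ 2 * |a| * Pw v (m + 1) ≤ v m := by
  obtain ⟨b, hb4, hab, hs1, hs2⟩ := root4 ha
  have hpi2 : π ^ 2 ≤ 9.87 := by
    have h1 := pi_lt_d4
    have h2 := pi_pos
    nlinarith
  have hpi0 : 0 < π ^ 2 := by positivity
  have hN : 0 < N := by omega
  have hv0 := h.pos 0 hN
  have hvm := h.pos m hm
  have e0 := h.e0
  rw [hs1] at e0
  have hb0 : 0 < b := by linarith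
  have h1 : Pw v 1 = 3 / v 0 := by
    have := h.rel hN
    have e : Pw v 0 = 3 / 8 := by
      unfold Pw
      simp
    rw [e, zero_add] at this
    rw [eq_div_iff hv0.ne']
    linarith
  have h1' : Pw v 1 ≤ 3 / (31 * b ^ 2) := by
    rw [h1]
    exact div_le_div_of_nonneg_left (by norm_num) (by positivity) e0
  rcases Nat.eq_zero_or_pos m with hm0 | hm0
  · subst hm0
    rw [zero_add]
    refine le_trans ?_ e0
    calc 32 * π ^ 2 * |a| * Pw v 1 ≤ 32 * 9.87 * |a| * (3 / (31 * b ^ 2)) := by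
          apply mul_le_mul _ h1' (h.Pw_pos (by omega)).le (by positivity)
          apply mul_le_mul_of_nonneg_right _ (by positivity)
          linarith
      _ = 32 * 9.87 * 3 / 31 * b ^ 2 := by
          rw [hab]
          field_simp
      _ ≤ 31 * b ^ 2 := by
          apply mul_le_mul_of_nonneg_right _ (by positivity)
          norm_num
  rcases Nat.lt_or_ge m 4 with hm4 | hm4
  · -- the first three steps
    have e1 : ∀ l, 1 ≤ l → l ≤ 3 → l < N → 16 * b ≤ v l := by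
      intro l h1 h2 h3
      have := h.e1 l h1 h2 h3
      rwa [hs2] at this
    have h2 : Pw v 2 ≤ 3 / (62 * b ^ 3) := by
      have h3 := e1 1 le_rfl (by norm_num) (by omega)
      have e2 : Pw v 2 = Pw v 1 * (8 / v 1) := Pw_succ v 1
      rw [e2]
      calc Pw v 1 * (8 / v 1) ≤ 3 / (31 * b ^ 2) * (8 / (16 * b)) := by
            apply mul_le_mul h1' _ (by have := h.pos 1 (by omega); positivity) (by positivity)
            exact div_le_div_of_nonneg_left (by norm_num) (by positivity) h3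
        _ = _ := by
            field_simp
            norm_num
    have h3 : Pw v (m + 1) ≤ Pw v 2 := by
      have hstep : ∀ l, 1 ≤ l → l ≤ 3 → l < N → Pw v (l + 1) ≤ Pw v l := by
        intro l hl1 hl2 hl3
        have h4 := e1 l hl1 hl2 hl3
        rw [Pw_succ]
        refine mul_le_of_le_one_right (h.Pw_pos hl3.le).le ?_
        rw [div_le_one (h.pos l hl3)]
        linarith
      interval_cases m
      · exact le_rfl
      · exact hstep 2 (by norm_num) (by norm_num) hm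
      · exact (hstep 3 (by norm_num) (by norm_num) hm).trans
          (hstep 2 (by norm_num) (by norm_num) (by omega))
    refine le_trans ?_ (e1 m hm0 (by omega) hm)
    calc 32 * π ^ 2 * |a| * Pw v (m + 1) ≤ 32 * 9.87 * |a| * (3 / (62 * b ^ 3)) := by
          apply mul_le_mul _ (h3.trans h2) (h.Pw_pos (by omega)).le (by positivity)
          apply mul_le_mul_of_nonneg_right _ (by positivity)
          linarith
      _ = 32 * 9.87 * 3 / 62 * b := by
          rw [hab]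
          field_simp
      _ ≤ 16 * b := by
          apply mul_le_mul_of_nonneg_right _ (by positivity)
          norm_num
  · -- far from the end
    have hlow : 8 / b ^ 4 ≤ v m := by
      have h2 := h.pair (m - 1) (by omega)
      rw [Nat.sub_add_cancel hm0] at h2
      have h3 := h.up (m - 1) (by omega)
      rw [hab] at h3
      rw [div_le_iff₀ (by positivity)]
      have h4 : v (m - 1) * v m ≤ 8 * b ^ 4 * v m := mul_le_mul_of_nonneg_right h3 hvm.le
      linarith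
    have h2 : Pw v (m + 1) ≤ 3 / 8 * ((b ^ 2)⁻¹) ^ 5 := by
      refine (h.Pw_le ha (by omega) hm).trans ?_
      apply mul_le_mul_of_nonneg_left _ (by norm_num)
      have h3 := rate_ge ha hδ
      rw [hs1] at h3
      have h4 : (|a| ^ (1 - δ))⁻¹ ≤ (b ^ 2)⁻¹ := inv_anti₀ (by positivity) h3
      have h5 : (b ^ 2)⁻¹ ≤ 1 := inv_le_one_of_one_le₀ (by nlinarith)
      exact (pow_le_pow_left₀ (by positivity) h4 _).trans
        (pow_le_pow_of_le_one (by positivity) h5 (by omega))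
    refine le_trans ?_ hlow
    calc 32 * π ^ 2 * |a| * Pw v (m + 1) ≤ 32 * 9.87 * |a| * (3 / 8 * ((b ^ 2)⁻¹) ^ 5) := by
          apply mul_le_mul _ h2 (h.Pw_pos (by omega)).le (by positivity)
          apply mul_le_mul_of_nonneg_right _ (by positivity)
          linarith
      _ = 32 * 9.87 * 3 / 8 / b ^ 2 / b ^ 4 := by
          rw [hab]
          field_simp
      _ ≤ 8 / b ^ 4 := by
          apply div_le_div_of_nonneg_right _ (by positivity)
          rw [div_le_iff₀ (by positivity)]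
          nlinarith

end

/-- the weights of a block seen from both ends -/
noncomputable def rho (w : ℕ → ℝ) (N i : ℕ) : ℝ :=
  Pw (fun l => w (N - 1 - l)) (N - i) + Pw w (i + 1)

/-- a good block -/
structure Blk (a δ : ℝ) (w : ℕ → ℝ) (N : ℕ) : Prop where
  fwd : Bl a δ w N
  bwd : Bl a δ (fun l => w (N - 1 - l)) N

section

variable {a δ : ℝ} {w : ℕ → ℝ} {N : ℕ}

theorem Blk.rho_pos (h : Blk a δ w N) {i : ℕ} (hi : i < N) : 0 < rho w N i :=
  add_pos (h.bwd.Pw_pos (by omega)) (h.fwd.Pw_pos (by omega))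

theorem Blk.mul_rho (h : Blk a δ w N) {i : ℕ} (hi : i < N) :
    w i * rho w N i = 8 * Pw (fun l => w (N - 1 - l)) (N - 1 - i) + 8 * Pw w i := by
  have h1 := h.fwd.rel hi
  have h2 := h.bwd.rel (show N - 1 - i < N by omega)
  have e1 : N - 1 - i + 1 = N - i := by omega
  have e2 : N - 1 - (N - 1 - i) = i := by omega
  rw [e1] at h2
  simp only [e2] at h2
  unfold rho
  rw [mul_add, h1, h2]

/-- inside a block: the weight on the right -/
theorem Blk.rho_right (h : Blk a δ w N) {i : ℕ} (hi : i + 1 < N) :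
    rho w N (i + 1) ≤ Pw (fun l => w (N - 1 - l)) (N - 1 - i) + Pw w i := by
  unfold rho
  have e1 : N - (i + 1) = N - 1 - i := by omega
  rw [e1]
  have := h.fwd.two hi
  linarith

/-- inside a block: the weight on the left -/
theorem Blk.rho_left (h : Blk a δ w N) {i : ℕ} (h1 : 1 ≤ i) (hi : i < N) :
    rho w N (i - 1) ≤ Pw (fun l => w (N - 1 - l)) (N - 1 - i) + Pw w i := by
  unfold rho
  have e1 : N - (i - 1) = N - 1 - i + 2 := by omega
  have e2 : i - 1 + 1 = i := by omega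
  rw [e1, e2]
  have := h.bwd.two (show N - 1 - i + 1 < N by omega)
  linarith

theorem Blk.first (ha : 256 ≤ |a|) (hδ : δ ≤ 1 / 2) (hN : 1 ≤ N) (h : Blk a δ w N) :
    rho w N 0 ≤ 1 / 20 := by
  unfold rho
  have h1 := h.bwd.Pw_small ha hδ (show 1 ≤ N - 0 by omega) (by omega)
  have h2 := h.fwd.Pw_small ha hδ (show 1 ≤ 0 + 1 by omega) (by omega)
  linarith

theorem Blk.last (ha : 256 ≤ |a|) (hδ : δ ≤ 1 / 2) (hN : 1 ≤ N) (h : Blk a δ w N) :
    rho w N (N - 1) ≤ 1 / 20 := by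
  unfold rho
  have h1 := h.bwd.Pw_small ha hδ (show 1 ≤ N - (N - 1) by omega) (by omega)
  have h2 := h.fwd.Pw_small ha hδ (show 1 ≤ N - 1 + 1 by omega) (by omega)
  linarith

theorem Blk.w2 (ha : 256 ≤ |a|) (hδ : δ ≤ 1 / 2) (h : Blk a δ w N) {i : ℕ} (hi : i < N) :
    16 * π ^ 2 * |a| * rho w N i ≤ w i := by
  have h1 := h.fwd.w2 ha hδ hi
  have h2 := h.bwd.w2 ha hδ (show N - 1 - i < N by omega)
  have e1 : N - 1 - i + 1 = N - i := by omega
  have e2 : N - 1 - (N - 1 - i) = i := by omega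
  rw [e1] at h2
  simp only [e2] at h2
  unfold rho
  linarith

theorem Blk.rho_le (ha : 256 ≤ |a|) (hδ : δ ≤ 1 / 2) (h : Blk a δ w N) {i : ℕ} (hi : i < N) :
    rho w N i ≤ ((|a| ^ (1 - δ))⁻¹) ^ (min (i + 1) (N - i)) := by
  unfold rho
  have h1 := h.bwd.Pw_le ha (show 1 ≤ N - i by omega) (by omega)
  have h2 := h.fwd.Pw_le ha (show 1 ≤ i + 1 by omega) (by omega)
  have h3 : (16:ℝ) ≤ √|a| := by
    apply Real.le_sqrt_of_sq_le
    linarith
  have h4 := h3.trans (rate_ge ha hδ)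
  have h5 : (|a| ^ (1 - δ))⁻¹ ≤ 1 := inv_le_one_of_one_le₀ (by linarith)
  have h6 : 0 ≤ (|a| ^ (1 - δ))⁻¹ := by positivity
  have h7 : ((|a| ^ (1 - δ))⁻¹) ^ (N - i) ≤ ((|a| ^ (1 - δ))⁻¹) ^ (min (i + 1) (N - i)) :=
    pow_le_pow_of_le_one h6 h5 (min_le_right _ _)
  have h8 : ((|a| ^ (1 - δ))⁻¹) ^ (i + 1) ≤ ((|a| ^ (1 - δ))⁻¹) ^ (min (i + 1) (N - i)) :=
    pow_le_pow_of_le_one h6 h5 (min_le_left _ _)
  have h9 : 0 ≤ ((|a| ^ (1 - δ))⁻¹) ^ (min (i + 1) (N - i)) := by positivity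
  linarith

end

end Pool.Agent.L7h48.SM
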