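import Pool.Agent.L7h48.SM.SpecB
import Pool.Agent.L7h48.SM.HypA

set_option autoImplicit false

/-!
# Concatenation of good orbit segments
-/

namespace Pool.Agent.L7h48.SM

open Real Function Set Filter Topology
open Pool.Agent.TH705.SM Pool.Agent.Y332.SM

/-- a sequence composed of blocks of length `N` -/
def glue {α : Type} (N : ℕ) (f : ℤ → ℕ → α) (k : ℤ) : α := f (k / N) ((k % N).toNat)

theorem glue_eq {α : Type} {N : ℕ} (f : ℤ → ℕ → α) (j : ℤ) {i : ℕ} (hi : i < N) :
    glue N f (N * j + i) = f j i := by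
  unfold glue
  have hN : (N:ℤ) ≠ 0 := by omega
  have h1 : ((N:ℤ) * j + i) / N = j := by
    rw [add_comm, Int.add_mul_ediv_left _ _ hN, Int.ediv_eq_zero_of_lt (by omega) (by omega),
      zero_add]
  have h2 : ((N:ℤ) * j + i) % N = i := by
    rw [add_comm, Int.add_mul_emod_self_left, Int.emod_eq_of_lt (by omega) (by omega)]
  rw [h1, h2, Int.toNat_natCast]

theorem site {N : ℕ} (hN : 1 ≤ N) (k : ℤ) : ∃ (j : ℤ) (i : ℕ), i < N ∧ k = N * j + i := by
  have h0 : (0:ℤ) < N := by omega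
  refine ⟨k / N, (k % N).toNat, ?_, ?_⟩
  · have := Int.emod_lt_of_pos k h0
    have := Int.emod_nonneg k h0.ne'
    omega
  · rw [Int.toNat_of_nonneg (Int.emod_nonneg k h0.ne')]
    exact (Int.mul_ediv_add_emod k N).symm

/-- a lift of a point of the circle -/
noncomputable def cl (x : UnitAddCircle) : ℝ := (QuotientAddGroup.mk_surjective x).choose

theorem cl_coe (x : UnitAddCircle) : ((cl x : ℝ) : UnitAddCircle) = x :=
  (QuotientAddGroup.mk_surjective x).choose_spec

theorem sub_round_zero {y : ℝ} (h : (y : UnitAddCircle) = 0) : y - round y = 0 := by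
  obtain ⟨n, hn⟩ := (AddCircle.coe_eq_zero_iff (1:ℝ)).1 h
  rw [← hn]
  simp

/-- the moduli of the derivatives along the orbit -/
noncomputable def wq (a : ℝ) (p : T2) (i : ℕ) : ℝ := |Lc a (((S a)^[i] p).1)|

theorem orbit_rel (a : ℝ) (p : T2) {i : ℕ} (hi : 1 ≤ i) :
    ((S a)^[i + 1] p).1 + ((S a)^[i - 1] p).1 = phi a (((S a)^[i] p).1) := by
  rw [iterate_succ_apply', ← iter_snd a hi]
  show phi a (((S a)^[i] p).1) - ((S a)^[i] p).2 + ((S a)^[i] p).2 = _
  rw [sub_add_cancel]

theorem idx_right {N i : ℕ} (j : ℤ) (h : i + 1 = N) : (N:ℤ) * j + i + 1 = N * (j + 1) + (0:ℕ) := by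
  subst h
  push_cast
  ring

theorem idx_left {N : ℕ} (hN : 1 ≤ N) (j : ℤ) :
    (N:ℤ) * j + (0:ℕ) - 1 = N * (j - 1) + ((N - 1 : ℕ) : ℤ) := by
  rw [Nat.cast_sub hN]
  push_cast
  ring

theorem idx_succ {N i : ℕ} (j : ℤ) : (N:ℤ) * j + i + 1 = N * j + ((i + 1 : ℕ) : ℤ) := by
  push_cast
  ring

theorem idx_pred {N i : ℕ} (j : ℤ) (hi : 1 ≤ i) :
    (N:ℤ) * j + i - 1 = N * j + ((i - 1 : ℕ) : ℤ) := by
  rw [Nat.cast_sub hi]
  push_cast
  ring

/-- **Concatenation of good orbit segments.** -/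
theorem concat {a δ : ℝ} (ha : 256 ≤ |a|) (hδ : δ ≤ 1 / 2) {N : ℕ} (hN : 1 ≤ N) (q : ℤ → T2)
    (h : ∀ j, Blk a δ (wq a (q j)) N) :
    ∃ x : ℤ → ℝ,
      (∀ k, ((x (k + 1) : ℝ) : UnitAddCircle) =
        ((2 * x k - x (k - 1) + a * sin (2 * π * x k) : ℝ) : UnitAddCircle)) ∧
      (∀ (j : ℤ) (i : ℕ), i < N → ∃ t : ℝ, (t : UnitAddCircle) = ((S a)^[i] (q j)).1 ∧
        |x (N * j + i) - t| ≤ ((|a| ^ (1 - δ))⁻¹) ^ (min (i + 1) (N - i)) ∧
        3 / 4 * wq a (q j) i ≤ |L a (x (N * j + i))|) ∧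
      ∀ P : ℤ, (∀ j, q (j + P) = q j) → ∀ k, x (k + N * P) = x k := by
  set U : ℤ → ℕ → ℝ := fun j i => cl (((S a)^[i] (q j)).1) with hU
  set u : ℤ → ℝ := glue N U with hu
  set y : ℤ → ℝ := fun k => u (k + 1) + u (k - 1) - 2 * u k - a * sin (2 * π * u k) with hy
  set r : ℤ → ℝ := fun k => y k - round (y k) with hr
  set ρ : ℤ → ℝ := glue N (fun j i => rho (wq a (q j)) N i) with hρ
  have hL : ∀ (j : ℤ) (i : ℕ), i < N → |L a (u (N * j + i))| = wq a (q j) i := by
    intro j i hi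
    rw [hu, glue_eq U j hi, hU]
    unfold wq
    simp only
    rw [← Lc_coe, cl_coe]
  have hρe : ∀ (j : ℤ) (i : ℕ), i < N → ρ (N * j + i) = rho (wq a (q j)) N i := by
    intro j i hi
    rw [hρ, glue_eq _ j hi]
  have hρ0 : ∀ k, 0 < ρ k := by
    intro k
    obtain ⟨j, i, hi, rfl⟩ := site hN k
    rw [hρe j i hi]
    exact (h j).rho_pos hi
  have hr2 : ∀ k, |r k| ≤ 1 / 2 := fun k => abs_sub_round (y k)
  have hr0 : ∀ (j : ℤ) (i : ℕ), 1 ≤ i → i + 1 < N → r (N * j + i) = 0 := by
    intro j i h1 h2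
    apply sub_round_zero
    rw [hy]
    simp only
    rw [idx_succ, idx_pred j h1, hu, glue_eq U j h2, glue_eq U j (show i - 1 < N by omega),
      glue_eq U j (show i < N by omega)]
    have e : U j (i + 1) + U j (i - 1) - 2 * U j i - a * sin (2 * π * U j i) =
      U j (i + 1) + U j (i - 1) - (2 * U j i + a * sin (2 * π * U j i)) := by ring
    rw [e, AddCircle.coe_sub, AddCircle.coe_add, ← phi_coe, hU]
    simp only
    rw [cl_coe, cl_coe, cl_coe, orbit_rel a (q j) h1, sub_self]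
  have h1 : ∀ k, 4 * (ρ (k + 1) + ρ (k - 1) + |r k|) ≤ |L a (u k)| * ρ k := by
    intro k
    obtain ⟨j, i, hi, rfl⟩ := site hN k
    rw [hL j i hi, hρe j i hi, (h j).mul_rho hi]
    have hA : 0 < Pw (fun l => wq a (q j) (N - 1 - l)) (N - 1 - i) := (h j).bwd.Pw_pos (by omega)
    have hB : 0 < Pw (wq a (q j)) i := (h j).fwd.Pw_pos (by omega)
    have hP0 : ∀ v : ℕ → ℝ, Pw v 0 = 3 / 8 := fun v => by
      unfold Pw
      simp
    have hrk := hr2 (N * j + i)
    have hz0 : 1 ≤ i → i + 1 < N → |r (N * j + i)| = 0 := fun h3 h4 => by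
      rw [hr0 j i h3 h4, abs_zero]
    generalize |r (N * j + i)| = z at hrk hz0 ⊢
    rcases Nat.lt_or_ge (i + 1) N with hiN | hiN
    · have e1 : ρ (N * j + i + 1) = rho (wq a (q j)) N (i + 1) := by
        rw [idx_succ, hρe j (i + 1) hiN]
      rw [e1]
      rcases Nat.eq_zero_or_pos i with hi0 | hi0
      · subst hi0
        have e2 : ρ (N * j + (0:ℕ) - 1) = rho (wq a (q (j - 1))) N (N - 1) := by
          rw [idx_left hN, hρe (j - 1) (N - 1) (by omega)]
        rw [e2]
        have t1 := (h (j - 1)).last ha hδ hN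
        have t2 : rho (wq a (q j)) N (0 + 1) ≤
            Pw (fun l => wq a (q j) (N - 1 - l)) (N - 1 - 0) + 1 / 40 := by
          have := (h j).fwd.Pw_small ha hδ (show 1 ≤ 0 + 1 + 1 by omega) (by omega)
          exact add_le_add le_rfl this
        have t3 := hP0 (wq a (q j))
        linarith
      · have e2 : ρ (N * j + i - 1) = rho (wq a (q j)) N (i - 1) := by
          rw [idx_pred j hi0, hρe j (i - 1) (by omega)]
        rw [e2, hz0 hi0 hiN]
        have t1 := (h j).rho_right hiN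
        have t2 := (h j).rho_left hi0 hi
        linarith
    · have hiN' : i + 1 = N := by omega
      have e1 : ρ (N * j + i + 1) = rho (wq a (q (j + 1))) N 0 := by
        rw [idx_right j hiN', hρe (j + 1) 0 (by omega)]
      rw [e1]
      have t1 := (h (j + 1)).first ha hδ hN
      have e0 : N - 1 - i = 0 := by omega
      rw [e0] at hA ⊢
      have t3 := hP0 (fun l => wq a (q j) (N - 1 - l))
      rcases Nat.eq_zero_or_pos i with hi0 | hi0
      · subst hi0
        have e2 : ρ (N * j + (0:ℕ) - 1) = rho (wq a (q (j - 1))) N (N - 1) := by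
          rw [idx_left hN, hρe (j - 1) (N - 1) (by omega)]
        rw [e2]
        have t1' := (h (j - 1)).last ha hδ hN
        have t3' := hP0 (wq a (q j))
        linarith
      · have e2 : ρ (N * j + i - 1) = rho (wq a (q j)) N (i - 1) := by
          rw [idx_pred j hi0, hρe j (i - 1) (by omega)]
        rw [e2]
        have t2 : rho (wq a (q j)) N (i - 1) ≤ 1 / 40 + Pw (wq a (q j)) i := by
          unfold rho
          have e : i - 1 + 1 = i := by omega
          rw [e]
          have := (h j).bwd.Pw_small ha hδ (show 1 ≤ N - (i - 1) by omega) (by omega)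
          linarith
        linarith
  have h2 : ∀ k, 16 * π ^ 2 * |a| * ρ k ≤ |L a (u k)| := by
    intro k
    obtain ⟨j, i, hi, rfl⟩ := site hN k
    rw [hL j i hi, hρe j i hi]
    exact (h j).w2 ha hδ hi
  obtain ⟨ξ, hξ1, hξ2, hξ3⟩ := shadow hρ0 h1 h2
  refine ⟨fun k => u k + ξ k, ?_, ?_, ?_⟩
  · intro k
    have h3 := hξ2 k
    have e : u (k + 1) + ξ (k + 1) = 2 * (u k + ξ k) - (u (k - 1) + ξ (k - 1)) +
        a * sin (2 * π * (u k + ξ k)) + ((round (y k) : ℤ) : ℝ) := by
      have h4 : r k = y k - round (y k) := rfl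
      have h5 : y k = u (k + 1) + u (k - 1) - 2 * u k - a * sin (2 * π * u k) := rfl
      unfold L Qn at h3
      linarith
    show ((u (k + 1) + ξ (k + 1) : ℝ) : UnitAddCircle) = _
    rw [e, AddCircle.coe_add _ (2 * (u k + ξ k) - (u (k - 1) + ξ (k - 1)) +
        a * sin (2 * π * (u k + ξ k))) (((round (y k) : ℤ) : ℝ))]
    have h6 : ((((round (y k) : ℤ) : ℝ)) : UnitAddCircle) = 0 := by
      rw [AddCircle.coe_eq_zero_iff]
      exact ⟨round (y k), by simp⟩
    rw [h6, add_zero]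
  · intro j i hi
    refine ⟨U j i, cl_coe _, ?_, ?_⟩
    · have e : u (N * j + i) = U j i := glue_eq U j hi
      simp only
      rw [e, add_sub_cancel_left]
      refine (hξ1 _).trans ?_
      rw [hρe j i hi]
      exact (h j).rho_le ha hδ hi
    · rw [← hL j i hi]
      exact L_near (hξ1 _) (h2 _)
  · intro P hP
    have hglue : ∀ k, u (k + N * P) = u k := by
      intro k
      obtain ⟨j, i, hi, rfl⟩ := site hN k
      have e : (N:ℤ) * j + i + N * P = N * (j + P) + i := by ring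
      rw [e, hu, glue_eq U (j + P) hi, glue_eq U j hi, hU]
      simp only
      rw [hP]
    have hr' : ∀ k, r (k + N * P) = r k := by
      intro k
      have e : y (k + N * P) = y k := by
        rw [hy]
        simp only
        have e1 : k + N * P + 1 = k + 1 + N * P := by ring
        have e2 : k + N * P - 1 = k - 1 + N * P := by ring
        rw [e1, e2, hglue, hglue, hglue]
      rw [hr]
      simp only
      rw [e]
    intro k
    simp only
    rw [hglue, hξ3 (N * P) hglue hr' k]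

end Pool.Agent.L7h48.SM
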