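import Pool.Agent.L7h48.SM.SpecC

set_option autoImplicit false

/-!
# Hyperbolicity of the concatenated orbits
-/

namespace Pool.Agent.L7h48.SM

open Real Function Set Filter Topology
open Pool.Agent.TH705.SM Pool.Agent.Y332.SM

section

variable {a δ : ℝ} {N : ℕ} {W : ℤ → ℕ → ℝ}

/-- products starting at a block -/
theorem start_low (ha : 256 ≤ |a|) (hN : 1 ≤ N) (h : ∀ j, Blk a δ (W j) N) (m : ℕ) :
    ∀ j : ℤ, (8 * |a| ^ (1 - δ)) ^ m ≤ ∏ l ∈ Finset.range m, glue N W (N * j + l) := by
  have ha0 : 0 < |a| := by linarith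
  induction m using Nat.strong_induction_on with
  | _ m ih =>
    intro j
    rcases Nat.le_total m N with hm | hm
    · rcases Nat.eq_zero_or_pos m with hm0 | hm0
      · subst hm0
        simp
      · refine ((h j).fwd.prod m hm0 hm).trans (le_of_eq ?_)
        refine Finset.prod_congr rfl fun l hl => ?_
        rw [glue_eq W j ((Finset.mem_range.1 hl).trans_le hm)]
    · obtain ⟨m', rfl⟩ := Nat.exists_eq_add_of_le hm
      rw [Finset.prod_range_add, pow_add]
      have h1 : (8 * |a| ^ (1 - δ)) ^ N ≤ ∏ l ∈ Finset.range N, glue N W (N * j + l) := by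
        refine ((h j).fwd.prod N hN le_rfl).trans (le_of_eq ?_)
        refine Finset.prod_congr rfl fun l hl => ?_
        rw [glue_eq W j (Finset.mem_range.1 hl)]
      have h2 := ih m' (by omega) (j + 1)
      have h3 : ∏ l ∈ Finset.range m', glue N W (N * (j + 1) + l) =
          ∏ l ∈ Finset.range m', glue N W (N * j + ((N + l : ℕ) : ℤ)) := by
        refine Finset.prod_congr rfl fun l _ => ?_
        congr 1
        push_cast
        ring
      rw [h3] at h2
      exact mul_le_mul h1 h2 (by positivity) (le_trans (by positivity) h1)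

/-- products over windows of at least the length of a block -/
theorem window_low (ha : 256 ≤ |a|) (hN : 1 ≤ N) (h : ∀ j, Blk a δ (W j) N) (k : ℤ) {m : ℕ}
    (hm : N ≤ m) : (8 * |a| ^ (1 - δ)) ^ m ≤ ∏ l ∈ Finset.range m, glue N W (k + l) := by
  have ha0 : 0 < |a| := by linarith
  obtain ⟨j, i, hi, rfl⟩ := site hN k
  obtain ⟨m', hm'⟩ := Nat.exists_eq_add_of_le (show N - i ≤ m by omega)
  subst hm'
  rw [Finset.prod_range_add, pow_add]
  have h1 : (8 * |a| ^ (1 - δ)) ^ (N - i) ≤
      ∏ l ∈ Finset.range (N - i), glue N W (N * j + i + l) := by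
    refine ((h j).bwd.prod (N - i) (by omega) (by omega)).trans (le_of_eq ?_)
    rw [← Finset.prod_range_reflect]
    refine Finset.prod_congr rfl fun l hl => ?_
    have hl' := Finset.mem_range.1 hl
    have e : (N:ℤ) * j + i + l = N * j + ((i + l : ℕ) : ℤ) := by
      push_cast
      ring
    rw [e, glue_eq W j (by omega)]
    congr 1
    omega
  have h2 := start_low ha hN h m' (j + 1)
  have h3 : ∏ l ∈ Finset.range m', glue N W (N * (j + 1) + l) =
      ∏ l ∈ Finset.range m', glue N W (N * j + i + ((N - i + l : ℕ) : ℤ)) := by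
    refine Finset.prod_congr rfl fun l _ => ?_
    congr 1
    rw [Nat.cast_add, Nat.cast_sub hi.le]
    ring
  rw [h3] at h2
  exact mul_le_mul h1 h2 (by positivity) (le_trans (by positivity) h1)

/-- all pairs are large -/
theorem pair_low (ha : 256 ≤ |a|) (hN : 1 ≤ N) (h : ∀ j, Blk a δ (W j) N) (k : ℤ) :
    64 ≤ glue N W k * glue N W (k + 1) := by
  obtain ⟨j, i, hi, rfl⟩ := site hN k
  rw [glue_eq W j hi]
  rcases Nat.lt_or_ge (i + 1) N with hiN | hiN
  · rw [idx_succ, glue_eq W j hiN]
    exact (h j).fwd.pair i hiN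
  · have hiN' : i + 1 = N := by omega
    rw [idx_right j hiN', glue_eq W (j + 1) (by omega)]
    have h1 : 31 * √|a| ≤ W j (N - 1 - 0) := (h j).bwd.e0
    have e : N - 1 - 0 = i := by omega
    rw [e] at h1
    have h2 := (h (j + 1)).fwd.e0
    have h3 : (16:ℝ) ≤ √|a| := by
      apply Real.le_sqrt_of_sq_le
      linarith
    have h4 : (496:ℝ) * 496 ≤ W j i * W (j + 1) 0 :=
      mul_le_mul (by linarith) (by linarith) (by norm_num) (by linarith)
    linarith

end

/-- growth along a concatenated orbit -/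
theorem growth_concat {a δ : ℝ} (ha : 256 ≤ |a|) {N : ℕ} (hN : 1 ≤ N) (q : ℤ → T2)
    (h : ∀ j, Blk a δ (wq a (q j)) N) {x : ℤ → ℝ}
    (hx1 : ∀ k, ((x (k + 1) : ℝ) : UnitAddCircle) =
        ((2 * x k - x (k - 1) + a * sin (2 * π * x k) : ℝ) : UnitAddCircle))
    (hx2 : ∀ (j : ℤ) (i : ℕ), i < N → 3 / 4 * wq a (q j) i ≤ |L a (x (N * j + i))|)
    (k : ℤ) {m : ℕ} (hm : N ≤ m) {s t : ℝ} (ht : (t : UnitAddCircle) = (x k : UnitAddCircle))
    (hs : (s : UnitAddCircle) = (x (k - 1) : UnitAddCircle)) :
    (|a| ^ (1 - δ)) ^ m ≤ |D a s (m + 1) t| := by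
  have ha0 : 0 < |a| := by linarith
  set W : ℤ → ℕ → ℝ := fun j i => wq a (q j) i with hW
  have hx3 : ∀ k, 3 / 4 * glue N W k ≤ |L a (x k)| := by
    intro k
    obtain ⟨j, i, hi, rfl⟩ := site hN k
    rw [glue_eq W j hi]
    exact hx2 j i hi
  -- the lifts of the orbit
  have hX : ∀ l : ℕ, ((X a s l t : ℝ) : UnitAddCircle) = (x (k - 1 + l) : UnitAddCircle) ∧
      ((X a s (l + 1) t : ℝ) : UnitAddCircle) = (x (k + l) : UnitAddCircle) := by
    intro l
    induction l with
    | zero =>
      constructor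
      · show (s : UnitAddCircle) = _
        rw [hs]
        simp
      · show (t : UnitAddCircle) = _
        rw [ht]
        simp
    | succ l ih =>
      constructor
      · rw [ih.2]
        congr 2
        push_cast
        ring
      · have e1 : X a s (l + 1 + 1) t =
            (2 * X a s (l + 1) t + a * sin (2 * π * X a s (l + 1) t)) - X a s l t := by
          show 2 * X a s (l + 1) t - X a s l t + a * sin (2 * π * X a s (l + 1) t) = _
          ring
        have e2 : k + ((l + 1 : ℕ) : ℤ) = k + l + 1 := by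
          push_cast
          ring
        have e3 : k + (l : ℤ) - 1 = k - 1 + l := by ring
        have e4 : 2 * x (k + l) - x (k + l - 1) + a * sin (2 * π * x (k + l)) =
            (2 * x (k + l) + a * sin (2 * π * x (k + l))) - x (k - 1 + l) := by
          rw [e3]
          ring
        rw [e1, e2, hx1 (k + l), e4, AddCircle.coe_sub, AddCircle.coe_sub, ← phi_coe, ← phi_coe,
          ih.1, ih.2]
  have hLX : ∀ l : ℕ, |L a (X a s (l + 1) t)| = |L a (x (k + l))| := by
    intro l
    rw [← Lc_coe, (hX l).2, Lc_coe]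
  have hpair : ∀ l, 1 ≤ l → l < m + 1 → 4 ≤ |L a (X a s l t)| * |L a (X a s (l + 1) t)| := by
    intro l hl _
    obtain ⟨l, rfl⟩ := Nat.exists_eq_add_of_le' hl
    rw [hLX, hLX]
    have h1 := hx3 (k + l)
    have h2 := hx3 (k + l + 1)
    have h3 := pair_low ha hN h (k + l)
    have e : k + ((l + 1 : ℕ) : ℤ) = k + l + 1 := by
      push_cast
      ring
    rw [e]
    have hpos : 0 < glue N W (k + l) := by
      obtain ⟨j, i, hi, he⟩ := site hN (k + l)
      rw [he, glue_eq W j hi]
      exact (h j).fwd.pos i hi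
    have hpos' : 0 < glue N W (k + l + 1) := by
      obtain ⟨j, i, hi, he⟩ := site hN (k + l + 1)
      rw [he, glue_eq W j hi]
      exact (h j).fwd.pos i hi
    have h4 : (3 / 4 * glue N W (k + l)) * (3 / 4 * glue N W (k + l + 1)) ≤
        |L a (x (k + l))| * |L a (x (k + l + 1))| :=
      mul_le_mul h1 h2 (by positivity) (abs_nonneg _)
    have h5 : 64 ≤ glue N W (k + l) * glue N W (k + l + 1) := h3
    linarith
  have h3 := (D_prod hpair m (by omega) (by omega)).2
  refine le_trans ?_ h3
  have h4 := window_low ha hN h k hm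
  calc (|a| ^ (1 - δ)) ^ m ≤ (3 / 8) ^ m * (8 * |a| ^ (1 - δ)) ^ m := by
        rw [← mul_pow]
        apply pow_le_pow_left₀ (by positivity)
        have : 0 < |a| ^ (1 - δ) := by positivity
        linarith
    _ ≤ (3 / 8) ^ m * ∏ l ∈ Finset.range m, glue N W (k + l) :=
        mul_le_mul_of_nonneg_left h4 (by positivity)
    _ = ∏ l ∈ Finset.range m, (3 / 8 * glue N W (k + l)) := by
        rw [Finset.prod_mul_distrib, Finset.prod_const, Finset.card_range]
    _ ≤ _ := by
        apply Finset.prod_le_prod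
        · intro l _
          obtain ⟨j, i, hi, he⟩ := site hN (k + l)
          rw [he, glue_eq W j hi]
          have := (h j).fwd.pos i hi
          positivity
        · intro l _
          rw [hLX]
          have := hx3 (k + l)
          linarith

end Pool.Agent.L7h48.SM
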