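import Pool.Agent.L7h48.SM.SpecD

set_option autoImplicit false

/-!
# The set of the initial points of good orbit segments
-/

namespace Pool.Agent.L7h48.SM

open Real MeasureTheory Function Set Filter Topology
open Pool.Agent.TH705.SM Pool.Agent.Y332.SM
open scoped ENNReal

/-- a derivative less than `K` at time `i` -/
def bdW (a K : ℝ) (i : ℕ) : Set T2 := {p | wq a p i < K}

theorem vol_bdW {a : ℝ} (ha : 4 ≤ |a|) {K : ℝ} (hK : 0 ≤ K) (i : ℕ) :
    volume (bdW a K i) ≤ ENNReal.ofReal (K / (3 * |a|)) := by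
  have hm : MeasurableSet (Prod.fst ⁻¹' {x : UnitAddCircle | |Lc a x| ≤ K} : Set T2) :=
    (Lc_meas_le a K).preimage measurable_fst
  have h1 : bdW a K i ⊆ (S a)^[i] ⁻¹' (Prod.fst ⁻¹' {x : UnitAddCircle | |Lc a x| ≤ K}) := by
    intro p hp
    have h2 : wq a p i < K := hp
    exact h2.le
  refine (measure_mono h1).trans ?_
  rw [(iter_mp a i).measure_preimage hm.nullMeasurableSet]
  have h7 : MeasurePreserving (Prod.fst : T2 → UnitAddCircle)
      ((volume : Measure UnitAddCircle).prod volume) volume := measurePreserving_fst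
  rw [vol_T2, h7.measure_preimage (Lc_meas_le a K).nullMeasurableSet]
  exact vol_lin ha hK

/-- the exponent -/
noncomputable def sx (a : ℝ) : ℝ := 1 - 1 / (2 * log |a|)

/-- the initial points of orbit segments of length `N` which are not good -/
def bdS (a δ : ℝ) (N : ℕ) : Set T2 :=
  bdP a 64 N ∪ (bdM a (sx a) (8 * |a| ^ (1 - δ)) ∪
    ((fun p => ((S a)^[N] p).swap) ⁻¹' (toMeasurable volume (bdM a (sx a) (8 * |a| ^ (1 - δ)))) ∪
    ((⋃ i ∈ ({0, N - 1} : Finset ℕ), bdW a (31 * √|a|) i) ∪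
      ⋃ i ∈ ({1, 2, 3, N - 2, N - 3, N - 4} : Finset ℕ), bdW a (16 * √(√|a|)) i)))

theorem log256 {a : ℝ} (ha : 256 ≤ |a|) : 5.545 ≤ log |a| := by
  have hl2 := Real.log_two_gt_d9
  have h4 : log 256 ≤ log |a| := Real.log_le_log (by norm_num) ha
  have h5 : log (256:ℝ) = 8 * log 2 := by
    have : (256:ℝ) = 2 ^ 8 := by norm_num
    rw [this, Real.log_pow]
    norm_num
  linarith

theorem sx_mem {a : ℝ} (ha : 256 ≤ |a|) : 0 < sx a ∧ sx a < 1 := by
  have := log256 ha
  have h1 : 0 < 1 / (2 * log |a|) := by positivity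
  have h2 : 1 / (2 * log |a|) < 1 := by
    rw [div_lt_one (by positivity)]
    linarith
  unfold sx
  constructor <;> linarith

theorem vol_M {a δ : ℝ} (ha : 256 ≤ |a|) (hδ : δ ≤ 1 / 2) :
    volume (bdM a (sx a) (8 * |a| ^ (1 - δ))) ≤
      ENNReal.ofReal (27.4 * (log |a| * |a| ^ (-δ))) := by
  have ha0 : 0 < |a| := by linarith
  have hla := log256 ha
  obtain ⟨hs0, hs1⟩ := sx_mem ha
  refine (vol_bdM (by linarith) hs0 hs1 (by positivity)).trans (ENNReal.ofReal_le_ofReal ?_)
  set u : ℝ := 1 / (2 * log |a|) with hu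
  have hu0 : 0 < u := by positivity
  have e0 : sx a = 1 - u := rfl
  rw [e0] at hs0 hs1 ⊢
  rw [sub_sub_cancel]
  have e1 : 8 * |a| ^ (1 - δ) / (4 * |a|) = |a| ^ (-δ) * 2 := by
    rw [Real.rpow_sub ha0, Real.rpow_one, Real.rpow_neg ha0.le]
    field_simp
    norm_num
  have e2 : (|a| ^ (-δ)) ^ (1 - u) = |a| ^ (-δ) * exp (δ / 2) := by
    rw [← Real.rpow_mul ha0.le, Real.rpow_def_of_pos ha0, Real.rpow_def_of_pos ha0,
      ← Real.exp_add]
    congr 1
    rw [hu]
    field_simp
    ring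
  have e3 : (2:ℝ) ^ (1 - u) ≤ 2 := by
    calc (2:ℝ) ^ (1 - u) ≤ 2 ^ (1:ℝ) :=
          Real.rpow_le_rpow_of_exponent_le (by norm_num) (by linarith)
      _ = 2 := Real.rpow_one 2
  have e4 : exp (δ / 2) ≤ 1.2841 := by
    have h3 : exp (δ / 2) ≤ exp (1 / 4) := Real.exp_le_exp.2 (by linarith)
    have h4 : exp (1 / 4 : ℝ) ^ 4 < 1.2841 ^ 4 := by
      rw [← Real.exp_nat_mul]
      have h5 := Real.exp_one_lt_d9
      norm_num
      norm_num at h5
      linarith
    have h5 : exp (1 / 4 : ℝ) < 1.2841 := lt_of_pow_lt_pow_left₀ 4 (by norm_num) h4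
    linarith
  rw [e1, Real.mul_rpow (by positivity) (by norm_num), e2]
  have h3 : 16 / 3 / u = 32 / 3 * log |a| := by
    rw [hu]
    field_simp
    norm_num
  rw [h3]
  have h4 : |a| ^ (-δ) * exp (δ / 2) * 2 ^ (1 - u) ≤ |a| ^ (-δ) * 1.2841 * 2 := by
    apply mul_le_mul _ e3 (by positivity) (by positivity)
    exact mul_le_mul_of_nonneg_left e4 (by positivity)
  calc 32 / 3 * log |a| * (|a| ^ (-δ) * exp (δ / 2) * 2 ^ (1 - u)) ≤
        32 / 3 * log |a| * (|a| ^ (-δ) * 1.2841 * 2) := mul_le_mul_of_nonneg_left h4 (by positivity)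
    _ = (32 / 3 * 1.2841 * 2) * (log |a| * |a| ^ (-δ)) := by ring
    _ ≤ 27.4 * (log |a| * |a| ^ (-δ)) := by
        apply mul_le_mul_of_nonneg_right _ (by positivity)
        norm_num

theorem vol_bdS {a δ : ℝ} (ha : 256 ≤ |a|) (hδ : δ ≤ 1 / 2) (N : ℕ) :
    volume (bdS a δ N) ≤ ENNReal.ofReal (60 * log |a| * (|a| ^ (-δ) + N / a ^ 2)) := by
  have ha0 : 0 < |a| := by linarith
  have ha4 : 4 ≤ |a| := by linarith
  have hla := log256 ha
  have hapos : 0 < a ^ 2 := by rw [← sq_abs]; positivity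
  obtain ⟨b, hb4, hab, hs1, hs2⟩ := root4 ha
  have hb0 : 0 < b := by linarith
  -- the five sets
  have v1 := vol_bdP ha4 (show (0:ℝ) ≤ 64 by norm_num) N
  have v2 := vol_M ha hδ
  have v3 : volume ((fun p => ((S a)^[N] p).swap) ⁻¹'
      (toMeasurable volume (bdM a (sx a) (8 * |a| ^ (1 - δ))))) ≤
      ENNReal.ofReal (27.4 * (log |a| * |a| ^ (-δ))) := by
    have hsw : MeasurePreserving (Prod.swap : T2 → T2)
        ((volume : Measure UnitAddCircle).prod volume) ((volume : Measure UnitAddCircle).prod volume) :=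
      Measure.measurePreserving_swap
    have hmp : MeasurePreserving (fun p : T2 => ((S a)^[N] p).swap) volume volume :=
      hsw.comp (iter_mp a N)
    rw [hmp.measure_preimage (measurableSet_toMeasurable _ _).nullMeasurableSet,
      measure_toMeasurable]
    exact v2
  have v4 : volume (⋃ i ∈ ({0, N - 1} : Finset ℕ), bdW a (31 * √|a|) i) ≤
      ENNReal.ofReal (2 * (31 * √|a| / (3 * |a|))) := by
    refine (measure_biUnion_finset_le _ _).trans ?_
    refine (Finset.sum_le_sum fun i _ => vol_bdW ha4 (by positivity) i).trans ?_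
    rw [Finset.sum_const, nsmul_eq_mul, ENNReal.ofReal_mul (by norm_num)]
    apply mul_le_mul' _ le_rfl
    have h1 : ({0, N - 1} : Finset ℕ).card ≤ 2 := Finset.card_le_two
    have h2 : ENNReal.ofReal (2:ℝ) = ((2:ℕ) : ℝ≥0∞) := by
      rw [← ENNReal.ofReal_natCast]
      norm_num
    rw [h2]
    exact_mod_cast h1
  have v5 : volume (⋃ i ∈ ({1, 2, 3, N - 2, N - 3, N - 4} : Finset ℕ), bdW a (16 * √(√|a|)) i) ≤
      ENNReal.ofReal (6 * (16 * √(√|a|) / (3 * |a|))) := by
    refine (measure_biUnion_finset_le _ _).trans ?_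
    refine (Finset.sum_le_sum fun i _ => vol_bdW ha4 (by positivity) i).trans ?_
    rw [Finset.sum_const, nsmul_eq_mul, ENNReal.ofReal_mul (by norm_num)]
    apply mul_le_mul' _ le_rfl
    have h1 : ({1, 2, 3, N - 2, N - 3, N - 4} : Finset ℕ).card ≤ 6 := Finset.card_le_six
    have h2 : ENNReal.ofReal (6:ℝ) = ((6:ℕ) : ℝ≥0∞) := by
      rw [← ENNReal.ofReal_natCast]
      norm_num
    rw [h2]
    exact_mod_cast h1
  have h0 : volume (bdS a δ N) ≤
      ENNReal.ofReal (N * ((8 + 2 * 64 / 9 * (1 + 3 * log |a|)) / a ^ 2)) +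
      (ENNReal.ofReal (27.4 * (log |a| * |a| ^ (-δ))) +
      (ENNReal.ofReal (27.4 * (log |a| * |a| ^ (-δ))) +
      (ENNReal.ofReal (2 * (31 * √|a| / (3 * |a|))) +
        ENNReal.ofReal (6 * (16 * √(√|a|) / (3 * |a|)))))) := by
    unfold bdS
    refine (measure_union_le _ _).trans (add_le_add v1 ?_)
    refine (measure_union_le _ _).trans (add_le_add v2 ?_)
    refine (measure_union_le _ _).trans (add_le_add v3 ?_)
    exact (measure_union_le _ _).trans (add_le_add v4 v5)
  refine h0.trans ?_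
  rw [← ENNReal.ofReal_add (by positivity) (by positivity),
    ← ENNReal.ofReal_add (by positivity) (by positivity),
    ← ENNReal.ofReal_add (by positivity) (by positivity),
    ← ENNReal.ofReal_add (by positivity) (by positivity)]
  apply ENNReal.ofReal_le_ofReal
  have t1 : (N:ℝ) * ((8 + 2 * 64 / 9 * (1 + 3 * log |a|)) / a ^ 2) ≤
      60 * (log |a| * (N / a ^ 2)) := by
    have h2 : 8 + 2 * 64 / 9 * (1 + 3 * log |a|) ≤ 60 * log |a| := by linarith
    have h4 : (8 + 2 * 64 / 9 * (1 + 3 * log |a|)) / a ^ 2 ≤ 60 * log |a| / a ^ 2 :=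
      div_le_div_of_nonneg_right h2 hapos.le
    calc (N:ℝ) * ((8 + 2 * 64 / 9 * (1 + 3 * log |a|)) / a ^ 2) ≤
          N * (60 * log |a| / a ^ 2) := mul_le_mul_of_nonneg_left h4 (by positivity)
      _ = _ := by ring
  have t2 : 2 * (31 * √|a| / (3 * |a|)) + 6 * (16 * √(√|a|) / (3 * |a|)) ≤
      5.2 * (log |a| * |a| ^ (-δ)) := by
    have h1 : 1 / b ^ 2 ≤ |a| ^ (-δ) := by
      rw [← hs1, Real.rpow_neg ha0.le, one_div]
      apply inv_anti₀ (by positivity)
      rw [Real.sqrt_eq_rpow]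
      exact Real.rpow_le_rpow_of_exponent_le (by linarith) hδ
    have h2 : 2 * (31 * √|a| / (3 * |a|)) + 6 * (16 * √(√|a|) / (3 * |a|)) ≤ 28.7 * (1 / b ^ 2) := by
      rw [hs2, hs1, hab]
      have e1 : 2 * (31 * b ^ 2 / (3 * b ^ 4)) + 6 * (16 * b / (3 * b ^ 4)) =
          (62 / 3 + 32 / b) * (1 / b ^ 2) := by
        field_simp
        ring
      rw [e1]
      apply mul_le_mul_of_nonneg_right _ (by positivity)
      have h3 : 32 / b ≤ 8 := by
        rw [div_le_iff₀ hb0]
        linarith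
      linarith
    refine h2.trans ?_
    have h3 : 28.7 * (1 / b ^ 2) ≤ 28.7 * |a| ^ (-δ) := mul_le_mul_of_nonneg_left h1 (by norm_num)
    refine h3.trans ?_
    have h4 : 0 ≤ |a| ^ (-δ) := by positivity
    nlinarith
  have t3 : 0 ≤ log |a| * |a| ^ (-δ) := by positivity
  have e : 60 * log |a| * (|a| ^ (-δ) + N / a ^ 2) =
    60 * (log |a| * |a| ^ (-δ)) + 60 * (log |a| * (N / a ^ 2)) := by ring
  rw [e]
  linarith

theorem swap_iter (a : ℝ) (p : T2) (l : ℕ) :
    (S a)^[l] (((S a)^[l] p).swap) = p.swap := by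
  induction l generalizing p with
  | zero => rfl
  | succ l ih =>
    have h1 : ∀ p : T2, S a ((S a p).swap) = p.swap := by
      intro p
      unfold S
      simp
      rfl
    rw [iterate_succ_apply', iterate_succ_apply, ih, h1]

theorem bwd_first (a : ℝ) (p : T2) {N l : ℕ} (hl : l < N) :
    ((S a)^[l] (((S a)^[N] p).swap)).1 = ((S a)^[N - 1 - l] p).1 := by
  have e1 : (S a)^[N] p = (S a)^[l] ((S a)^[N - l] p) := by
    rw [← iterate_add_apply]
    congr 2
    omega
  rw [e1, swap_iter]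
  show ((S a)^[N - l] p).2 = _
  have e2 : N - l - 1 = N - 1 - l := by omega
  rw [iter_snd a (by omega), e2]

/-- the segments starting outside the exceptional set are good -/
theorem blk_of {a δ : ℝ} (ha : 256 ≤ |a|) {N : ℕ} (hN : 1 ≤ N) {p : T2} (hp : p ∉ bdS a δ N) :
    Blk a δ (wq a p) N := by
  have ha0 : 0 < |a| := by linarith
  have ha4 : 4 ≤ |a| := by linarith
  obtain ⟨hs0, hs1⟩ := sx_mem ha
  unfold bdS at hp
  simp only [mem_union, not_or] at hp
  obtain ⟨h1, h2, h3, h4, h5⟩ := hp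
  have hW : ∀ i ∈ ({0, N - 1} : Finset ℕ), 31 * √|a| ≤ wq a p i := by
    intro i hi
    by_contra hcon
    apply h4
    simp only [mem_iUnion]
    exact ⟨i, hi, not_le.1 hcon⟩
  have hU : ∀ i ∈ ({1, 2, 3, N - 2, N - 3, N - 4} : Finset ℕ), 16 * √(√|a|) ≤ wq a p i := by
    intro i hi
    by_contra hcon
    apply h5
    simp only [mem_iUnion]
    exact ⟨i, hi, not_le.1 hcon⟩
  have hup : ∀ i, wq a p i ≤ 8 * |a| := fun i => Lc_le ha4 _
  have hnn : ∀ i, 0 ≤ wq a p i := fun i => abs_nonneg _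
  have hpair : ∀ l, l + 1 < N → 64 ≤ wq a p l * wq a p (l + 1) := by
    intro l hl
    by_contra hcon
    apply h1
    refine ⟨l + 1, by omega, hl, ?_⟩
    rw [Nat.add_sub_cancel]
    rw [not_le, mul_comm] at hcon
    exact hcon
  have h0 : 31 * √|a| ≤ wq a p 0 := hW 0 (by simp)
  have hsq : 0 < √|a| := by positivity
  have hpos : ∀ l < N, 0 < wq a p l := by
    intro l hl
    rcases Nat.lt_or_ge (l + 1) N with h6 | h6
    · have := hpair l h6
      rcases (hnn l).eq_or_lt with h7 | h7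
      · rw [← h7, zero_mul] at this
        linarith
      · exact h7
    · have := hW l (by
        have e : l = N - 1 := by omega
        rw [e]
        simp)
      linarith
  have hne : ∀ k < N, Lc a (((S a)^[k] p).1) ≠ 0 := fun k hk => abs_pos.1 (hpos k hk)
  refine ⟨⟨fun l _ => hup l, hpos, hpair, ?_, h0, ?_⟩, ⟨fun l _ => hup _, ?_, ?_, ?_, ?_, ?_⟩⟩
  · intro m hm1 hm
    exact prod_ge' ha4 hs0 (by positivity) hm1 (fun k hk => hne k (by omega)) h2
  · intro l hl1 hl2 _
    apply hU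
    simp only [Finset.mem_insert, Finset.mem_singleton]
    omega
  · intro l hl
    exact hpos _ (by omega)
  · intro l hl
    have := hpair (N - 1 - (l + 1)) (by omega)
    have e : N - 1 - (l + 1) + 1 = N - 1 - l := by omega
    rw [e, mul_comm] at this
    exact this
  · intro m hm1 hm
    have h6 : ((S a)^[N] p).swap ∉ bdM a (sx a) (8 * |a| ^ (1 - δ)) := by
      intro h7
      exact h3 (subset_toMeasurable _ _ h7)
    have h7 := prod_ge' ha4 hs0 (by positivity : 0 < 8 * |a| ^ (1 - δ)) hm1 (fun k hk => by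
      rw [bwd_first a p (by omega)]
      exact hne _ (by omega)) h6
    refine h7.trans (le_of_eq ?_)
    refine Finset.prod_congr rfl fun l hl => ?_
    rw [bwd_first a p ((Finset.mem_range.1 hl).trans_le hm)]
    rfl
  · exact hW _ (by simp)
  · intro l hl1 hl2 _
    apply hU
    simp only [Finset.mem_insert, Finset.mem_singleton]
    omega

end Pool.Agent.L7h48.SM
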